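import Mathlib

/-!
# Systems of distinct representatives whose image contains no member of a small family
-/

set_option autoImplicit false

namespace Pool.Agent.R64.Avoid

open Finset

variable {ι : Type*} [Fintype ι] [DecidableEq ι]

/-- A system of distinct representatives. -/
def IsSDR (K : ι → Finset ℕ) (φ : ι → ℕ) : Prop := Function.Injective φ ∧ ∀ i, φ i ∈ K i

/-- Exchange: if `φ` represents all lists except possibly the list `j`, and the lists satisfy
Hall's condition, then there is a full system whose image contains the values of `φ` off `j`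
and one more element. -/
theorem exchange (K : ι → Finset ℕ) (φ : ι → ℕ) (hφ : Function.Injective φ) (j : ι)
    (hK : ∀ i, i ≠ j → φ i ∈ K i) (hHall : ∀ J : Finset ι, J.card ≤ (J.biUnion K).card) :
    ∃ ψ, IsSDR K ψ ∧ ∀ i, i ≠ j → φ i ∈ univ.image ψ := by
  classical
  let S : Finset ℕ := (univ.erase j).image φ
  let closed : Finset ι → Prop := fun T => j ∈ T ∧ ∀ i ∈ T, ∀ i', i' ≠ j → φ i' ∈ K i → i' ∈ T
  have hne : (univ.filter closed).Nonempty :=
    ⟨univ, mem_filter.mpr ⟨mem_univ _, mem_univ _, fun _ _ _ _ _ => mem_univ _⟩⟩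
  obtain ⟨T, hT, hTmin⟩ := exists_min_image (univ.filter closed) card hne
  obtain ⟨hjT, hTc⟩ := (mem_filter.mp hT).2
  have hTsub : ∀ J, closed J → T ⊆ J := by
    intro J hJ
    have h1 : closed (T ∩ J) := by
      refine ⟨mem_inter.mpr ⟨hjT, hJ.1⟩, fun i hi i' hi' hφi => ?_⟩
      obtain ⟨hi1, hi2⟩ := mem_inter.mp hi
      exact mem_inter.mpr ⟨hTc i hi1 i' hi' hφi, hJ.2 i hi2 i' hi' hφi⟩
    have h2 := hTmin _ (mem_filter.mpr ⟨mem_univ _, h1⟩)
    have h3 : T ∩ J = T := eq_of_subset_of_card_le inter_subset_left h2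
    rw [← h3]
    exact inter_subset_right
  -- an element of `K(T)` outside `φ (T \ j)`
  have hex : ∃ f ∈ T.biUnion K, f ∉ (T.erase j).image φ := by
    by_contra hcon
    push Not at hcon
    have h1 : (T.biUnion K).card ≤ (T.erase j).card :=
      (card_le_card fun f hf => hcon f hf).trans card_image_le
    have h2 := hHall T
    rw [card_erase_of_mem hjT] at h1
    have h3 : 0 < T.card := card_pos.mpr ⟨j, hjT⟩
    omega
  obtain ⟨f, hfT, hf2⟩ := hex
  have hfS : f ∉ S := by
    intro hfS
    obtain ⟨i', hi', rfl⟩ := mem_image.mp hfS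
    obtain ⟨i, hiT, hfi⟩ := mem_biUnion.mp hfT
    have hi'j : i' ≠ j := (mem_erase.mp hi').1
    exact hf2 (mem_image_of_mem _ (mem_erase.mpr ⟨hi'j, hTc i hiT i' hi'j hfi⟩))
  have hScard : S.card = Fintype.card ι - 1 := by
    rw [card_image_of_injective _ hφ, card_erase_of_mem (mem_univ _), card_univ]
  have hιpos : 0 < Fintype.card ι := Fintype.card_pos_iff.mpr ⟨j⟩
  have hHall2 : ∀ J : Finset ι, J.card ≤ (J.biUnion fun i => K i ∩ insert f S).card := by
    intro J
    have h1 : (J.erase j).image φ ⊆ J.biUnion fun i => K i ∩ insert f S := by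
      intro x hx
      obtain ⟨i, hi, rfl⟩ := mem_image.mp hx
      obtain ⟨hij, hiJ⟩ := mem_erase.mp hi
      exact mem_biUnion.mpr ⟨i, hiJ, mem_inter.mpr ⟨hK i hij,
        mem_insert_of_mem (mem_image_of_mem _ (mem_erase.mpr ⟨hij, mem_univ _⟩))⟩⟩
    have h2 := card_le_card h1
    rw [card_image_of_injective _ hφ] at h2
    by_cases hjJ : j ∈ J
    · rw [card_erase_of_mem hjJ] at h2
      by_contra hcon
      push Not at hcon
      have h3 : (J.erase j).image φ = J.biUnion fun i => K i ∩ insert f S := by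
        refine eq_of_subset_of_card_le h1 ?_
        rw [card_image_of_injective _ hφ, card_erase_of_mem hjJ]
        omega
      have hJc : closed J := by
        refine ⟨hjJ, fun i hi i' hi' hφi => ?_⟩
        have h4 : φ i' ∈ J.biUnion fun i => K i ∩ insert f S :=
          mem_biUnion.mpr ⟨i, hi, mem_inter.mpr ⟨hφi,
            mem_insert_of_mem (mem_image_of_mem _ (mem_erase.mpr ⟨hi', mem_univ _⟩))⟩⟩
        rw [← h3] at h4
        obtain ⟨i'', hi'', he⟩ := mem_image.mp h4
        rw [← hφ he]
        exact (mem_erase.mp hi'').2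
      obtain ⟨i, hiT, hfi⟩ := mem_biUnion.mp hfT
      have h5 : f ∈ J.biUnion fun i => K i ∩ insert f S :=
        mem_biUnion.mpr ⟨i, hTsub J hJc hiT, mem_inter.mpr ⟨hfi, mem_insert_self _ _⟩⟩
      rw [← h3] at h5
      obtain ⟨i', hi', rfl⟩ := mem_image.mp h5
      exact hfS (mem_image_of_mem _ (mem_erase.mpr ⟨(mem_erase.mp hi').1, mem_univ _⟩))
    · rw [erase_eq_of_notMem hjJ] at h2
      exact h2
  obtain ⟨ψ, hψ1, hψ2⟩ :=
    (Finset.all_card_le_biUnion_card_iff_exists_injective fun i => K i ∩ insert f S).mp hHall2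
  refine ⟨ψ, ⟨hψ1, fun i => (mem_inter.mp (hψ2 i)).1⟩, fun i hij => ?_⟩
  have himg : univ.image ψ = insert f S := by
    refine eq_of_subset_of_card_le ?_ ?_
    · intro x hx
      obtain ⟨i, _, rfl⟩ := mem_image.mp hx
      exact (mem_inter.mp (hψ2 i)).2
    · rw [card_image_of_injective _ hψ1, card_insert_of_notMem hfS, hScard, card_univ]
      omega
  rw [himg]
  exact mem_insert_of_mem (mem_image_of_mem _ (mem_erase.mpr ⟨hij, mem_univ _⟩))

/-- **Avoiding a small family.** If the lists `K` have surplus `m`, and fewer than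
`(t / (m + r)) ^ m` sets `Y` of size at least `t - r` are given, then some system of distinct
representatives has an image containing none of them. -/
theorem avoid (r m : ℕ) : ∀ (K : ι → Finset ℕ) (φ : ι → ℕ), IsSDR K φ →
    (∀ J : Finset ι, J.Nonempty → J.card + m ≤ (J.biUnion K).card) →
    ∀ F : Finset (Finset ℕ),
      (F.filter fun Y => (univ.image φ \ Y).card ≤ r + m).card * (m + r) ^ m <
        Fintype.card ι ^ m →
      ∃ ψ, IsSDR K ψ ∧ ∀ Y ∈ F, Fintype.card ι ≤ Y.card + r → ¬ Y ⊆ univ.image ψ := by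
  classical
  induction m with
  | zero =>
    intro K φ hφ _ F hF
    refine ⟨φ, hφ, fun Y hY hYc hsub => ?_⟩
    rw [pow_zero, pow_zero, mul_one, Nat.lt_one_iff, card_eq_zero] at hF
    have h1 : Y ∈ F.filter fun Y => (univ.image φ \ Y).card ≤ r + 0 := by
      refine mem_filter.mpr ⟨hY, ?_⟩
      rw [card_sdiff_of_subset hsub, card_image_of_injective _ hφ.1, card_univ]
      omega
    rw [hF] at h1
    exact absurd h1 (notMem_empty _)
  | succ m ih =>
    intro K φ hφ hsur F hF
    -- delete the colour `φ j`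
    have hstep : ∀ j : ι, ∃ φ' : ι → ℕ, IsSDR (fun i => (K i).erase (φ j)) φ' ∧
        ∀ i, i ≠ j → φ i ∈ univ.image φ' := by
      intro j
      apply exchange _ φ hφ.1 j
      · intro i hij
        exact mem_erase.mpr ⟨fun h => hij (hφ.1 h), hφ.2 i⟩
      · intro J
        rcases J.eq_empty_or_nonempty with rfl | hJ
        · simp
        · have h1 := hsur J hJ
          have h2 : (J.biUnion K).erase (φ j) ⊆ J.biUnion fun i => (K i).erase (φ j) := by
            intro x hx
            obtain ⟨hx1, hx2⟩ := mem_erase.mp hx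
            obtain ⟨i, hi, hxi⟩ := mem_biUnion.mp hx2
            exact mem_biUnion.mpr ⟨i, hi, mem_erase.mpr ⟨hx1, hxi⟩⟩
          have h3 := card_le_card h2
          have h4 := pred_card_le_card_erase (s := J.biUnion K) (a := φ j)
          omega
    choose φ' hφ'1 hφ'2 using hstep
    let G : ι → Finset (Finset ℕ) := fun j =>
      (F.filter fun Y => φ j ∉ Y).filter fun Y => (univ.image (φ' j) \ Y).card ≤ r + m
    let N : Finset (Finset ℕ) := F.filter fun Y => (univ.image φ \ Y).card ≤ r + (m + 1)
    have hcount : ∑ j, (G j).card ≤ N.card * (r + (m + 1)) := by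
      have h1 : ∀ j, (G j).card ≤ (N.filter fun Y => φ j ∉ Y).card := by
        intro j
        apply card_le_card
        intro Y hY
        obtain ⟨hY1, hY2⟩ := mem_filter.mp hY
        obtain ⟨hY3, hY4⟩ := mem_filter.mp hY1
        refine mem_filter.mpr ⟨mem_filter.mpr ⟨hY3, ?_⟩, hY4⟩
        have h2 : univ.image φ \ Y ⊆ insert (φ j) (univ.image (φ' j) \ Y) := by
          intro x hx
          obtain ⟨hx1, hx2⟩ := mem_sdiff.mp hx
          obtain ⟨i, _, rfl⟩ := mem_image.mp hx1
          by_cases hij : i = j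
          · rw [hij]; exact mem_insert_self _ _
          · exact mem_insert_of_mem (mem_sdiff.mpr ⟨hφ'2 j i hij, hx2⟩)
        have h3 := (card_le_card h2).trans (card_insert_le _ _)
        omega
      calc ∑ j, (G j).card ≤ ∑ j, (N.filter fun Y => φ j ∉ Y).card := sum_le_sum fun j _ => h1 j
        _ = ∑ Y ∈ N, (univ.filter fun j => φ j ∉ Y).card := by
            simp only [card_filter]
            exact sum_comm
        _ ≤ ∑ Y ∈ N, (r + (m + 1)) := by
            refine sum_le_sum fun Y hY => ?_
            refine le_trans ?_ (mem_filter.mp hY).2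
            have h2 : ((univ.filter fun j => φ j ∉ Y).image φ).card =
                (univ.filter fun j => φ j ∉ Y).card := card_image_of_injective _ hφ.1
            rw [← h2]
            apply card_le_card
            intro x hx
            obtain ⟨j, hj, rfl⟩ := mem_image.mp hx
            exact mem_sdiff.mpr ⟨mem_image_of_mem _ (mem_univ _), (mem_filter.mp hj).2⟩
        _ = N.card * (r + (m + 1)) := by rw [sum_const, smul_eq_mul]
    -- a good index
    have hex : ∃ j, (G j).card * Fintype.card ι ≤ N.card * (r + (m + 1)) := by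
      by_contra hcon
      push Not at hcon
      have hpos : 0 < Fintype.card ι := by
        by_contra h0
        have : Fintype.card ι = 0 := by omega
        rw [this] at hF
        simp at hF
      haveI : Nonempty ι := Fintype.card_pos_iff.mp hpos
      have h1 : ∑ _j : ι, N.card * (r + (m + 1)) < ∑ j, (G j).card * Fintype.card ι :=
        sum_lt_sum_of_nonempty univ_nonempty fun j _ => hcon j
      rw [sum_const, card_univ, smul_eq_mul, ← sum_mul] at h1
      have h2 : (∑ j, (G j).card) * Fintype.card ι ≤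
          N.card * (r + (m + 1)) * Fintype.card ι := Nat.mul_le_mul_right _ hcount
      rw [mul_comm (Fintype.card ι)] at h1
      omega
    obtain ⟨j, hj⟩ := hex
    have hbound : (G j).card * (m + r) ^ m < Fintype.card ι ^ m := by
      have hpos : 0 < Fintype.card ι := Fintype.card_pos_iff.mpr ⟨j⟩
      by_contra hcon
      push Not at hcon
      have h1 : Fintype.card ι ^ (m + 1) ≤ (G j).card * (m + r) ^ m * Fintype.card ι := by
        rw [pow_succ]
        exact Nat.mul_le_mul_right _ hcon
      have h2 : (G j).card * (m + r) ^ m * Fintype.card ι ≤ N.card * (m + 1 + r) ^ (m + 1) := by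
        calc (G j).card * (m + r) ^ m * Fintype.card ι
            = ((G j).card * Fintype.card ι) * (m + r) ^ m := by ring
          _ ≤ (N.card * (r + (m + 1))) * (m + 1 + r) ^ m :=
              Nat.mul_le_mul hj (Nat.pow_le_pow_left (by omega) _)
          _ = N.card * (m + 1 + r) ^ (m + 1) := by ring
      exact absurd (h1.trans h2) (not_le.mpr hF)
    obtain ⟨ψ, hψ1, hψ2⟩ := ih (fun i => (K i).erase (φ j)) (φ' j) (hφ'1 j) (by
      intro J hJ
      have h1 := hsur J hJ
      have h2 : (J.biUnion K).erase (φ j) ⊆ J.biUnion fun i => (K i).erase (φ j) := by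
        intro x hx
        obtain ⟨hx1, hx2⟩ := mem_erase.mp hx
        obtain ⟨i, hi, hxi⟩ := mem_biUnion.mp hx2
        exact mem_biUnion.mpr ⟨i, hi, mem_erase.mpr ⟨hx1, hxi⟩⟩
      have h3 := card_le_card h2
      have h4 := pred_card_le_card_erase (s := J.biUnion K) (a := φ j)
      omega) (F.filter fun Y => φ j ∉ Y) hbound
    refine ⟨ψ, ⟨hψ1.1, fun i => (mem_erase.mp (hψ1.2 i)).2⟩, fun Y hY hYc hsub => ?_⟩
    by_cases hjY : φ j ∈ Y
    · obtain ⟨i, _, hi⟩ := mem_image.mp (hsub hjY)
      exact (mem_erase.mp (hψ1.2 i)).1 hi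
    · exact hψ2 Y (mem_filter.mpr ⟨hY, hjY⟩) hYc hsub

/-- A convenient form. -/
theorem avoid' (r m : ℕ) (K : ι → Finset ℕ)
    (hsur : ∀ J : Finset ι, J.Nonempty → J.card + m ≤ (J.biUnion K).card)
    (F : Finset (Finset ℕ)) (hF : F.card * (m + r) ^ m < Fintype.card ι ^ m) :
    ∃ ψ, IsSDR K ψ ∧ ∀ Y ∈ F, Fintype.card ι ≤ Y.card + r → ¬ Y ⊆ univ.image ψ := by
  classical
  have hHall : ∀ J : Finset ι, J.card ≤ (J.biUnion K).card := by
    intro J
    rcases J.eq_empty_or_nonempty with rfl | hJ
    · simp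
    · exact (Nat.le_add_right _ _).trans (hsur J hJ)
  obtain ⟨φ, hφ1, hφ2⟩ := (Finset.all_card_le_biUnion_card_iff_exists_injective K).mp hHall
  refine avoid r m K φ ⟨hφ1, hφ2⟩ hsur F (lt_of_le_of_lt ?_ hF)
  exact Nat.mul_le_mul_right _ (card_filter_le _ _)

end Pool.Agent.R64.Avoid
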