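import Mathlib

/-! Combinatorial part for MP_815355_co: cographs embed in dense sets of leaves of a binary tree. -/

namespace Pool.Agent.R64.CogA

/-- `CoSet H S`: the finite vertex set `S` of the graph `H` can be built from the empty set and
from single vertices by repeatedly taking the union of two disjoint sets between which there are
no edges of `H` (disjoint union) or all edges of `H` (join). -/
inductive CoSet {V : Type} [DecidableEq V] (H : SimpleGraph V) : Finset V → Prop
  | empty : CoSet H ∅
  | single (v : V) : CoSet H {v}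
  | union (A B : Finset V) : CoSet H A → CoSet H B → Disjoint A B →
      (∀ a ∈ A, ∀ b ∈ B, ¬ H.Adj a b) → CoSet H (A ∪ B)
  | join (A B : Finset V) : CoSet H A → CoSet H B → Disjoint A B →
      (∀ a ∈ A, ∀ b ∈ B, H.Adj a b) → CoSet H (A ∪ B)

/-- tree adjacency of two sequences of bits: at the first index where they differ, `G` holds -/
def tadj (G : ℕ → Prop) {L : ℕ} (u v : Fin L → Bool) : Prop :=
  ∃ i : Fin L, G i ∧ (∀ j : Fin L, j < i → u j = v j) ∧ u i ≠ v i

theorem tadj_cons_same (G : ℕ → Prop) {L : ℕ} (b : Bool) (u v : Fin L → Bool) :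
    tadj G (Fin.cons b u : Fin (L+1) → Bool) (Fin.cons b v) ↔ tadj (fun i => G (i+1)) u v := by
  constructor
  · rintro ⟨i, hG, hj, hne⟩
    induction i using Fin.cases with
    | zero => simp at hne
    | succ i =>
      refine ⟨i, by simpa using hG, fun j hji => ?_, by simpa using hne⟩
      have := hj j.succ (by simpa using hji)
      simpa using this
  · rintro ⟨i, hG, hj, hne⟩
    refine ⟨i.succ, by simpa using hG, fun j hji => ?_, by simpa using hne⟩
    induction j using Fin.cases with
    | zero => simp
    | succ j => simpa using hj j (by simpa using hji)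

theorem tadj_cons_diff (G : ℕ → Prop) {L : ℕ} (b b' : Bool) (h : b ≠ b') (u v : Fin L → Bool) :
    tadj G (Fin.cons b u : Fin (L+1) → Bool) (Fin.cons b' v) ↔ G 0 := by
  constructor
  · rintro ⟨i, hG, hj, hne⟩
    induction i using Fin.cases with
    | zero => simpa using hG
    | succ i =>
      have := hj 0 (Fin.succ_pos i)
      simp at this
      exact absurd this h
  · intro hG
    exact ⟨0, by simpa using hG, fun j hj => absurd hj (by simp), by simpa using h⟩

theorem tadj_symm (G : ℕ → Prop) {L : ℕ} (u v : Fin L → Bool) (h : tadj G u v) : tadj G v u := by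
  obtain ⟨i, hG, hj, hne⟩ := h
  exact ⟨i, hG, fun j hji => (hj j hji).symm, hne.symm⟩

/-- induced embedding of `H[S]` in the leaf set `A` -/
def EmbOn {V : Type} (G : ℕ → Prop) (H : SimpleGraph V) (S : Finset V) {L : ℕ}
    (A : Finset (Fin L → Bool)) : Prop :=
  ∃ g : V → (Fin L → Bool), Set.InjOn g S ∧ (∀ v ∈ S, g v ∈ A) ∧
    ∀ u ∈ S, ∀ v ∈ S, u ≠ v → (H.Adj u v ↔ tadj G (g u) (g v))

/-- the child of a leaf set -/
def child {L : ℕ} (A : Finset (Fin (L+1) → Bool)) (b : Bool) : Finset (Fin L → Bool) :=
  Finset.univ.filter (fun v => (Fin.cons b v : Fin (L+1) → Bool) ∈ A)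

theorem card_child {L : ℕ} (A : Finset (Fin (L+1) → Bool)) :
    (child A false).card + (child A true).card = A.card := by
  classical
  have h1 : ∀ b, (child A b).card = (A.filter (fun w => w 0 = b)).card := by
    intro b
    refine Finset.card_bij (fun v _ => (Fin.cons b v : Fin (L+1) → Bool)) ?_ ?_ ?_
    · intro v hv
      simp [child] at hv ⊢
      exact hv
    · intro v _ w _ hvw
      have := congrArg Fin.tail hvw
      simpa using this
    · intro w hw
      simp at hw
      refine ⟨Fin.tail w, ?_, ?_⟩
      · simp only [child, Finset.mem_filter, Finset.mem_univ, true_and]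
        rw [← hw.2]
        rw [Fin.cons_self_tail]
        exact hw.1
      · rw [← hw.2]
        exact Fin.cons_self_tail w
  rw [h1, h1]
  have h2 : (A.filter (fun w => w 0 = true)) = (A.filter (fun w => ¬ (w 0 = false))) := by
    ext w; simp
  rw [h2]
  exact Finset.card_filter_add_card_filter_not (s := A) (fun w => w 0 = false)

theorem embOn_child {V : Type} (G : ℕ → Prop) (H : SimpleGraph V) (S : Finset V) {L : ℕ}
    (A : Finset (Fin (L+1) → Bool)) (b : Bool)
    (h : EmbOn (fun i => G (i+1)) H S (child A b)) : EmbOn G H S A := by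
  obtain ⟨g, hinj, hmem, hadj⟩ := h
  refine ⟨fun v => (Fin.cons b (g v) : Fin (L+1) → Bool), ?_, ?_, ?_⟩
  · intro u hu v hv huv
    apply hinj hu hv
    have := congrArg Fin.tail huv
    simpa using this
  · intro v hv
    have := hmem v hv
    simpa [child] using this
  · intro u hu v hv huv
    rw [hadj u hu v hv huv]
    exact (tadj_cons_same G b (g u) (g v)).symm

theorem embOn_glue {V : Type} [DecidableEq V] (G : ℕ → Prop) (H : SimpleGraph V) (S T : Finset V)
    {L : ℕ} (A : Finset (Fin (L+1) → Bool))
    (hST : ∀ a ∈ S, ∀ b ∈ T, (H.Adj a b ↔ G 0)) (hd : Disjoint S T)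
    (h0 : EmbOn (fun i => G (i+1)) H S (child A false))
    (h1 : EmbOn (fun i => G (i+1)) H T (child A true)) : EmbOn G H (S ∪ T) A := by
  obtain ⟨g0, hinj0, hmem0, hadj0⟩ := h0
  obtain ⟨g1, hinj1, hmem1, hadj1⟩ := h1
  have hTS : ∀ v ∈ T, v ∉ S := fun v hv hv' => (Finset.disjoint_left.1 hd) hv' hv
  refine ⟨fun v => if v ∈ S then (Fin.cons false (g0 v) : Fin (L+1) → Bool)
    else Fin.cons true (g1 v), ?_, ?_, ?_⟩
  · intro u hu v hv huv
    simp only [Finset.coe_union, Set.mem_union, Finset.mem_coe] at hu hv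
    rcases hu with hu | hu <;> rcases hv with hv | hv
    · simp only [if_pos hu, if_pos hv] at huv
      apply hinj0 hu hv
      have := congrArg Fin.tail huv
      simpa using this
    · simp only [if_pos hu, if_neg (hTS v hv)] at huv
      have := congrFun huv 0
      simp at this
    · simp only [if_pos hv, if_neg (hTS u hu)] at huv
      have := congrFun huv 0
      simp at this
    · simp only [if_neg (hTS u hu), if_neg (hTS v hv)] at huv
      apply hinj1 hu hv
      have := congrArg Fin.tail huv
      simpa using this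
  · intro v hv
    rcases Finset.mem_union.1 hv with hv | hv
    · have := hmem0 v hv
      simp only [if_pos hv]
      simpa [child] using this
    · have := hmem1 v hv
      simp only [if_neg (hTS v hv)]
      simpa [child] using this
  · intro u hu v hv huv
    rcases Finset.mem_union.1 hu with hu | hu <;> rcases Finset.mem_union.1 hv with hv | hv
    · simp only [if_pos hu, if_pos hv]
      rw [hadj0 u hu v hv huv]
      exact (tadj_cons_same G false (g0 u) (g0 v)).symm
    · simp only [if_pos hu, if_neg (hTS v hv)]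
      rw [hST u hu v hv]
      exact (tadj_cons_diff G false true (by simp) _ _).symm
    · simp only [if_pos hv, if_neg (hTS u hu)]
      rw [H.adj_comm, hST v hv u hu]
      exact (tadj_cons_diff G true false (by simp) _ _).symm
    · simp only [if_neg (hTS u hu), if_neg (hTS v hv)]
      rw [hadj1 u hu v hv huv]
      exact (tadj_cons_same G true (g1 u) (g1 v)).symm

/-- every leaf set of density at least `η` at every depth at least `L0` contains `H[S]` -/
def Dense {V : Type} (G : ℕ → Prop) (H : SimpleGraph V) (S : Finset V) (η : ℝ) (L0 : ℕ) : Prop :=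
  ∀ L, L0 ≤ L → ∀ A : Finset (Fin L → Bool), η * 2 ^ L ≤ (A.card : ℝ) → EmbOn G H S A

theorem dense_shift_one {V : Type} (G : ℕ → Prop) (H : SimpleGraph V) (S : Finset V) (η : ℝ)
    (L0 : ℕ) (h : Dense (fun i => G (i+1)) H S η L0) : Dense G H S η (L0 + 1) := by
  intro L hL A hA
  obtain ⟨L', rfl⟩ : ∃ L', L = L' + 1 := ⟨L - 1, by omega⟩
  have hc := card_child A
  have hc' : ((child A false).card : ℝ) + ((child A true).card : ℝ) = (A.card : ℝ) := by
    exact_mod_cast hc
  have : η * 2 ^ L' ≤ ((child A false).card : ℝ) ∨ η * 2 ^ L' ≤ ((child A true).card : ℝ) := by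
    by_contra hcon
    push Not at hcon
    rw [pow_succ] at hA
    linarith [hcon.1, hcon.2]
  rcases this with h' | h'
  · exact embOn_child G H S A false (h L' (by omega) _ h')
  · exact embOn_child G H S A true (h L' (by omega) _ h')

theorem dense_shift {V : Type} (H : SimpleGraph V) (S : Finset V) (η : ℝ) :
    ∀ (l : ℕ) (G : ℕ → Prop) (L0 : ℕ), Dense (fun i => G (i+l)) H S η L0 →
      Dense G H S η (L0 + l) := by
  intro l
  induction l with
  | zero => intro G L0 h; simpa using h
  | succ l ih =>
    intro G L0 h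
    have h1 : Dense (fun i => (fun i => G (i+1)) (i+l)) H S η L0 := by
      have : (fun i => (fun i => G (i+1)) (i+l)) = (fun i => G (i+(l+1))) := by
        funext i; simp only; congr 1
      rw [this]; exact h
    have h2 := ih (fun i => G (i+1)) L0 h1
    have h3 := dense_shift_one G H S η (L0 + l) h2
    simpa [add_assoc] using h3

/-- both types occur infinitely often -/
def Inf (G : ℕ → Prop) : Prop := (∀ N, ∃ i, N ≤ i ∧ G i) ∧ (∀ N, ∃ i, N ≤ i ∧ ¬ G i)

theorem inf_shift (G : ℕ → Prop) (hG : Inf G) (l : ℕ) : Inf (fun i => G (i + l)) := by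
  refine ⟨fun N => ?_, fun N => ?_⟩
  · obtain ⟨i, hi, hGi⟩ := hG.1 (N + l)
    exact ⟨i - l, by omega, by simpa [Nat.sub_add_cancel (by omega : l ≤ i)] using hGi⟩
  · obtain ⟨i, hi, hGi⟩ := hG.2 (N + l)
    exact ⟨i - l, by omega, by simpa [Nat.sub_add_cancel (by omega : l ≤ i)] using hGi⟩

theorem dense_step {V : Type} [DecidableEq V] (H : SimpleGraph V) (S T : Finset V) (η : ℝ)
    (hη : 0 < η) (τ : Prop) (hST : ∀ a ∈ S, ∀ b ∈ T, (H.Adj a b ↔ τ)) (hd : Disjoint S T)
    (hS : ∀ G, Inf G → ∃ L0, Dense G H S η L0) (hT : ∀ G, Inf G → ∃ L0, Dense G H T η L0) :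
    ∀ (m : ℕ) (G : ℕ → Prop), Inf G → ∃ L0, Dense G H (S ∪ T) (η + (1/2)^m) L0 := by
  intro m
  induction m with
  | zero =>
    intro G hG
    refine ⟨0, fun L _ A hA => ?_⟩
    exfalso
    have h1 : (A.card : ℝ) ≤ 2 ^ L := by
      have : A.card ≤ 2 ^ L := by
        have := Finset.card_le_univ A
        simpa using this
      exact_mod_cast this
    have h2 : (0:ℝ) < 2 ^ L := by positivity
    simp at hA
    nlinarith
  | succ m ih =>
    intro G hG
    -- first index of the right type
    obtain ⟨l, hl⟩ : ∃ l, (G l ↔ τ) := by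
      by_cases hτ : τ
      · obtain ⟨i, _, hi⟩ := hG.1 0
        exact ⟨i, by simp [hi, hτ]⟩
      · obtain ⟨i, _, hi⟩ := hG.2 0
        exact ⟨i, by simp [hi, hτ]⟩
    have hG' := inf_shift G hG (l+1)
    obtain ⟨L1, hL1⟩ := hS _ hG'
    obtain ⟨L2, hL2⟩ := hT _ hG'
    obtain ⟨L3, hL3⟩ := ih _ hG'
    refine ⟨max L1 (max L2 L3) + 1 + l, ?_⟩
    apply dense_shift
    intro L hL A hA
    obtain ⟨L', rfl⟩ : ∃ L', L = L' + 1 := ⟨L - 1, by omega⟩
    have hLL : max L1 (max L2 L3) ≤ L' := by omega
    have hc := card_child A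
    have hc' : ((child A false).card : ℝ) + ((child A true).card : ℝ) = (A.card : ℝ) := by
      exact_mod_cast hc
    have hGs : (fun i => (fun i => G (i + l)) (i + 1)) = (fun i => G (i + (l+1))) := by
      funext i; simp only; congr 1; ring
    have h2 : (0:ℝ) < 2 ^ L' := by positivity
    by_cases h0 : η * 2 ^ L' ≤ ((child A false).card : ℝ)
    · by_cases h1 : η * 2 ^ L' ≤ ((child A true).card : ℝ)
      · apply embOn_glue (fun i => G (i+l)) H S T A _ hd
        · rw [hGs]; exact hL1 L' (le_trans (le_max_left _ _) hLL) _ h0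
        · rw [hGs]
          exact hL2 L' (le_trans (le_trans (le_max_left _ _) (le_max_right _ _)) hLL) _ h1
        · intro a ha b hb
          rw [hST a ha b hb]
          simpa using hl.symm
      · push Not at h1
        apply embOn_child (fun i => G (i+l)) H (S ∪ T) A false
        rw [hGs]
        apply hL3 L' (le_trans (le_trans (le_max_right _ _) (le_max_right _ _)) hLL)
        have : (η + (1/2)^(m+1)) * 2 ^ (L'+1) = 2 * (η * 2^L') + (1/2)^m * 2 ^ L' := by
          rw [pow_succ, pow_succ]; ring
        rw [this] at hA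
        rw [add_mul]
        linarith
    · push Not at h0
      apply embOn_child (fun i => G (i+l)) H (S ∪ T) A true
      rw [hGs]
      apply hL3 L' (le_trans (le_trans (le_max_right _ _) (le_max_right _ _)) hLL)
      have : (η + (1/2)^(m+1)) * 2 ^ (L'+1) = 2 * (η * 2^L') + (1/2)^m * 2 ^ L' := by
        rw [pow_succ, pow_succ]; ring
      rw [this] at hA
      rw [add_mul]
      linarith

theorem dense_coset {V : Type} [DecidableEq V] (H : SimpleGraph V) (S : Finset V)
    (hS : CoSet H S) : ∀ (G : ℕ → Prop), Inf G → ∀ η : ℝ, 0 < η → ∃ L0, Dense G H S η L0 := by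
  induction hS with
  | empty =>
    intro G hG η hη
    exact ⟨0, fun L _ A hA => ⟨fun _ _ => false, by simp, by simp, by simp⟩⟩
  | single v =>
    intro G hG η hη
    refine ⟨0, fun L _ A hA => ?_⟩
    have hpos : (0:ℝ) < (A.card : ℝ) := lt_of_lt_of_le (by positivity) hA
    have : 0 < A.card := by exact_mod_cast hpos
    obtain ⟨a, ha⟩ := Finset.card_pos.1 this
    refine ⟨fun _ => a, by simp, by simpa using ha, ?_⟩
    intro u hu w hw huw
    simp at hu hw
    exact absurd (hu.trans hw.symm) huw
  | union A B hA hB hd hadj ihA ihB =>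
    intro G hG η hη
    obtain ⟨m, hm⟩ := exists_pow_lt_of_lt_one (half_pos hη) (by norm_num : (1/2:ℝ) < 1)
    obtain ⟨L0, hL0⟩ := dense_step H A B (η/2) (half_pos hη) False
      (fun a ha b hb => by simp [hadj a ha b hb]) hd
      (fun G hG => ihA G hG _ (half_pos hη)) (fun G hG => ihB G hG _ (half_pos hη)) m G hG
    refine ⟨L0, fun L hL C hC => hL0 L hL C (le_trans ?_ hC)⟩
    apply mul_le_mul_of_nonneg_right _ (by positivity)
    linarith
  | join A B hA hB hd hadj ihA ihB =>
    intro G hG η hη
    obtain ⟨m, hm⟩ := exists_pow_lt_of_lt_one (half_pos hη) (by norm_num : (1/2:ℝ) < 1)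
    obtain ⟨L0, hL0⟩ := dense_step H A B (η/2) (half_pos hη) True
      (fun a ha b hb => by simp [hadj a ha b hb]) hd
      (fun G hG => ihA G hG _ (half_pos hη)) (fun G hG => ihB G hG _ (half_pos hη)) m G hG
    refine ⟨L0, fun L hL C hC => hL0 L hL C (le_trans ?_ hC)⟩
    apply mul_le_mul_of_nonneg_right _ (by positivity)
    linarith

end Pool.Agent.R64.CogA
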