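import Mathlib
import Pool.Agent.R64.CogA

/-! Graphons, sub-objects and persistence sets (definitions for MP_815355_co), and general facts. -/

open MeasureTheory

namespace Pool.Agent.R64.CogB

open Pool.Agent.R64.CogA

/-- a graphon on `[0,1]` -/
structure Graphon where
  W : unitInterval → unitInterval → ℝ
  meas : Measurable (fun p : unitInterval × unitInterval => W p.1 p.2)
  symm : ∀ x y, W x y = W y x
  nonneg : ∀ x y, 0 ≤ W x y
  le_one : ∀ x y, W x y ≤ 1

/-- ordered pairs `i < j` -/
def pairs (n : ℕ) : Finset (Fin n × Fin n) := Finset.univ.filter (fun p => p.1 < p.2)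

open Classical in
/-- `∏_{ij ∈ E(H)} W(x_i,x_j) ∏_{ij ∉ E(H)} (1 - W(x_i,x_j))` -/
noncomputable def ind (W : Graphon) {n : ℕ} (H : SimpleGraph (Fin n)) (x : Fin n → unitInterval) :
    ℝ :=
  ∏ p ∈ pairs n, if H.Adj p.1 p.2 then W.W (x p.1) (x p.2) else 1 - W.W (x p.1) (x p.2)

/-- a real parameter of finite graphs (with vertex sets `Fin n`) -/
abbrev Param := ∀ n : ℕ, SimpleGraph (Fin n) → ℝ

/-- the (labelled) induced densities of a graphon -/
noncomputable def dens (W : Graphon) : Param := fun n H => ∫ x : Fin n → unitInterval, ind W H x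

/-- the induced densities of `W|_f`, i.e. of `W` on the probability space
`([0,1], f dλ / ∫ f)` -/
noncomputable def densOn (W : Graphon) (f : unitInterval → ℝ) : Param := fun n H =>
  (∫ x : Fin n → unitInterval, (∏ i, f (x i)) * ind W H x) / (∫ t, f t) ^ n

/-- limits: graphons up to weak isomorphism, i.e. their induced densities -/
def IsLimit (φ : Param) : Prop := ∃ W : Graphon, φ = dens W

/-- `ψ` is a sub-object of `φ` -/
def SubObj (ψ φ : Param) : Prop := ∃ (W : Graphon) (f : unitInterval → ℝ), φ = dens W ∧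
  Measurable f ∧ (∀ t, 0 ≤ f t ∧ f t ≤ 1) ∧ 0 < ∫ t, f t ∧ ψ = densOn W f

/-- finite graphs -/
abbrev FinGraph := Σ n : ℕ, SimpleGraph (Fin n)

/-- `Q(φ)` -/
def Q (φ : Param) : Set FinGraph := {H | 0 < φ H.1 H.2}

/-- `P(φ)` -/
def P (φ : Param) : Set FinGraph := {H | ∀ ψ, SubObj ψ φ → H ∈ Q ψ}

/-- the class of finite cographs (including `K_0`) -/
def Cographs : Set FinGraph := {H | CoSet H.2 Finset.univ}

/-- `Φ_F` for `F` the class of cographs -/
def PhiF : Set Param := {φ | IsLimit φ ∧ P φ = Cographs ∧ Q φ = Cographs}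

theorem ind_nonneg (W : Graphon) {n : ℕ} (H : SimpleGraph (Fin n)) (x : Fin n → unitInterval) :
    0 ≤ ind W H x := by
  unfold ind
  apply Finset.prod_nonneg
  intro p _
  split_ifs
  · exact W.nonneg _ _
  · linarith [W.le_one (x p.1) (x p.2)]

theorem ind_le_one (W : Graphon) {n : ℕ} (H : SimpleGraph (Fin n)) (x : Fin n → unitInterval) :
    ind W H x ≤ 1 := by
  unfold ind
  apply Finset.prod_le_one
  · intro p _
    split_ifs
    · exact W.nonneg _ _
    · linarith [W.le_one (x p.1) (x p.2)]
  · intro p _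
    split_ifs
    · exact W.le_one _ _
    · linarith [W.nonneg (x p.1) (x p.2)]

theorem measurable_ind (W : Graphon) {n : ℕ} (H : SimpleGraph (Fin n)) :
    Measurable (fun x : Fin n → unitInterval => ind W H x) := by
  unfold ind
  apply Finset.measurable_prod
  intro p _
  have hm : Measurable (fun x : Fin n → unitInterval => W.W (x p.1) (x p.2)) :=
    Measurable.comp (g := fun q : unitInterval × unitInterval => W.W q.1 q.2)
      (f := fun x : Fin n → unitInterval => (x p.1, x p.2)) W.meas
      ((measurable_pi_apply p.1).prodMk (measurable_pi_apply p.2))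
  split_ifs
  · exact hm
  · exact measurable_const.sub hm

theorem integrable_of_bdd {n : ℕ} (F : (Fin n → unitInterval) → ℝ) (hF : Measurable F)
    (h0 : ∀ x, 0 ≤ F x) (h1 : ∀ x, F x ≤ 1) : Integrable F := by
  apply Integrable.of_bound hF.aestronglyMeasurable 1
  filter_upwards with x
  rw [Real.norm_eq_abs, abs_of_nonneg (h0 x)]
  exact h1 x

/-- the graph with edge set coded by a set of ordered pairs -/
def gr {n : ℕ} (t : Finset (Fin n × Fin n)) : SimpleGraph (Fin n) :=
  SimpleGraph.fromRel (fun i j => (i, j) ∈ t)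

theorem gr_adj {n : ℕ} (t : Finset (Fin n × Fin n)) (ht : t ⊆ pairs n) (p : Fin n × Fin n)
    (hp : p ∈ pairs n) : (gr t).Adj p.1 p.2 ↔ p ∈ t := by
  have hp' : p.1 < p.2 := by simpa [pairs] using hp
  unfold gr
  rw [SimpleGraph.fromRel_adj]
  constructor
  · rintro ⟨_, h | h⟩
    · exact h
    · have := ht h
      simp [pairs] at this
      exact absurd this (not_lt.2 hp'.le)
  · intro h
    exact ⟨ne_of_lt hp', Or.inl h⟩

theorem sum_ind (W : Graphon) (n : ℕ) (x : Fin n → unitInterval) :
    ∑ t ∈ (pairs n).powerset, ind W (gr t) x = 1 := by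
  classical
  have h := Finset.prod_add (fun p : Fin n × Fin n => W.W (x p.1) (x p.2))
    (fun p => 1 - W.W (x p.1) (x p.2)) (pairs n)
  have h1 : ∏ p ∈ pairs n, (W.W (x p.1) (x p.2) + (1 - W.W (x p.1) (x p.2))) = 1 := by
    apply Finset.prod_eq_one
    intro p _; ring
  rw [h1] at h
  rw [h]
  apply Finset.sum_congr rfl
  intro t ht
  have ht' := Finset.mem_powerset.1 ht
  unfold ind
  rw [← Finset.prod_sdiff ht', mul_comm]
  congr 1
  · apply Finset.prod_congr rfl
    intro p hp
    rw [if_pos ((gr_adj t ht' p (ht' hp)).2 hp)]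
  · apply Finset.prod_congr rfl
    intro p hp
    have hp' := Finset.mem_sdiff.1 hp
    rw [if_neg (fun hc => hp'.2 ((gr_adj t ht' p hp'.1).1 hc))]

/-- restriction of coordinates is measure preserving -/
theorem mp_restrict {h n : ℕ} (e : Fin h → Fin n) (he : Function.Injective e) :
    MeasurePreserving (fun (x : Fin n → unitInterval) (a : Fin h) => x (e a)) volume volume := by
  refine ⟨measurable_pi_lambda _ (fun a => measurable_pi_apply (e a)), ?_⟩
  symm
  apply Measure.pi_eq
  intro s hs
  rw [Measure.map_apply (measurable_pi_lambda _ (fun a => measurable_pi_apply (e a)))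
    (MeasurableSet.univ_pi hs)]
  have hpre : (fun (x : Fin n → unitInterval) (a : Fin h) => x (e a)) ⁻¹' (Set.univ.pi s)
      = Set.univ.pi (fun i => {y | ∀ a, e a = i → y ∈ s a}) := by
    ext x
    simp only [Set.mem_preimage, Set.mem_pi, Set.mem_univ, true_implies, Set.mem_ofPred_eq]
    constructor
    · intro hx i a ha
      rw [← ha]; exact hx a
    · intro hx a
      exact hx (e a) a rfl
  rw [hpre, volume_pi, Measure.pi_pi]
  symm
  apply Fintype.prod_of_injective e he
  · intro i hi
    have : {y : unitInterval | ∀ a, e a = i → y ∈ s a} = Set.univ := by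
      ext y
      simp only [Set.mem_ofPred_eq, Set.mem_univ, iff_true]
      intro a ha
      exact absurd ⟨a, ha⟩ hi
    rw [this]; simp
  · intro a
    congr 1
    ext y
    simp only [Set.mem_ofPred_eq]
    constructor
    · intro hy b hb
      rw [he hb]; exact hy
    · intro hy
      exact hy a rfl

/-- `K` contains `H` as an induced subgraph -/
def Contains {h n : ℕ} (K : SimpleGraph (Fin n)) (H : SimpleGraph (Fin h)) : Prop :=
  ∃ e : Fin h → Fin n, Function.Injective e ∧ ∀ a b, H.Adj a b ↔ K.Adj (e a) (e b)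

theorem prodf_nonneg {f : unitInterval → ℝ} (hf : ∀ t, 0 ≤ f t ∧ f t ≤ 1) {n : ℕ}
    (x : Fin n → unitInterval) : 0 ≤ ∏ i, f (x i) :=
  Finset.prod_nonneg (fun i _ => (hf (x i)).1)

theorem prodf_le_one {f : unitInterval → ℝ} (hf : ∀ t, 0 ≤ f t ∧ f t ≤ 1) {n : ℕ}
    (x : Fin n → unitInterval) : ∏ i, f (x i) ≤ 1 :=
  Finset.prod_le_one (fun i _ => (hf (x i)).1) (fun i _ => (hf (x i)).2)

theorem measurable_prodf {f : unitInterval → ℝ} (hfm : Measurable f) (n : ℕ) :
    Measurable (fun x : Fin n → unitInterval => ∏ i, f (x i)) := by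
  apply Finset.measurable_prod
  intro i _
  exact hfm.comp (measurable_pi_apply i)

theorem integrable_fi (W : Graphon) {f : unitInterval → ℝ} (hfm : Measurable f)
    (hf : ∀ t, 0 ≤ f t ∧ f t ≤ 1) {n : ℕ} (H : SimpleGraph (Fin n)) :
    Integrable (fun x : Fin n → unitInterval => (∏ i, f (x i)) * ind W H x) := by
  apply integrable_of_bdd
  · exact (measurable_prodf hfm n).mul (measurable_ind W H)
  · intro x; exact mul_nonneg (prodf_nonneg hf x) (ind_nonneg W H x)
  · intro x; exact mul_le_one₀ (prodf_le_one hf x) (ind_nonneg W H x) (ind_le_one W H x)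

theorem integrable_ind (W : Graphon) {n : ℕ} (H : SimpleGraph (Fin n)) :
    Integrable (fun x : Fin n → unitInterval => ind W H x) :=
  integrable_of_bdd _ (measurable_ind W H) (ind_nonneg W H) (ind_le_one W H)

theorem zero_of_contains (W : Graphon) {f : unitInterval → ℝ} (hfm : Measurable f)
    (hf : ∀ t, 0 ≤ f t ∧ f t ≤ 1) {h n : ℕ} (H : SimpleGraph (Fin h)) (K : SimpleGraph (Fin n))
    (hc : Contains K H)
    (hz : ∫ x : Fin h → unitInterval, (∏ i, f (x i)) * ind W H x = 0) :
    ∫ x : Fin n → unitInterval, (∏ i, f (x i)) * ind W K x = 0 := by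
  obtain ⟨e, he, hadj⟩ := hc
  have hz' := (integral_eq_zero_iff_of_nonneg
    (fun x => mul_nonneg (prodf_nonneg hf x) (ind_nonneg W H x)) (integrable_fi W hfm hf H)).1 hz
  have hz2 := (mp_restrict e he).quasiMeasurePreserving.ae_eq_comp hz'
  apply integral_eq_zero_of_ae
  filter_upwards [hz2] with x hx
  by_contra hne
  simp only [Pi.zero_apply] at hne
  have hx0 : (∏ a, f (x (e a))) * ind W H (fun a => x (e a)) = 0 := hx
  have h1 : ∏ i, f (x i) ≠ 0 := left_ne_zero_of_mul hne
  have h2 : ind W K x ≠ 0 := right_ne_zero_of_mul hne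
  rw [Finset.prod_ne_zero_iff] at h1
  unfold ind at h2
  rw [Finset.prod_ne_zero_iff] at h2
  have h3 : ∏ a, f (x (e a)) ≠ 0 := by
    rw [Finset.prod_ne_zero_iff]
    intro a _
    exact h1 (e a) (Finset.mem_univ _)
  have h4 : ind W H (fun a => x (e a)) ≠ 0 := by
    unfold ind
    rw [Finset.prod_ne_zero_iff]
    rintro ⟨a, b⟩ hab
    have hab' : a < b := by simpa [pairs] using hab
    have hne' : e a ≠ e b := fun hh => (ne_of_lt hab') (he hh)
    rcases lt_or_gt_of_ne hne' with hlt | hlt
    · have h5 := h2 (e a, e b) (by simpa [pairs] using hlt)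
      simp only at h5 ⊢
      by_cases hA : H.Adj a b
      · rw [if_pos hA]; rw [if_pos ((hadj a b).1 hA)] at h5; exact h5
      · rw [if_neg hA]; rw [if_neg (fun hh => hA ((hadj a b).2 hh))] at h5; exact h5
    · have h5 := h2 (e b, e a) (by simpa [pairs] using hlt)
      simp only at h5 ⊢
      by_cases hA : H.Adj a b
      · rw [if_pos hA]; rw [if_pos ((hadj a b).1 hA).symm, W.symm] at h5; exact h5
      · rw [if_neg hA]
        rw [if_neg (fun hh => hA ((hadj a b).2 (SimpleGraph.Adj.symm hh))), W.symm] at h5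
        exact h5
  exact (mul_ne_zero h3 h4) hx0

theorem integral_prodf (f : unitInterval → ℝ) (n : ℕ) :
    ∫ x : Fin n → unitInterval, ∏ i, f (x i) = (∫ t, f t) ^ n := by
  have := integral_fintype_prod_volume_eq_prod (ι := Fin n) (fun _ => f)
  simpa using this

open Classical in
/-- if `H` has density `0` in a sub-object with weight `c`, then a random sample of size `n` from
the graphon is `H`-free with probability at least `c ^ n` -/
theorem pow_le_free (W : Graphon) {f : unitInterval → ℝ} (hfm : Measurable f)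
    (hf : ∀ t, 0 ≤ f t ∧ f t ≤ 1) {h : ℕ} (H : SimpleGraph (Fin h))
    (hz : ∫ x : Fin h → unitInterval, (∏ i, f (x i)) * ind W H x = 0) (n : ℕ) :
    (∫ t, f t) ^ n ≤ ∑ t ∈ (pairs n).powerset.filter (fun t => ¬ Contains (gr t) H),
      dens W n (gr t) := by
  have h1 : (∫ t, f t) ^ n = ∑ t ∈ (pairs n).powerset,
      ∫ x : Fin n → unitInterval, (∏ i, f (x i)) * ind W (gr t) x := by
    rw [← integral_finsetSum _ (fun t _ => integrable_fi W hfm hf (gr t)), ← integral_prodf]
    congr 1
    funext x
    rw [← Finset.mul_sum, sum_ind, mul_one]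
  rw [h1, ← Finset.sum_filter_add_sum_filter_not (pairs n).powerset
    (fun t => ¬ Contains (gr t) H)]
  have h2 : ∑ t ∈ (pairs n).powerset.filter (fun t => ¬ ¬ Contains (gr t) H),
      ∫ x : Fin n → unitInterval, (∏ i, f (x i)) * ind W (gr t) x = 0 := by
    apply Finset.sum_eq_zero
    intro t ht
    have := (Finset.mem_filter.1 ht).2
    exact zero_of_contains W hfm hf H (gr t) (not_not.1 this) hz
  rw [h2, add_zero]
  apply Finset.sum_le_sum
  intro t _
  apply integral_mono (integrable_fi W hfm hf (gr t)) (integrable_ind W (gr t))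
  intro x
  simp only
  calc (∏ i, f (x i)) * ind W (gr t) x ≤ 1 * ind W (gr t) x :=
        mul_le_mul_of_nonneg_right (prodf_le_one hf x) (ind_nonneg W _ x)
    _ = ind W (gr t) x := one_mul _

/-- densities of sub-objects -/
theorem pow_mul_le (W : Graphon) {f : unitInterval → ℝ} (hfm : Measurable f)
    (hf : ∀ t, 0 ≤ f t ∧ f t ≤ 1) (hpos : 0 < ∫ t, f t) {n : ℕ} (K : SimpleGraph (Fin n)) :
    (∫ t, f t) ^ n * densOn W f n K ≤ dens W n K := by
  unfold densOn
  rw [mul_div_cancel₀ _ (pow_pos hpos n).ne']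
  apply integral_mono (integrable_fi W hfm hf K) (integrable_ind W K)
  intro x
  simp only
  calc (∏ i, f (x i)) * ind W K x ≤ 1 * ind W K x :=
        mul_le_mul_of_nonneg_right (prodf_le_one hf x) (ind_nonneg W _ x)
    _ = ind W K x := one_mul _

end Pool.Agent.R64.CogB
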