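import Mathlib
import Pool.Agent.R64.CogB

/-! Recursive blow-up graphons. -/

open MeasureTheory

namespace Pool.Agent.R64.CogC

open Pool.Agent.R64.CogA Pool.Agent.R64.CogB

/-- at the first index where the bit sequences differ, `G` holds -/
def sadj (G : ℕ → Prop) (u v : ℕ → Bool) : Prop :=
  ∃ i, G i ∧ (∀ j < i, u j = v j) ∧ u i ≠ v i

theorem sadj_symm (G : ℕ → Prop) (u v : ℕ → Bool) (h : sadj G u v) : sadj G v u := by
  obtain ⟨i, hG, hj, hne⟩ := h
  exact ⟨i, hG, fun j hji => (hj j hji).symm, hne.symm⟩

/-- graphs coming from bit sequences are cographs -/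
theorem coset_of_seq {V : Type} [DecidableEq V] (G : ℕ → Prop) (H : SimpleGraph V)
    (s : V → ℕ → Bool) (hs : ∀ a b, a ≠ b → (H.Adj a b ↔ sadj G (s a) (s b))) :
    ∀ (k : ℕ) (S : Finset V), S.card = k → CoSet H S := by
  intro k
  induction k using Nat.strong_induction_on with
  | _ k ih =>
    intro S hS
    by_cases h0 : S = ∅
    · rw [h0]; exact CoSet.empty
    obtain ⟨v, hv⟩ := Finset.nonempty_iff_ne_empty.2 h0
    by_cases hall : ∀ l, ∀ a ∈ S, ∀ b ∈ S, s a l = s b l
    · -- no edges
      by_cases h1 : S = {v}
      · rw [h1]; exact CoSet.single v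
      have hSv : S = {v} ∪ (S.erase v) := by
        ext w; by_cases hw : w = v
        · simp [hw, hv]
        · simp [hw]
      rw [hSv]
      apply CoSet.union
      · exact CoSet.single v
      · have hc := Finset.card_erase_of_mem hv
        have hpos : 0 < S.card := Finset.card_pos.2 ⟨v, hv⟩
        exact ih (S.erase v).card (by omega) _ rfl
      · simp
      · intro a ha b hb hab
        have ha' : a = v := by simpa using ha
        have hb' := Finset.mem_erase.1 hb
        have hne : a ≠ b := by rw [ha']; exact hb'.1.symm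
        obtain ⟨i, _, _, hi⟩ := (hs a b hne).1 hab
        exact hi (hall i a (by rw [ha']; exact hv) b hb'.2)
    · classical
      push Not at hall
      obtain ⟨l, hl⟩ : ∃ l, l = Nat.find hall := ⟨_, rfl⟩
      have hl1 : ∃ a ∈ S, ∃ b ∈ S, s a l ≠ s b l := by rw [hl]; exact Nat.find_spec hall
      have hl2 : ∀ j < l, ∀ a ∈ S, ∀ b ∈ S, s a j = s b j := by
        intro j hj a ha b hb
        by_contra hne
        exact Nat.find_min hall (by rw [← hl]; exact hj) ⟨a, ha, b, hb, hne⟩
      have hSS : S = S.filter (fun a => s a l = false) ∪ S.filter (fun a => s a l = true) := by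
        ext w
        by_cases hw : s w l = false
        · simp [hw]
        · simp [hw]
      obtain ⟨a, ha, b, hb, hab⟩ := hl1
      have hne0 : ∃ a ∈ S, s a l = false := by
        by_cases h : s a l = false
        · exact ⟨a, ha, h⟩
        · refine ⟨b, hb, ?_⟩
          cases hh : s b l
          · rfl
          · rw [hh] at hab; simp at h; exact absurd h hab
      have hne1 : ∃ a ∈ S, s a l = true := by
        by_cases h : s a l = true
        · exact ⟨a, ha, h⟩
        · refine ⟨b, hb, ?_⟩
          cases hh : s b l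
          · rw [hh] at hab; simp at h; exact absurd h hab
          · rfl
      have hcard := Finset.card_filter_add_card_filter_not (s := S) (fun w => s w l = false)
      have hft : S.filter (fun w => ¬ (s w l = false)) = S.filter (fun w => s w l = true) := by
        ext w; simp
      rw [hft] at hcard
      have hp0 : 0 < (S.filter (fun a => s a l = false)).card := by
        obtain ⟨a, ha, h⟩ := hne0
        exact Finset.card_pos.2 ⟨a, Finset.mem_filter.2 ⟨ha, h⟩⟩
      have hp1 : 0 < (S.filter (fun a => s a l = true)).card := by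
        obtain ⟨a, ha, h⟩ := hne1
        exact Finset.card_pos.2 ⟨a, Finset.mem_filter.2 ⟨ha, h⟩⟩
      have hd : Disjoint (S.filter (fun a => s a l = false)) (S.filter (fun a => s a l = true)) := by
        rw [Finset.disjoint_left]
        intro w hw hw'
        have h1 := (Finset.mem_filter.1 hw).2
        have h2 := (Finset.mem_filter.1 hw').2
        rw [h1] at h2
        exact absurd h2 (by simp)
      have hcross : ∀ a ∈ S.filter (fun a => s a l = false),
          ∀ b ∈ S.filter (fun a => s a l = true), (H.Adj a b ↔ G l) := by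
        intro a ha b hb
        have ha' := Finset.mem_filter.1 ha
        have hb' := Finset.mem_filter.1 hb
        have hne : a ≠ b := by
          intro h; rw [h] at ha'; rw [ha'.2] at hb'; exact absurd hb'.2 (by simp)
        have hdiff : s a l ≠ s b l := by rw [ha'.2, hb'.2]; simp
        rw [hs a b hne]
        constructor
        · rintro ⟨i, hG, hj, hi⟩
          have hil : i = l := by
            rcases lt_trichotomy i l with h | h | h
            · exact absurd (hl2 i h a ha'.1 b hb'.1) hi
            · exact h
            · exact absurd (hj l h) hdiff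
          rw [← hil]; exact hG
        · intro hG
          exact ⟨l, hG, fun j hj => hl2 j hj a ha'.1 b hb'.1, hdiff⟩
      rw [hSS]
      by_cases hG : G l
      · apply CoSet.join _ _ (ih _ (by omega) _ rfl) (ih _ (by omega) _ rfl) hd
        intro a ha b hb
        exact (hcross a ha b hb).2 hG
      · apply CoSet.union _ _ (ih _ (by omega) _ rfl) (ih _ (by omega) _ rfl) hd
        intro a ha b hb hab
        exact hG ((hcross a ha b hb).1 hab)

/-- the `i`-th binary digit -/
noncomputable def bit (x : unitInterval) (i : ℕ) : Bool :=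
  decide (⌊(2:ℝ) ^ (i+1) * (x : ℝ)⌋₊ % 2 = 1)

theorem measurable_floorpow (i : ℕ) :
    Measurable (fun x : unitInterval => ⌊(2:ℝ) ^ i * (x : ℝ)⌋₊) :=
  Nat.measurable_floor.comp (measurable_subtype_coe.const_mul _)

theorem measurable_bit (i : ℕ) : Measurable (fun x : unitInterval => bit x i) := by
  unfold bit
  exact (measurable_from_top (f := fun k : ℕ => decide (k % 2 = 1))).comp (measurable_floorpow (i+1))

/-- the first `L` digits -/
noncomputable def cell (L : ℕ) (x : unitInterval) : Fin L → Bool := fun i => bit x i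

theorem measurable_cell (L : ℕ) : Measurable (cell L) :=
  measurable_pi_lambda _ (fun i => measurable_bit i)

/-- the number with given digits -/
def num : (L : ℕ) → (Fin L → Bool) → ℕ
  | 0, _ => 0
  | (L+1), a => 2 * num L (fun i => a i.castSucc) + (if a (Fin.last L) then 1 else 0)

theorem num_succ (L : ℕ) (a : Fin (L+1) → Bool) :
    num (L+1) a = 2 * num L (fun i => a i.castSucc) + (if a (Fin.last L) then 1 else 0) := rfl

theorem num_lt : ∀ (L : ℕ) (a : Fin L → Bool), num L a < 2 ^ L := by
  intro L
  induction L with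
  | zero => intro a; simp [num]
  | succ L ih =>
    intro a
    have := ih (fun i => a i.castSucc)
    unfold num
    split_ifs
    · rw [pow_succ]; omega
    · rw [pow_succ]; omega

theorem floor_step (x : ℝ) (L : ℕ) :
    ⌊(2:ℝ) ^ (L+1) * x⌋₊ / 2 = ⌊(2:ℝ) ^ L * x⌋₊ := by
  have h1 : (2:ℝ)^L * x = ((2:ℝ)^(L+1) * x) / (2:ℕ) := by
    rw [pow_succ]; push_cast; ring
  rw [h1, Nat.floor_div_natCast]

theorem cell_iff (x : unitInterval) (hx : (x:ℝ) < 1) :
    ∀ (L : ℕ) (a : Fin L → Bool), cell L x = a ↔ ⌊(2:ℝ) ^ L * (x : ℝ)⌋₊ = num L a := by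
  intro L
  induction L with
  | zero =>
    intro a
    have h1 : ⌊(2:ℝ) ^ 0 * (x : ℝ)⌋₊ = 0 := by
      rw [pow_zero, one_mul]
      exact Nat.floor_eq_zero.2 hx
    rw [h1]
    simp [num]
    funext i
    exact i.elim0
  | succ L ih =>
    intro a
    have hstep := floor_step x L
    have hsplit : cell (L+1) x = a ↔ cell L x = (fun i => a i.castSucc) ∧ bit x L = a (Fin.last L) := by
      constructor
      · intro h
        rw [← h]
        exact ⟨rfl, rfl⟩
      · rintro ⟨h1, h2⟩
        funext i
        induction i using Fin.lastCases with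
        | last => exact h2
        | cast i => exact congrFun h1 i
    rw [hsplit, ih]
    obtain ⟨F, hF⟩ : ∃ F, F = ⌊(2:ℝ) ^ (L+1) * (x : ℝ)⌋₊ := ⟨_, rfl⟩
    have hb : bit x L = decide (F % 2 = 1) := by rw [hF]; rfl
    rw [← hF] at hstep ⊢
    rw [← hstep, hb, num_succ]
    obtain ⟨M, hM⟩ : ∃ M, M = num L (fun i => a i.castSucc) := ⟨_, rfl⟩
    rw [← hM]
    cases a (Fin.last L)
    · simp; omega
    · simp; omega

theorem vol_floor (L k : ℕ) (hk : k < 2 ^ L) :
    volume {x : unitInterval | ⌊(2:ℝ) ^ L * (x : ℝ)⌋₊ = k} = ENNReal.ofReal ((1/2)^L) := by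
  rw [unitInterval.volume_apply]
  have h2 : (0:ℝ) < 2 ^ L := by positivity
  have : (Subtype.val '' {x : unitInterval | ⌊(2:ℝ) ^ L * (x : ℝ)⌋₊ = k})
      = Set.Ico ((k:ℝ) / 2 ^ L) (((k:ℝ) + 1) / 2 ^ L) := by
    ext y
    simp only [Set.mem_image, Set.mem_ofPred_eq, Set.mem_Ico]
    constructor
    · rintro ⟨x, hx, rfl⟩
      have hx0 : 0 ≤ (2:ℝ) ^ L * (x : ℝ) := mul_nonneg h2.le x.2.1
      rw [Nat.floor_eq_iff hx0] at hx
      refine ⟨?_, ?_⟩
      · rw [div_le_iff₀ h2]; linarith [hx.1]
      · rw [lt_div_iff₀ h2]; linarith [hx.2]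
    · rintro ⟨h1, h3⟩
      have hk' : (k:ℝ) + 1 ≤ 2 ^ L := by exact_mod_cast hk
      have hy0 : 0 ≤ y := le_trans (by positivity) h1
      have hy1 : y ≤ 1 := by
        have : ((k:ℝ) + 1) / 2 ^ L ≤ 1 := by rw [div_le_one h2]; exact hk'
        linarith
      refine ⟨⟨y, hy0, hy1⟩, ?_, rfl⟩
      rw [Nat.floor_eq_iff (by positivity)]
      rw [div_le_iff₀ h2] at h1
      rw [lt_div_iff₀ h2] at h3
      exact ⟨by simp only; linarith, by simp only; linarith⟩
  rw [this, Real.volume_Ico]
  congr 1
  field_simp
  simp

theorem vol_cell (L : ℕ) (a : Fin L → Bool) :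
    volume {x : unitInterval | cell L x = a} = ENNReal.ofReal ((1/2)^L) := by
  rw [← vol_floor L (num L a) (num_lt L a)]
  apply measure_congr
  have h1 : ∀ᵐ x : unitInterval, x ≠ 1 := by
    rw [ae_iff]
    simp
  filter_upwards [h1] with x hx
  have hx' : (x:ℝ) < 1 := by
    refine lt_of_le_of_ne x.2.2 ?_
    intro h
    exact hx (Subtype.ext h)
  apply propext
  exact cell_iff x hx' L a

theorem vol_cells (L : ℕ) (A : Finset (Fin L → Bool)) :
    volume {x : unitInterval | cell L x ∈ A} = ENNReal.ofReal ((A.card : ℝ) * (1/2)^L) := by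
  have : {x : unitInterval | cell L x ∈ A} = ⋃ a ∈ A, {x | cell L x = a} := by
    ext x
    simp
  rw [this, measure_biUnion_finset]
  · simp only [vol_cell]
    rw [Finset.sum_const, nsmul_eq_mul, ENNReal.ofReal_mul (by positivity)]
    simp
  · intro a _ b _ hab
    simp only [Function.onFun]
    rw [Set.disjoint_left]
    intro x hx hx'
    exact hab (hx.symm.trans hx')
  · intro a _
    exact measurable_cell L (measurableSet_singleton a)

/-- probability that all `n` points have cells in `A` -/
theorem vol_pow (n L : ℕ) (A : Finset (Fin L → Bool)) :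
    volume {x : Fin n → unitInterval | ∀ i, cell L (x i) ∈ A}
      = ENNReal.ofReal (((A.card : ℝ) * (1/2)^L) ^ n) := by
  have : {x : Fin n → unitInterval | ∀ i, cell L (x i) ∈ A}
      = Set.univ.pi (fun _ => {y | cell L y ∈ A}) := by
    ext x; simp
  rw [this, volume_pi, Measure.pi_pi]
  simp only [vol_cells]
  rw [Finset.prod_const, Finset.card_univ, Fintype.card_fin, ENNReal.ofReal_pow (by positivity)]

theorem measurableSet_sadj (G : ℕ → Prop) :
    MeasurableSet {p : unitInterval × unitInterval | sadj G (bit p.1) (bit p.2)} := by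
  have : {p : unitInterval × unitInterval | sadj G (bit p.1) (bit p.2)}
      = ⋃ i, ({p : unitInterval × unitInterval | G i} ∩
        (⋂ j ∈ Finset.range i, {p | bit p.1 j = bit p.2 j})) ∩ {p | bit p.1 i ≠ bit p.2 i} := by
    ext p
    simp only [sadj, Set.mem_ofPred_eq, Set.mem_iUnion, Set.mem_inter_iff, Set.mem_iInter,
      Finset.mem_range]
    constructor
    · rintro ⟨i, h1, h2, h3⟩
      exact ⟨i, ⟨h1, h2⟩, h3⟩
    · rintro ⟨i, ⟨h1, h2⟩, h3⟩
      exact ⟨i, h1, h2, h3⟩
  rw [this]
  apply MeasurableSet.iUnion
  intro i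
  have hm : ∀ j, MeasurableSet {p : unitInterval × unitInterval | bit p.1 j = bit p.2 j} := by
    intro j
    exact measurableSet_eq_fun ((measurable_bit j).comp measurable_fst)
      ((measurable_bit j).comp measurable_snd)
  apply MeasurableSet.inter
  · apply MeasurableSet.inter
    · exact MeasurableSet.const _
    · apply Finset.measurableSet_biInter
      intro j _
      exact hm j
  · exact (hm i).compl

open Classical in
/-- the recursive blow-up graphon of the sequence `G` -/
noncomputable def blow (G : ℕ → Prop) : Graphon where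
  W x y := if sadj G (bit x) (bit y) then 1 else 0
  meas := Measurable.ite (measurableSet_sadj G) measurable_const measurable_const
  symm x y := by
    by_cases h : sadj G (bit x) (bit y)
    · rw [if_pos h, if_pos (sadj_symm G _ _ h)]
    · rw [if_neg h, if_neg (fun h' => h (sadj_symm G _ _ h'))]
  nonneg x y := by split_ifs <;> norm_num
  le_one x y := by split_ifs <;> norm_num

theorem ind_blow_ne (G : ℕ → Prop) {n : ℕ} (K : SimpleGraph (Fin n)) (x : Fin n → unitInterval) :
    ind (blow G) K x ≠ 0 ↔ ∀ i j, i ≠ j → (K.Adj i j ↔ sadj G (bit (x i)) (bit (x j))) := by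
  classical
  unfold ind
  rw [Finset.prod_ne_zero_iff]
  constructor
  · intro h
    have key : ∀ i j, i < j → (K.Adj i j ↔ sadj G (bit (x i)) (bit (x j))) := by
      intro i j hij
      have := h (i, j) (by simpa [pairs] using hij)
      simp only [blow] at this
      by_cases hK : K.Adj i j
      · rw [if_pos hK] at this
        by_cases hs : sadj G (bit (x i)) (bit (x j))
        · simp [hK, hs]
        · rw [if_neg hs] at this; exact absurd rfl this
      · rw [if_neg hK] at this
        by_cases hs : sadj G (bit (x i)) (bit (x j))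
        · rw [if_pos hs] at this; simp at this
        · simp [hK, hs]
    intro i j hij
    rcases lt_or_gt_of_ne hij with h' | h'
    · exact key i j h'
    · rw [K.adj_comm, key j i h']
      exact ⟨sadj_symm G _ _, sadj_symm G _ _⟩
  · intro h
    rintro ⟨i, j⟩ hij
    have hij' : i < j := by simpa [pairs] using hij
    have := h i j (ne_of_lt hij')
    simp only [blow]
    by_cases hK : K.Adj i j
    · rw [if_pos hK, if_pos (this.1 hK)]; norm_num
    · rw [if_neg hK, if_neg (fun hh => hK (this.2 hh))]; norm_num

theorem ind_blow_eq_one (G : ℕ → Prop) {n : ℕ} (K : SimpleGraph (Fin n))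
    (x : Fin n → unitInterval)
    (h : ∀ i j, i ≠ j → (K.Adj i j ↔ sadj G (bit (x i)) (bit (x j)))) :
    ind (blow G) K x = 1 := by
  classical
  unfold ind
  apply Finset.prod_eq_one
  rintro ⟨i, j⟩ hij
  have hij' : i < j := by simpa [pairs] using hij
  have := h i j (ne_of_lt hij')
  simp only [blow]
  by_cases hK : K.Adj i j
  · rw [if_pos hK, if_pos (this.1 hK)]
  · rw [if_neg hK, if_neg (fun hh => hK (this.2 hh))]; norm_num

/-- `sadj` and `tadj` agree when the truncations differ -/
theorem sadj_iff_tadj (G : ℕ → Prop) (L : ℕ) (x y : unitInterval) (hne : cell L x ≠ cell L y) :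
    sadj G (bit x) (bit y) ↔ tadj G (cell L x) (cell L y) := by
  obtain ⟨k, hk⟩ := Function.ne_iff.1 hne
  constructor
  · rintro ⟨i, hG, hj, hi⟩
    have hiL : i < L := by
      by_contra hcon
      push Not at hcon
      exact hk (hj k (lt_of_lt_of_le k.2 hcon))
    exact ⟨⟨i, hiL⟩, hG, fun j hji => hj j hji, hi⟩
  · rintro ⟨i, hG, hj, hi⟩
    exact ⟨i, hG, fun j hji => hj ⟨j, lt_trans hji i.2⟩ hji, hi⟩

open Classical in
/-- upper bound for the probability of being `H`-free -/
theorem free_le (G : ℕ → Prop) {h : ℕ} (H : SimpleGraph (Fin h)) (L : ℕ) (δ : ℝ) (hδ0 : 0 ≤ δ)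
    (hδ : ∀ A : Finset (Fin L → Bool), ¬ EmbOn G H Finset.univ A → (A.card : ℝ) ≤ δ * 2 ^ L)
    (n : ℕ) :
    ∑ t ∈ (pairs n).powerset.filter (fun t => ¬ Contains (gr t) H), dens (blow G) n (gr t)
      ≤ 2 ^ (2 ^ L) * δ ^ n := by
  obtain ⟨Bad, hBad⟩ : ∃ Bad : Finset (Finset (Fin L → Bool)),
    Bad = Finset.univ.filter (fun A => ¬ EmbOn G H Finset.univ A) := ⟨_, rfl⟩
  have hS : ∀ A : Finset (Fin L → Bool),
      MeasurableSet {x : Fin n → unitInterval | ∀ i, cell L (x i) ∈ A} := by
    intro A
    have : {x : Fin n → unitInterval | ∀ i, cell L (x i) ∈ A}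
        = ⋂ i, {x | cell L (x i) ∈ A} := by ext x; simp
    rw [this]
    apply MeasurableSet.iInter
    intro i
    exact ((measurable_cell L).comp (measurable_pi_apply i)) (A.measurableSet)
  have hpt : ∀ x : Fin n → unitInterval,
      ∑ t ∈ (pairs n).powerset.filter (fun t => ¬ Contains (gr t) H), ind (blow G) (gr t) x
      ≤ ∑ A ∈ Bad, Set.indicator {x : Fin n → unitInterval | ∀ i, cell L (x i) ∈ A}
          (fun _ => (1:ℝ)) x := by
    intro x
    have hnn : ∀ A ∈ Bad, 0 ≤ Set.indicator {x : Fin n → unitInterval | ∀ i, cell L (x i) ∈ A}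
          (fun _ => (1:ℝ)) x := by
      intro A _
      exact Set.indicator_nonneg (fun _ _ => zero_le_one) x
    by_cases hex : ∃ t ∈ (pairs n).powerset.filter (fun t => ¬ Contains (gr t) H),
        ind (blow G) (gr t) x ≠ 0
    · obtain ⟨t, ht, hne⟩ := hex
      have htf := (Finset.mem_filter.1 ht).2
      have hadj := (ind_blow_ne G (gr t) x).1 hne
      have hA : Finset.univ.image (fun i => cell L (x i)) ∈ Bad := by
        rw [hBad, Finset.mem_filter]
        refine ⟨Finset.mem_univ _, ?_⟩
        rintro ⟨g, hinj, hmem, hg⟩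
        apply htf
        have hch : ∀ v : Fin h, ∃ i : Fin n, cell L (x i) = g v := by
          intro v
          have := hmem v (Finset.mem_univ _)
          rw [Finset.mem_image] at this
          obtain ⟨i, _, hi⟩ := this
          exact ⟨i, hi⟩
        choose e he using hch
        have hei : Function.Injective e := by
          intro a b hab
          apply hinj (by simp) (by simp)
          rw [← he a, ← he b, hab]
        refine ⟨e, hei, ?_⟩
        intro a b
        by_cases hab : a = b
        · subst hab; simp
        · have hneg : cell L (x (e a)) ≠ cell L (x (e b)) := by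
            rw [he, he]
            intro hh
            exact hab (hinj (by simp) (by simp) hh)
          rw [hg a (Finset.mem_univ _) b (Finset.mem_univ _) hab,
            hadj (e a) (e b) (fun hh => hab (hei hh)), sadj_iff_tadj G L _ _ hneg, he, he]
      calc _ ≤ ∑ t ∈ (pairs n).powerset, ind (blow G) (gr t) x :=
            Finset.sum_le_sum_of_subset_of_nonneg (Finset.filter_subset _ _)
              (fun t _ _ => ind_nonneg _ _ _)
        _ = 1 := sum_ind _ _ _
        _ = Set.indicator {y : Fin n → unitInterval | ∀ i, cell L (y i) ∈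
              Finset.univ.image (fun i => cell L (x i))} (fun _ => (1:ℝ)) x := by
            rw [Set.indicator_of_mem]
            intro i
            exact Finset.mem_image_of_mem _ (Finset.mem_univ i)
        _ ≤ _ := Finset.single_le_sum hnn hA
    · push Not at hex
      rw [Finset.sum_eq_zero hex]
      exact Finset.sum_nonneg hnn
  unfold dens
  rw [← integral_finsetSum _ (fun t _ => integrable_ind (blow G) (gr t))]
  calc _ ≤ ∫ x : Fin n → unitInterval, ∑ A ∈ Bad,
          Set.indicator {x : Fin n → unitInterval | ∀ i, cell L (x i) ∈ A} (fun _ => (1:ℝ)) x := by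
        apply integral_mono
        · exact integrable_finsetSum _ (fun t _ => integrable_ind (blow G) (gr t))
        · apply integrable_finsetSum
          intro A _
          exact (integrable_const (1:ℝ)).indicator (hS A)
        · exact hpt
    _ = ∑ A ∈ Bad, ((A.card : ℝ) * (1/2)^L) ^ n := by
        rw [integral_finsetSum]
        · apply Finset.sum_congr rfl
          intro A _
          rw [integral_indicator (hS A), setIntegral_const]
          simp only [smul_eq_mul, mul_one]
          rw [measureReal_def, vol_pow, ENNReal.toReal_ofReal (by positivity)]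
        · intro A _
          exact (integrable_const (1:ℝ)).indicator (hS A)
    _ ≤ ∑ A ∈ Bad, δ ^ n := by
        apply Finset.sum_le_sum
        intro A hA
        rw [hBad, Finset.mem_filter] at hA
        have := hδ A hA.2
        apply pow_le_pow_left₀ (by positivity)
        rw [one_div, inv_pow, ← div_eq_mul_inv, div_le_iff₀ (by positivity)]
        exact this
    _ ≤ 2 ^ (2 ^ L) * δ ^ n := by
        rw [Finset.sum_const, nsmul_eq_mul]
        apply mul_le_mul_of_nonneg_right _ (pow_nonneg hδ0 n)
        have h3 : Bad.card ≤ 2 ^ (2 ^ L) := by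
          calc Bad.card ≤ Fintype.card (Finset (Fin L → Bool)) := Finset.card_le_univ _
            _ = 2 ^ (2 ^ L) := by simp
        exact_mod_cast h3

end Pool.Agent.R64.CogC
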