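import Mathlib

/-!
# The function `φ_d(x) = x + (x-d)⁺ + (x-2d)⁺ + ⋯`
-/

set_option autoImplicit false

namespace Pool.Agent.R64.Phi

open Finset

/-- `φ_d(x) = ∑_{i ≥ 0} (x - i d)⁺`. -/
def phi (d x : ℕ) : ℕ := ∑ i ∈ range (x + 1), (x - i * d)

theorem sum_eq {d x m m' : ℕ} (hm : m ≤ m') (h : x ≤ m * d) :
    ∑ i ∈ range m', (x - i * d) = ∑ i ∈ range m, (x - i * d) := by
  symm
  refine sum_subset (range_subset_range.mpr hm) ?_
  intro i _ hi
  rw [mem_range, not_lt] at hi
  have : m * d ≤ i * d := Nat.mul_le_mul_right _ hi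
  omega

theorem phi_eq {d x m : ℕ} (hd : 1 ≤ d) (h : x ≤ m * d) :
    ∑ i ∈ range m, (x - i * d) = phi d x := by
  have h1 : x ≤ (x + 1) * d := by nlinarith
  unfold phi
  rcases le_total m (x + 1) with h2 | h2
  · exact (sum_eq h2 h).symm
  · exact sum_eq h2 h1

@[simp] theorem phi_zero (d : ℕ) : phi d 0 = 0 := by
  simp [phi]

theorem phi_succ {d : ℕ} (hd : 1 ≤ d) (x : ℕ) : phi d (x + 1) = phi d x + x / d + 1 := by
  have h1 : x + 1 ≤ (x + 2) * d := by nlinarith
  have h2 : x ≤ (x + 2) * d := by nlinarith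
  rw [← phi_eq hd h1, ← phi_eq hd h2]
  have h3 : ∀ i ∈ range (x + 2), x + 1 - i * d = (x - i * d) + if i * d ≤ x then 1 else 0 := by
    intro i _
    split_ifs <;> omega
  rw [sum_congr rfl h3, sum_add_distrib, ← card_filter]
  have h4 : (range (x + 2)).filter (fun i => i * d ≤ x) = range (x / d + 1) := by
    ext i
    rw [mem_filter, mem_range, mem_range]
    constructor
    · rintro ⟨_, h⟩
      exact Nat.lt_succ_of_le ((Nat.le_div_iff_mul_le (by omega)).mpr h)
    · intro h
      have h' := (Nat.le_div_iff_mul_le (by omega)).mp (Nat.le_of_lt_succ h)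
      have : i ≤ i * d := Nat.le_mul_of_pos_right _ (by omega)
      exact ⟨by omega, h'⟩
  rw [h4, card_range, add_assoc]

theorem phi_mono {d : ℕ} (hd : 1 ≤ d) {x y : ℕ} (h : x ≤ y) : phi d x ≤ phi d y := by
  induction y, h using Nat.le_induction with
  | base => exact le_rfl
  | succ y _ ih =>
    rw [phi_succ hd, add_assoc]
    exact ih.trans (Nat.le_add_right _ _)

theorem div_two_mul (d m : ℕ) : m / (2 * d) = (m / 2) / d := (Nat.div_div_eq_div_mul m 2 d).symm

/-- Convexity. -/
theorem phi_add_le {d : ℕ} (hd : 1 ≤ d) (m : ℕ) : ∀ A B, A + B = m →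
    phi (2 * d) m ≤ phi d A + phi d B := by
  induction m with
  | zero =>
    intro A B _
    simp
  | succ m ih =>
    have key : ∀ A B, A + B = m + 1 → B ≤ A → phi (2 * d) (m + 1) ≤ phi d A + phi d B := by
      intro A B h hBA
      obtain ⟨a, rfl⟩ : ∃ a, A = a + 1 := ⟨A - 1, by omega⟩
      have h1 := ih a B (by omega)
      rw [phi_succ (by omega : 1 ≤ 2 * d), phi_succ hd, div_two_mul]
      have h2 : m / 2 / d ≤ a / d := Nat.div_le_div_right (by omega)
      omega
    intro A B h
    rcases le_total B A with h1 | h1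
    · exact key A B h h1
    · have := key B A (by omega) h1
      omega

theorem phi_add_le' {d : ℕ} (hd : 1 ≤ d) (A B : ℕ) :
    phi (2 * d) (A + B) ≤ phi d A + phi d B := phi_add_le hd _ A B rfl

/-- The balanced split is optimal. -/
theorem phi_balanced {d : ℕ} (hd : 1 ≤ d) (m : ℕ) :
    phi d (m / 2) + phi d ((m + 1) / 2) = phi (2 * d) m := by
  induction m with
  | zero => simp
  | succ m ih =>
    rw [phi_succ (by omega : 1 ≤ 2 * d), ← ih, div_two_mul]
    have h1 : (m + 1 + 1) / 2 = m / 2 + 1 := by omega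
    rw [h1, phi_succ hd]
    omega

/-- The closed form. -/
theorem phi_closed {d K : ℕ} (hd : 1 ≤ d) (hK : d ≤ K) :
    phi (2 * d) (K - d) = (K + d) / (2 * d) * (K - (K + d) / (2 * d) * d) := by
  obtain ⟨q, hq⟩ : ∃ q, q = (K + d) / (2 * d) := ⟨_, rfl⟩
  rw [← hq]
  have h1 : q * (2 * d) ≤ K + d := by rw [hq]; exact Nat.div_mul_le_self _ _
  have h2 : K + d < (q + 1) * (2 * d) := by
    have e1 := Nat.mod_lt (K + d) (show 0 < 2 * d by omega)
    have e2 := Nat.div_add_mod (K + d) (2 * d)
    rw [← hq] at e2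
    have e3 : (q + 1) * (2 * d) = 2 * d * q + 2 * d := by ring
    omega
  have h3 : K - d ≤ q * (2 * d) := by
    have : (q + 1) * (2 * d) = q * (2 * d) + 2 * d := by ring
    omega
  rw [← phi_eq (by omega) h3]
  have h4 : ∀ m ≤ q, ∑ i ∈ range m, (K - d - i * (2 * d)) = m * (K - m * d) := by
    intro m
    induction m with
    | zero => intro _; simp
    | succ m ih =>
      intro hm
      rw [sum_range_succ, ih (by omega)]
      have h5 : (m + 1) * (2 * d) ≤ K + d :=
        (Nat.mul_le_mul_right _ hm).trans h1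
      have h6 : (m + 1) * (2 * d) = 2 * (m * d) + 2 * d := by ring
      have h7 : m * (2 * d) = 2 * (m * d) := by ring
      have h8 : (m + 1) * d = m * d + d := by ring
      obtain ⟨t, ht⟩ : ∃ t, K = 2 * (m * d) + d + t := ⟨K - (2 * (m * d) + d), by omega⟩
      rw [h7, h8]
      have e1 : K - d - 2 * (m * d) = t := by omega
      have e2 : K - m * d = m * d + d + t := by omega
      have e3 : K - (m * d + d) = m * d + t := by omega
      rw [e1, e2, e3]
      ring
  exact h4 q le_rfl

/-- `⌊(y+2)²/4⌋ = ⌊y²/4⌋ + y + 1`. -/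
theorem g_step (y : ℤ) : (y * y) / 4 = ((y - 2) * (y - 2)) / 4 + (y - 1) := by
  have : y * y = (y - 2) * (y - 2) + (y - 1) * 4 := by ring
  rw [this, Int.add_mul_ediv_right _ _ (by norm_num)]

theorem g_nonneg (y : ℤ) : 0 ≤ (y * y) / 4 := Int.ediv_nonneg (mul_self_nonneg y) (by norm_num)

/-- The key inequality. -/
theorem key {d : ℕ} (hd : 1 ≤ d) (C : ℕ) : ∀ A B : ℕ, C + 1 ≤ B → ∀ y : ℤ,
    y = 2 * (C + 1) + A - B + d + 1 →
    (phi d (C + 1) : ℤ) + 1 + phi (2 * d) (A + B) ≤ (y * y) / 4 + phi d A + phi d B := by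
  induction C with
  | zero =>
    intro A B hB y hy
    have h1 : phi d (0 + 1) = 1 := by rw [phi_succ hd]; simp
    rw [h1]
    have hc := phi_add_le' hd A B
    rcases Nat.lt_or_ge B (A + d) with h2 | h2
    · -- y ≥ 4
      have hy4 : 4 ≤ y := by rw [hy]; push_cast; omega
      have h3 : 4 ≤ (y * y) / 4 := by
        rw [Int.le_ediv_iff_mul_le (by norm_num)]
        nlinarith
      zify at hc
      push_cast
      linarith
    · rcases Nat.lt_or_ge B (A + d + 1) with h3 | h3
      · have hy3 : y = 3 := by rw [hy]; push_cast; omega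
        rw [hy3]
        zify at hc
        norm_num
        linarith
      · obtain ⟨b, rfl⟩ : ∃ b, B = b + 1 := ⟨B - 1, by omega⟩
        have e1 := phi_succ hd A
        have e2 := phi_succ hd b
        have e3 := phi_add_le' hd (A + 1) b
        have e4 : A + 1 + b = A + (b + 1) := by ring
        rw [e4] at e3
        have e5 : A / d + 1 ≤ b / d := by
          calc A / d + 1 = (A + d) / d := (Nat.add_div_right A (by omega)).symm
            _ ≤ b / d := Nat.div_le_div_right (by omega)
        rcases Nat.lt_or_ge (b + 1) (A + d + 2) with h4 | h4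
        · have hy2 : y = 2 := by rw [hy]; push_cast; omega
          rw [hy2]
          norm_num
          zify at e1 e2 e3 e5
          push_cast at *
          linarith
        · obtain ⟨c, rfl⟩ : ∃ c, b = c + 1 := ⟨b - 1, by omega⟩
          have f1 := phi_succ hd (A + 1)
          have f2 := phi_succ hd c
          have f3 := phi_add_le' hd (A + 1 + 1) c
          have f4 : A + 1 + 1 + c = A + (c + 1 + 1) := by ring
          rw [f4] at f3
          have f5 : (A + 1) / d + 1 ≤ (c + 1) / d := by
            calc (A + 1) / d + 1 = (A + 1 + d) / d := (Nat.add_div_right _ (by omega)).symm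
              _ ≤ (c + 1) / d := Nat.div_le_div_right (by omega)
          have f6 : A / d + 1 ≤ c / d := by
            calc A / d + 1 = (A + d) / d := (Nat.add_div_right A (by omega)).symm
              _ ≤ c / d := Nat.div_le_div_right (by omega)
          have h5 := g_nonneg y
          have goal : (phi d (c + 1 + 1) : ℤ) + phi d A ≥ phi (2 * d) (A + (c + 1 + 1)) + 2 := by
            zify at e1 e2 f1 f2 f3 f5 f6
            push_cast at *
            linarith
          push_cast at *
          linarith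
  | succ C ih =>
    intro A B hB y hy
    have h0 := phi_succ hd (C + 1)
    rcases lt_or_ge y (((C + 1) / d : ℕ) + 2 : ℤ) with h1 | h1
    · -- option 2
      obtain ⟨b, rfl⟩ : ∃ b, B = b + 1 := ⟨B - 1, by omega⟩
      have h2 := ih (A + 1) b (by omega) y (by rw [hy]; push_cast; ring)
      have e4 : A + 1 + b = A + (b + 1) := by ring
      rw [e4] at h2
      have e1 := phi_succ hd A
      have e2 := phi_succ hd b
      have h3 : (C + 1) / d ≤ C + 1 := Nat.div_le_self _ _
      have h4 : A + (C + 1) + d ≤ b := by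
        rw [hy] at h1
        have h3' : (((C + 1) / d : ℕ) : ℤ) ≤ C + 1 := by exact_mod_cast h3
        push_cast at h1 h3'
        have : (A : ℤ) + (C + 1) + d ≤ b := by linarith
        exact_mod_cast this
      have h5 : A / d + (C + 1) / d + 1 ≤ b / d := by
        calc A / d + (C + 1) / d + 1 ≤ (A + (C + 1)) / d + 1 :=
              Nat.add_le_add_right Nat.div_add_div_le_add_div 1
          _ = (A + (C + 1) + d) / d := (Nat.add_div_right _ (by omega)).symm
          _ ≤ b / d := Nat.div_le_div_right h4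
      zify at h0 e1 e2 h5
      push_cast at *
      linarith
    · -- option 1
      have h2 := ih A B (by omega) (y - 2) (by rw [hy]; push_cast; ring)
      rw [g_step y]
      zify at h0
      push_cast at *
      linarith

/-- The combined inequality. -/
theorem main_ineq {k s d r u : ℕ} (hd : 1 ≤ d) (hsr : s ≤ r) (huk : u ≤ k) :
    (r : ℤ) * (k + s + 1 - r) + phi d (u - r - d) + phi (2 * d) (k - s - d) +
      (if 0 < u - r - d then 1 else 0) ≤
      ((k + s + 1) * (k + s + 1) : ℤ) / 4 + phi d (k - u) + phi d (u - s - d) := by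
  have hW : ((k + s + 1) * (k + s + 1) : ℤ) / 4 = r * (k + s + 1 - r) +
      (((k + s + 1 - 2 * r : ℤ)) * (k + s + 1 - 2 * r)) / 4 := by
    have : ((k + s + 1) * (k + s + 1) : ℤ) =
        ((k + s + 1 - 2 * r : ℤ)) * (k + s + 1 - 2 * r) + (r * (k + s + 1 - r)) * 4 := by ring
    rw [this, Int.add_mul_ediv_right _ _ (by norm_num)]
    ring
  rw [hW]
  rcases Nat.eq_zero_or_pos (u - r - d) with hC | hC
  · rw [hC, if_neg (lt_irrefl 0), phi_zero]
    have h1 : phi (2 * d) (k - s - d) ≤ phi d (k - u) + phi d (u - s - d) :=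
      (phi_mono (by omega) (by omega)).trans (phi_add_le' hd (k - u) (u - s - d))
    have h2 := g_nonneg (k + s + 1 - 2 * r : ℤ)
    zify at h1
    push_cast
    linarith
  · rw [if_pos hC]
    obtain ⟨C, hCe⟩ : ∃ C, u - r - d = C + 1 := ⟨u - r - d - 1, by omega⟩
    have h1 := key hd C (k - u) (u - s - d) (by omega) (k + s + 1 - 2 * r : ℤ) (by
      have e1 : ((k - u : ℕ) : ℤ) = k - u := by omega
      have e2 : ((u - s - d : ℕ) : ℤ) = u - s - d := by omega
      rw [e1, e2]
      have e3 : (u : ℤ) - r - d = C + 1 := by omega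
      linarith)
    rw [hCe]
    have e4 : k - u + (u - s - d) = k - s - d := by omega
    rw [e4] at h1
    linarith

end Pool.Agent.R64.Phi
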