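import Mathlib
import Pool.Agent.R64.Phi

/-!
# Necessity of the Erdős–Gallai inequalities, and the extremal lists
-/

set_option autoImplicit false

namespace Pool.Agent.R64.EGLower

open Finset Pool.Agent.R64.Phi

theorem sum_lt (r m : ℕ) (g : ℕ → ℕ) :
    ∑ i ∈ univ.filter (fun i : Fin (r + m) => i.val < r), g i.val = ∑ i ∈ range r, g i := by
  rw [sum_filter]
  have h := Fin.sum_univ_eq_sum_range (fun i => if i < r then g i else 0) (r + m)
  rw [h, sum_range_add]
  have h1 : ∑ i ∈ range r, (if i < r then g i else 0) = ∑ i ∈ range r, g i :=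
    sum_congr rfl fun i hi => if_pos (mem_range.mp hi)
  have h2 : ∑ i ∈ range m, (if r + i < r then g (r + i) else 0) = 0 :=
    sum_eq_zero fun i _ => if_neg (by omega)
  rw [h1, h2, add_zero]

theorem sum_ge (r m : ℕ) (g : ℕ → ℕ) :
    ∑ i ∈ univ.filter (fun i : Fin (r + m) => ¬ i.val < r), g i.val =
      ∑ j ∈ range m, g (r + j) := by
  rw [sum_filter]
  have h := Fin.sum_univ_eq_sum_range (fun i => if ¬ i < r then g i else 0) (r + m)
  rw [h, sum_range_add]
  have h1 : ∑ i ∈ range r, (if ¬ i < r then g i else 0) = 0 :=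
    sum_eq_zero fun i hi => if_neg (by rw [mem_range] at hi; omega)
  have h2 : ∑ i ∈ range m, (if ¬ r + i < r then g (r + i) else 0) = ∑ j ∈ range m, g (r + j) :=
    sum_congr rfl fun i _ => if_pos (by omega)
  rw [h1, h2, zero_add]

/-- **Necessity of the Erdős–Gallai inequalities.** -/
theorem eg_necessary {r m : ℕ} (G : SimpleGraph (Fin (r + m))) (b : ℕ → ℕ)
    (hb : ∀ i : Fin (r + m), {j | G.Adj i j}.ncard = b i.val) :
    ∑ i ∈ range r, b i ≤ r * (r - 1) + ∑ j ∈ range m, min (b (r + j)) r := by
  classical
  let S : Finset (Fin (r + m)) := univ.filter fun i => i.val < r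
  let T : Finset (Fin (r + m)) := univ.filter fun i => ¬ i.val < r
  have hScard : S.card = r := by
    have := sum_lt r m (fun _ => 1)
    simpa using this
  have hdeg : ∀ i, b i.val = (S.filter fun j => G.Adj i j).card + (T.filter fun j => G.Adj i j).card := by
    intro i
    rw [← hb i]
    have h1 : {j | G.Adj i j}.ncard = (univ.filter fun j => G.Adj i j).card := by
      rw [← Set.ncard_coe_finset]
      congr 1
      ext j
      simp
    rw [h1, ← card_union_of_disjoint]
    · congr 1
      ext j
      simp only [mem_filter, mem_univ, true_and, mem_union, S, T]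
      tauto
    · rw [Finset.disjoint_left]
      intro j hj hj'
      simp only [mem_filter, mem_univ, true_and, S, T] at hj hj'
      exact hj'.1 hj.1
  rw [← sum_lt r m b, ← sum_ge r m (fun j => min (b j) r)]
  show ∑ i ∈ S, b i.val ≤ r * (r - 1) + ∑ j ∈ T, min (b j.val) r
  calc ∑ i ∈ S, b i.val = ∑ i ∈ S, ((S.filter fun j => G.Adj i j).card +
        (T.filter fun j => G.Adj i j).card) := sum_congr rfl fun i _ => hdeg i
    _ = ∑ i ∈ S, (S.filter fun j => G.Adj i j).card +
        ∑ i ∈ S, (T.filter fun j => G.Adj i j).card := sum_add_distrib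
    _ ≤ r * (r - 1) + ∑ j ∈ T, min (b j.val) r := by
        refine Nat.add_le_add ?_ ?_
        · calc ∑ i ∈ S, (S.filter fun j => G.Adj i j).card ≤ ∑ i ∈ S, (r - 1) := by
                refine sum_le_sum fun i hi => ?_
                have h1 : S.filter (fun j => G.Adj i j) ⊆ S.erase i := by
                  intro j hj
                  rw [mem_filter] at hj
                  exact mem_erase.mpr ⟨fun h => G.irrefl (h ▸ hj.2), hj.1⟩
                have h2 := card_le_card h1
                rwa [card_erase_of_mem hi, hScard] at h2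
            _ = r * (r - 1) := by rw [sum_const, hScard, smul_eq_mul]
        · have h1 : ∑ i ∈ S, (T.filter fun j => G.Adj i j).card =
              ∑ j ∈ T, (S.filter fun i => G.Adj i j).card := by
            simp only [card_filter]
            exact sum_comm
          rw [h1]
          refine sum_le_sum fun j _ => ?_
          refine le_min ?_ ?_
          · rw [hdeg j]
            refine le_trans (le_of_eq ?_) (Nat.le_add_right _ _)
            congr 1
            ext i
            simp only [mem_filter, G.adj_comm]
          · exact (card_filter_le _ _).trans hScard.le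

/-- The extremal lists. -/
def lst (k s d u R p e j : ℕ) : ℕ :=
  if j ≤ R then (if j < p then k else min (k - e) (u + (R - j) * d)) else max s (u - (j - R) * d)

section lst

variable {k s d u R p e c : ℕ}

/-- the hypotheses on the parameters -/
structure Hyp (k s d u R p e c : ℕ) : Prop where
  hd : 1 ≤ d
  hsu : s ≤ u
  huk : u ≤ k
  he : e ≤ 1
  hsk : s < k
  hc : k - u ≤ c * d
  hc' : c = 0 ∨ (c - 1) * d < k - u
  hp : p + c = R
  hpe : e = 1 → 1 ≤ p

theorem lst_top (h : Hyp k s d u R p e c) {i : ℕ} (hi : i ≤ R) :
    lst k s d u R p e (R - i) + (k - u - i * d) + (if i = c then e else 0) = k := by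
  obtain ⟨hd, hsu, huk, he, hsk, hc, hc', hp, hpe⟩ := h
  unfold lst
  rw [if_pos (by omega), show R - (R - i) = i by omega]
  rcases lt_trichotomy i c with h1 | h1 | h1
  · rw [if_neg (by omega), if_neg (by omega)]
    have h2 : i * d ≤ (c - 1) * d := Nat.mul_le_mul_right _ (by omega)
    rcases hc' with h3 | h3
    · omega
    · rw [min_eq_right (by omega)]
      omega
  · subst h1
    rw [if_neg (by omega), if_pos rfl, min_eq_left (by omega)]
    omega
  · rw [if_pos (by omega), if_neg (by omega)]
    have h2 : c * d ≤ i * d := Nat.mul_le_mul_right _ h1.le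
    omega

theorem lst_top_sum (h : Hyp k s d u R p e c) :
    ∑ j ∈ range (R + 1), lst k s d u R p e j + phi d (k - u) + e = (R + 1) * k := by
  have hcR : c ≤ R := by have := h.hp; omega
  have h1 : k - u ≤ (R + 1) * d := h.hc.trans (Nat.mul_le_mul_right _ (by omega))
  rw [← phi_eq h.hd h1, ← sum_range_reflect]
  have h2 : e = ∑ i ∈ range (R + 1), if i = c then e else 0 := by
    rw [sum_ite_eq']
    rw [if_pos (mem_range.mpr (by omega))]
  conv_lhs => rw [h2]
  rw [← sum_add_distrib, ← sum_add_distrib]
  have h3 : ∀ i ∈ range (R + 1), lst k s d u R p (∑ i ∈ range (R + 1), if i = c then e else 0)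
      (R + 1 - 1 - i) + (k - u - i * d) + (if i = c then e else 0) = k := by
    intro i hi
    rw [← h2, Nat.add_sub_cancel]
    rw [mem_range] at hi
    exact lst_top h (by omega)
  rw [sum_congr rfl h3]
  simp

theorem lst_tail {j : ℕ} : lst k s d u R p e (R + 1 + j) = s + (u - s - d - j * d) := by
  unfold lst
  rw [if_neg (by omega), show R + 1 + j - R = j + 1 by omega]
  have h1 : (j + 1) * d = j * d + d := by ring
  rw [h1]
  omega

theorem lst_tail_sum (hd : 1 ≤ d) {m : ℕ} (hm : u - s - d ≤ m * d) :
    ∑ j ∈ range m, lst k s d u R p e (R + 1 + j) = s * m + phi d (u - s - d) := by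
  rw [sum_congr rfl fun j _ => lst_tail, sum_add_distrib, phi_eq hd hm]
  simp [mul_comm]

theorem lst_anti_step (h : Hyp k s d u R p e c) (j : ℕ) :
    lst k s d u R p e (j + 1) ≤ lst k s d u R p e j ∧
      lst k s d u R p e j ≤ lst k s d u R p e (j + 1) + d := by
  obtain ⟨hd, hsu, huk, he, hsk, hc, hc', hp, hpe⟩ := h
  unfold lst
  rcases lt_trichotomy j R with h1 | h1 | h1
  · rw [if_pos (show j + 1 ≤ R by omega), if_pos (show j ≤ R by omega)]
    have h2 : R - j = R - (j + 1) + 1 := by omega
    have h3 : (R - j) * d = (R - (j + 1)) * d + d := by rw [h2]; ring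
    rw [h3]
    by_cases h4 : j + 1 < p
    · rw [if_pos h4, if_pos (by omega)]
      omega
    · rw [if_neg h4]
      by_cases h5 : j < p
      · rw [if_pos h5]
        have h6 : c * d ≤ (R - (j + 1)) * d + d := by
          rw [← h3]
          exact Nat.mul_le_mul_right _ (by omega)
        have h7 : c * d ≤ (R - (j + 1)) * d := Nat.mul_le_mul_right _ (by omega)
        omega
      · rw [if_neg h5]
        omega
  · subst h1
    rw [if_neg (show ¬ j + 1 ≤ j by omega), if_pos (le_refl j), show j + 1 - j = 1 by omega, Nat.sub_self, Nat.zero_mul,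
      Nat.one_mul, Nat.add_zero]
    by_cases h5 : j < p
    · omega
    · rw [if_neg h5]
      omega
  · rw [if_neg (show ¬ j + 1 ≤ R by omega), if_neg (show ¬ j ≤ R by omega)]
    have h2 : j + 1 - R = j - R + 1 := by omega
    have h3 : (j + 1 - R) * d = (j - R) * d + d := by rw [h2]; ring
    rw [h3]
    omega

theorem lst_anti (h : Hyp k s d u R p e c) {i j : ℕ} (hij : i ≤ j) :
    lst k s d u R p e j ≤ lst k s d u R p e i := by
  induction j, hij using Nat.le_induction with
  | base => exact le_rfl
  | succ j _ ih => exact (lst_anti_step h j).1.trans ih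

theorem lst_zero (h : Hyp k s d u R p e c) : lst k s d u R p e 0 = k := by
  obtain ⟨hd, hsu, huk, he, hsk, hc, hc', hp, hpe⟩ := h
  unfold lst
  rw [if_pos (Nat.zero_le _), Nat.sub_zero]
  by_cases h1 : 0 < p
  · rw [if_pos h1]
  · rw [if_neg h1]
    have h2 : e = 0 := by
      by_contra h3
      have := hpe (by omega)
      omega
    have h3 : c = R := by omega
    rw [← h3, h2, Nat.sub_zero]
    exact min_eq_left (by omega)

end lst

end Pool.Agent.R64.EGLower
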