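import Mathlib
import Pool.Agent.R64.Phi

/-!
# The Erdős–Gallai inequalities for long lists with bounded gaps
-/

set_option autoImplicit false

namespace Pool.Agent.R64.EGUpper

open Finset Pool.Agent.R64.Phi

variable {k s d n r : ℕ} {f : ℕ → ℕ}

/-- Going up from position `r - 1`. -/
theorem up_bound (hgap : ∀ i, i + 1 < n → f i ≤ f (i + 1) + d) (hrn : r + 1 ≤ n) :
    ∀ i ≤ r, f (r - i) ≤ f r + i * d := by
  intro i
  induction i with
  | zero => intro _; simp
  | succ i ih =>
    intro hi
    have h1 := ih (by omega)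
    have h2 := hgap (r - (i + 1)) (by omega)
    have h3 : r - (i + 1) + 1 = r - i := by omega
    rw [h3] at h2
    have h4 : (i + 1) * d = i * d + d := by ring
    omega

/-- Going down from position `r`. -/
theorem down_bound (hgap : ∀ i, i + 1 < n → f i ≤ f (i + 1) + d) :
    ∀ i, r + i < n → f r ≤ f (r + i) + i * d := by
  intro i
  induction i with
  | zero => intro _; simp
  | succ i ih =>
    intro hi
    have h1 := ih (by omega)
    have h2 := hgap (r + i) (by omega)
    have h4 : (i + 1) * d = i * d + d := by ring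
    have h5 : r + (i + 1) = r + i + 1 := by ring
    rw [h5]
    omega

/-- The upper bound for the sum of the `r + 1` largest terms. -/
theorem top_bound (hd : 1 ≤ d) (hgap : ∀ i, i + 1 < n → f i ≤ f (i + 1) + d)
    (hk : ∀ i, i < n → f i ≤ k) (h0 : f 0 = k) (hrn : r + 1 ≤ n) :
    ∑ i ∈ range (r + 1), f i + phi d (k - f r) ≤ (r + 1) * k := by
  have h1 : k - f r ≤ (r + 1) * d := by
    have := up_bound hgap hrn r le_rfl
    rw [Nat.sub_self, h0] at this
    have h2 : (r + 1) * d = r * d + d := by ring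
    omega
  rw [← phi_eq hd h1, ← sum_range_reflect, ← sum_add_distrib]
  calc ∑ i ∈ range (r + 1), (f (r + 1 - 1 - i) + (k - f r - i * d))
      ≤ ∑ i ∈ range (r + 1), k := by
        refine sum_le_sum fun i hi => ?_
        rw [mem_range] at hi
        have h2 := up_bound hgap hrn i (by omega)
        have h3 := hk (r - i) (by omega)
        rw [Nat.add_sub_cancel]
        omega
    _ = (r + 1) * k := by simp

/-- The lower bound for the tail. -/
theorem tail_bound (hd : 1 ≤ d) (hgap : ∀ i, i + 1 < n → f i ≤ f (i + 1) + d)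
    (hs : ∀ i, i < n → s ≤ f i) (hlast : f (n - 1) = s) (hrn : r + 1 ≤ n) (hsr : s ≤ r + 1) :
    (∀ j, j < n - (r + 1) → s + (f r - s - d - j * d) ≤
      min (f (r + 1 + j)) (r + 1) + (f r - (r + 1) - d - j * d)) ∧
    ∑ j ∈ range (n - (r + 1)), (s + (f r - s - d - j * d)) =
      s * (n - (r + 1)) + phi d (f r - s - d) ∧
    ∑ j ∈ range (n - (r + 1)), (min (f (r + 1 + j)) (r + 1) + (f r - (r + 1) - d - j * d)) =
      ∑ j ∈ range (n - (r + 1)), min (f (r + 1 + j)) (r + 1) + phi d (f r - (r + 1) - d) := by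
  have h1 : f r - s ≤ (n - (r + 1)) * d := by
    have := down_bound (r := r) hgap (n - (r + 1)) (by omega)
    have e : r + (n - (r + 1)) = n - 1 := by omega
    rw [e, hlast] at this
    omega
  refine ⟨?_, ?_, ?_⟩
  · intro j hj
    have h2 := down_bound (r := r) hgap (j + 1) (by omega)
    have h3 := hs (r + 1 + j) (by omega)
    have e : r + (j + 1) = r + 1 + j := by ring
    rw [e] at h2
    have e2 : (j + 1) * d = j * d + d := by ring
    rw [e2] at h2
    rcases le_total (f (r + 1 + j)) (r + 1) with h4 | h4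
    · rw [min_eq_left h4]
      omega
    · rw [min_eq_right h4]
      omega
  · rw [sum_add_distrib, sum_const, card_range, smul_eq_mul, phi_eq hd (by omega), mul_comm]
  · rw [sum_add_distrib, phi_eq hd (by omega)]

/-- The quantity `M(k,s,d)`. -/
def bigM (k s d : ℕ) : ℕ :=
  (k + s + 1) ^ 2 / 4 - (k - s + d) / (2 * d) * (k - s - (k - s + d) / (2 * d) * d)

theorem q_le (hd : 1 ≤ d) (hdk : d ≤ k - s) :
    4 * ((k - s + d) / (2 * d) * (k - s - (k - s + d) / (2 * d) * d)) ≤ (k - s) ^ 2 := by
  obtain ⟨q, hq⟩ : ∃ q, q = (k - s + d) / (2 * d) := ⟨_, rfl⟩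
  obtain ⟨K, hK⟩ : ∃ K, K = k - s := ⟨_, rfl⟩
  rw [← hK] at hdk hq ⊢
  rw [← hq]
  have h1 : q ≤ q * d := Nat.le_mul_of_pos_right _ (by omega)
  have h2 : K - q * d ≤ K - q := by omega
  have h3 : q * (K - q * d) ≤ q * (K - q) := Nat.mul_le_mul_left _ h2
  rcases le_total q K with h4 | h4
  · obtain ⟨t, rfl⟩ : ∃ t, K = q + t := ⟨K - q, by omega⟩
    rw [Nat.add_sub_cancel_left] at h3
    have h5 : 4 * (q * t) ≤ (q + t) ^ 2 := by
      zify
      nlinarith [sq_nonneg ((q : ℤ) - t)]
    omega
  · have : K - q = 0 := by omega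
    rw [this] at h3
    nlinarith

theorem bigM_eq (hd : 1 ≤ d) (hdk : d ≤ k - s) :
    (bigM k s d : ℤ) = ((k + s + 1) * (k + s + 1) : ℤ) / 4 - phi (2 * d) (k - s - d) := by
  unfold bigM
  rw [phi_closed hd hdk]
  have h1 := q_le hd hdk
  have h2 : (k - s + d) / (2 * d) * (k - s - (k - s + d) / (2 * d) * d) ≤ (k + s + 1) ^ 2 / 4 := by
    rw [Nat.le_div_iff_mul_le (by norm_num), mul_comm]
    refine h1.trans (Nat.pow_le_pow_left (by omega) 2)
  rw [Nat.cast_sub h2]
  push_cast
  rw [sq]

/-- `M ≥ s k + s + ⌈(k-s)/2⌉`. -/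
theorem bigM_ge (hd : 1 ≤ d) (hdk : d ≤ k - s) (hsk : s < k) :
    s * k + s + (k - s + 1) / 2 ≤ bigM k s d := by
  have h1 := q_le hd hdk
  unfold bigM
  obtain ⟨Q, hQ⟩ : ∃ Q, Q = (k - s + d) / (2 * d) * (k - s - (k - s + d) / (2 * d) * d) := ⟨_, rfl⟩
  rw [← hQ] at h1 ⊢
  obtain ⟨K, rfl⟩ : ∃ K, k = s + K := ⟨k - s, by omega⟩
  rw [Nat.add_sub_cancel_left] at h1 ⊢
  rcases Nat.even_or_odd' K with ⟨m, rfl | rfl⟩
  · have e1 : (s + 2 * m + s + 1) ^ 2 / 4 = (s + m) ^ 2 + (s + m) := by
      have : (s + 2 * m + s + 1) ^ 2 = ((s + m) ^ 2 + (s + m)) * 4 + 1 := by ring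
      omega
    have e2 : (2 * m + 1) / 2 = m := by omega
    rw [e1, e2]
    have h2 : Q ≤ m ^ 2 := by nlinarith
    have h3 : s * (s + 2 * m) + s + m + m ^ 2 = (s + m) ^ 2 + (s + m) := by ring
    omega
  · have e1 : (s + (2 * m + 1) + s + 1) ^ 2 / 4 = (s + m + 1) ^ 2 := by
      have : (s + (2 * m + 1) + s + 1) ^ 2 = ((s + m + 1) ^ 2) * 4 := by ring
      omega
    have e2 : (2 * m + 1 + 1) / 2 = m + 1 := by omega
    rw [e1, e2]
    have h2 : Q ≤ m ^ 2 + m := by
      have : 4 * Q ≤ 4 * (m ^ 2 + m) + 1 := by nlinarith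
      omega
    have h3 : s * (s + (2 * m + 1)) + s + (m + 1) + (m ^ 2 + m) = (s + m + 1) ^ 2 := by ring
    omega

theorem small_of_ediv {w x : ℤ} (h : (w * w) / 4 ≤ x * (w - x)) : w - 2 * x ≤ 1 := by
  have h1 := Int.lt_ediv_add_one_mul_self (w * w) (show (0 : ℤ) < 4 by norm_num)
  have h2 : (w - 2 * x) * (w - 2 * x) < 4 := by nlinarith
  nlinarith

/-- **The upper bound.** -/
theorem upper (hd : 1 ≤ d) (hdk : d ≤ k - s) (hsk : s < k) (hs1 : 1 ≤ s)
    (hanti : ∀ i j, i ≤ j → j < n → f j ≤ f i)
    (h0 : f 0 = k) (hlast : f (n - 1) = s)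
    (hgap : ∀ i, i + 1 < n → f i ≤ f (i + 1) + d) (heven : Even (∑ i ∈ range n, f i))
    (hn : bigM k s d ≤ s * n + 1) (hrn : r + 1 ≤ n) :
    ∑ i ∈ range (r + 1), f i ≤
      (r + 1) * r + ∑ j ∈ range (n - (r + 1)), min (f (r + 1 + j)) (r + 1) := by
  have hk : ∀ i, i < n → f i ≤ k := fun i hi => h0 ▸ hanti 0 i (Nat.zero_le _) hi
  have hs : ∀ i, i < n → s ≤ f i := fun i hi => hlast ▸ hanti i (n - 1) (by omega) (by omega)
  have hMge := bigM_ge hd hdk hsk
  by_contra hcon
  push Not at hcon
  have htop := top_bound hd hgap hk h0 hrn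
  rcases Nat.lt_or_ge (r + 1) s with hrs | hrs
  · -- `r + 1 < s`
    have h1 : ∑ j ∈ range (n - (r + 1)), min (f (r + 1 + j)) (r + 1) = (n - (r + 1)) * (r + 1) := by
      rw [sum_congr rfl (g := fun _ => r + 1)]
      · simp
      · intro j hj
        rw [mem_range] at hj
        have := hs (r + 1 + j) (by omega)
        exact min_eq_right (by omega)
    rw [h1] at hcon
    have h2 : (r + 1) * r + (n - (r + 1)) * (r + 1) = (r + 1) * (n - 1) := by
      obtain ⟨t, rfl⟩ : ∃ t, n = r + 1 + t := ⟨n - (r + 1), by omega⟩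
      have e1 : r + 1 + t - (r + 1) = t := by omega
      have e2 : r + 1 + t - 1 = r + t := by omega
      rw [e1, e2]
      ring
    rw [h2] at hcon
    have h3 : (r + 1) * (n - 1) < (r + 1) * k := by omega
    have h4 : n - 1 < k := Nat.lt_of_mul_lt_mul_left h3
    have h5 : s * n ≤ s * k := Nat.mul_le_mul_left _ (by omega)
    omega
  · obtain ⟨ht1, ht2, ht3⟩ := tail_bound (r := r) hd hgap hs hlast hrn hrs
    have hmin := sum_le_sum (fun j hj => ht1 j (mem_range.mp hj))
    rw [ht2, ht3] at hmin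
    have hineq := main_ineq (k := k) (s := s) (r := r + 1) (u := f r) hd hrs (hk r (by omega))
    have hMe := bigM_eq (k := k) (s := s) hd hdk
    -- pass to `ℤ`
    obtain ⟨S, hS⟩ : ∃ S, S = ∑ i ∈ range (r + 1), f i := ⟨_, rfl⟩
    obtain ⟨T, hT⟩ : ∃ T, T = ∑ j ∈ range (n - (r + 1)), min (f (r + 1 + j)) (r + 1) := ⟨_, rfl⟩
    rw [← hS] at htop hcon
    rw [← hT] at hmin hcon
    have hn' : ((n - (r + 1) : ℕ) : ℤ) = n - (r + 1) := by omega
    zify at htop hmin hcon hn
    rw [hn'] at hmin
    rw [hMe] at hn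
    push_cast at htop hmin hcon hn hineq
    have hWexp : (((r : ℤ) + 1)) * (k + s + 1 - (r + 1)) = (r + 1) * k + (r + 1) * s - (r + 1) * r := by
      ring
    rw [hWexp] at hineq
    have hsn : (s : ℤ) * (n - (r + 1)) = s * n - (r + 1) * s := by ring
    rw [hsn] at hmin
    by_cases hC : 0 < f r - (r + 1) - d
    · rw [if_pos hC] at hineq
      linarith
    · rw [if_neg hC] at hineq
      have hC0 : f r - (r + 1) - d = 0 := by omega
      rw [hC0, phi_zero] at hmin hineq
      push_cast at hmin hineq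
      -- all the inequalities are equalities
      have e1 : (T : ℤ) = s * n - (r + 1) * s + phi d (f r - s - d) := by linarith
      have e2 : (S : ℤ) = (r + 1) * r + T + 1 := by linarith
      have e3 : ((k + s + 1) * (k + s + 1) : ℤ) / 4 ≤ (r + 1) * (k + s + 1 - (r + 1)) := by
        have hcx : phi (2 * d) (k - s - d) ≤ phi d (k - f r) + phi d (f r - s - d) := by
          have hle : k - s - d ≤ (k - f r) + (f r - s - d) := by omega
          exact (phi_mono (d := 2 * d) (by omega) hle).trans (phi_add_le' hd _ _)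
        zify at hcx
        linarith
      have e5 : ((k : ℤ) + s + 1) - 2 * ((r : ℤ) + 1) ≤ 1 := small_of_ediv e3
      -- termwise equality in the tail
      have e6 : ∀ j < n - (r + 1), min (f (r + 1 + j)) (r + 1) = s + (f r - s - d - j * d) := by
        intro j hj
        have hle := sum_le_sum (s := range (n - (r + 1))) (fun j hj => ht1 j (mem_range.mp hj))
        have heq : ∑ j ∈ range (n - (r + 1)), (s + (f r - s - d - j * d)) =
            ∑ j ∈ range (n - (r + 1)), (min (f (r + 1 + j)) (r + 1) + (f r - (r + 1) - d - j * d)) := by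
          rw [ht2, ht3, ← hT, hC0, phi_zero]
          zify
          rw [hn']
          linarith
        have := (sum_eq_sum_iff_of_le (fun j hj => ht1 j (mem_range.mp hj))).mp heq j
          (mem_range.mpr hj)
        rw [this, hC0]
        omega
      have e7 : ∀ j < n - (r + 1), f (r + 1 + j) ≤ r + 1 := by
        by_contra hex
        push Not at hex
        obtain ⟨j, hj, hfj⟩ := hex
        have g1 : r + 1 < f (r + 1) := lt_of_lt_of_le hfj (hanti (r + 1) (r + 1 + j) (by omega) (by omega))
        have g2 := e6 0 (by omega)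
        rw [Nat.add_zero, min_eq_right g1.le, Nat.zero_mul] at g2
        have g3 : s < r + 1 := by
          rcases Nat.lt_or_ge s (r + 1) with h | h
          · exact h
          · exfalso
            have : s = r + 1 := by omega
            omega
        have g4 : f r = r + 1 + d := by omega
        have g5 : f r ≤ k := hk r (by omega)
        have g6 : d ≤ r + 1 - s := by omega
        have g7 : r + 2 < n := by
          by_contra hh
          have : n - 1 = r + 1 := by omega
          rw [this] at hlast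
          omega
        have g8 := e6 1 (by omega)
        have g9 := hgap (r + 1) g7
        rcases le_total (f (r + 1 + 1)) (r + 1) with h | h
        · rw [min_eq_left h] at g8
          omega
        · rw [min_eq_right h] at g8
          omega
      have e8 : ∑ i ∈ range n, f i = S + T := by
        have hsplit : n = r + 1 + (n - (r + 1)) := by omega
        conv_lhs => rw [hsplit]
        rw [sum_range_add, hS, hT]
        congr 1
        exact sum_congr rfl fun j hj => (min_eq_left (e7 j (mem_range.mp hj))).symm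
      rw [e8] at heven
      have e9 : S = (r + 1) * r + T + 1 := by
        zify
        linarith
      have e10 : Even ((r + 1) * r) := by
        rw [mul_comm]
        exact Nat.even_mul_succ_self r
      rw [e9] at heven
      obtain ⟨a, ha⟩ := heven
      obtain ⟨b, hb⟩ := e10
      omega

end Pool.Agent.R64.EGUpper
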