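import Mathlib
import Pool.Agent.R955.FD.Defs

/-!
Project FD, piece ONE: upper estimates with `p = q = 1` on the line (MP_0880e2_an).
-/

set_option autoImplicit false

namespace Pool.Agent.R64.FDONE

open MeasureTheory Set Filter Topology
open scoped ENNReal FourierTransform
open Pool.Agent.R955.FD

universe u

lemma nice_cont {X : Type u} [NormedAddCommGroup X] [NormedSpace ℂ X] {g : ℝ → X} {A L : ℝ}
    (h : Nice g A L) : Continuous g := by
  obtain ⟨_, hL, _, h2, _⟩ := h
  have : LipschitzWith (Real.toNNReal L) g := by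
    apply LipschitzWith.of_dist_le_mul
    intro x y
    rw [dist_eq_norm, Real.dist_eq, Real.coe_toNNReal L hL.le]
    exact h2 x y
  exact this.continuous

lemma nice_int {X : Type u} [NormedAddCommGroup X] [NormedSpace ℂ X] {g : ℝ → X} {A L : ℝ}
    (h : Nice g A L) (s : ℝ) : Integrable (fun ξ => ch ξ s • g ξ) := by
  have hc : Continuous (fun ξ => ch ξ s • g ξ) := by
    have h1 : Continuous (fun ξ => ch ξ s) := by unfold ch; fun_prop
    exact h1.smul (nice_cont h)
  apply hc.integrable_of_hasCompactSupport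
  apply HasCompactSupport.intro (isCompact_Icc (a := -A) (b := A))
  intro x hx
  have : A ≤ |x| := by
    by_contra hlt
    push Not at hlt
    exact hx ⟨(abs_lt.1 hlt).1.le, (abs_lt.1 hlt).2.le⟩
  rw [h.2.2.2.2 x this, smul_zero]

theorem t_ONE (h1 : S_BRI.{u}) (h2 : S_DEC.{u}) : S_ONE.{u} := by
  intro X _ _ _
  refine ⟨1, one_pos, ?_⟩
  intro J hJ f hf
  obtain ⟨A, L, hN, hfe, hD⟩ := h1 X f hf
  obtain ⟨C, _, hC, _⟩ := h2 X (𝓕 f) A L hN
  obtain ⟨g, hg⟩ : ∃ g, g = 𝓕 f := ⟨_, rfl⟩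
  rw [← hg] at hN hfe hD hC
  have hmeas : ∀ i, MeasurableSet (J i) := fun i => (hJ.1 i).measurableSet
  have hun : (⋃ i, J i) = univ := by
    ext x
    simp only [mem_iUnion, mem_univ, iff_true]
    exact hJ.2.2 x
  have hsum : ∀ s, HasSum (fun i => Ext g (J i) s) (Ext g univ s) := by
    intro s
    have := hasSum_integral_iUnion (μ := volume) (f := fun ξ => ch ξ s • g ξ) (s := J) hmeas
      (fun i j hij => hJ.2.1 i j hij) ((nice_int hN s).integrableOn)
    rw [hun] at this
    exact this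
  have hlq : ∀ a : ℕ → ℝ≥0∞, lq 1 a = ∑' i, a i := by
    intro a
    unfold lq
    rw [if_neg (by simp)]
    simp
  rw [hlq, ENNReal.ofReal_one, one_mul]
  have hDR : ∀ i, DR (J i) f = Ext g (J i) := fun i => hD (J i) (hJ.1 i)
  simp only [hDR]
  unfold nR
  simp only [eLpNorm_one_eq_lintegral_enorm]
  rw [← lintegral_tsum (fun i => ((hC (J i) (hJ.1 i)).1.enorm.aemeasurable))]
  apply lintegral_mono
  intro s
  show ‖f s‖ₑ ≤ ∑' i, ‖Ext g (J i) s‖ₑ
  rw [hfe, ← (hsum s).tsum_eq]
  exact enorm_tsum_le_tsum_enorm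

end Pool.Agent.R64.FDONE
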