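import Pool.Agent.R64.Avoid

/-!
# The core colouring theorem for `K_t ∨ K_{a,b}`
-/

set_option autoImplicit false

namespace Pool.Agent.R64.OhbaCore

open Finset Pool.Agent.R64.Avoid

variable {ι : Type*}

/-- Lists that are at least as large as the index set have distinct representatives. -/
theorem hallType [Fintype ι] [DecidableEq ι] (K : ι → Finset ℕ)
    (h : ∀ i, Fintype.card ι ≤ (K i).card) :
    ∃ φ : ι → ℕ, Function.Injective φ ∧ ∀ i, φ i ∈ K i := by
  classical
  refine (Finset.all_card_le_biUnion_card_iff_exists_injective K).mp fun J => ?_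
  rcases J.eq_empty_or_nonempty with rfl | ⟨i, hi⟩
  · simp
  · exact (card_le_univ J).trans ((h i).trans (card_le_card (subset_biUnion_of_mem K hi)))

theorem hallOn [DecidableEq ι] (J : Finset ι) (K : ι → Finset ℕ)
    (h : ∀ i ∈ J, J.card ≤ (K i).card) :
    ∃ φ : ι → ℕ, Set.InjOn φ J ∧ ∀ i ∈ J, φ i ∈ K i := by
  classical
  obtain ⟨φ, h1, h2⟩ := hallType (fun i : {i // i ∈ J} => K i) (fun i => by
    rw [Fintype.card_coe]; exact h i i.2)
  refine ⟨fun i => if hi : i ∈ J then φ ⟨i, hi⟩ else 0, ?_, ?_⟩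
  · intro i hi j hj hij
    have hi' : i ∈ J := hi
    have hj' : j ∈ J := hj
    simp only [dif_pos hi', dif_pos hj'] at hij
    exact congrArg Subtype.val (h1 hij)
  · intro i hi
    simp only [dif_pos hi]
    exact h2 ⟨i, hi⟩

/-- Pairwise disjoint sublists of a prescribed size. -/
theorem disjointSub [DecidableEq ι] (J : Finset ι) (h : ℕ) (O : ι → Finset ℕ)
    (hO : ∀ j ∈ J, J.card * h ≤ (O j).card) :
    ∃ O' : ι → Finset ℕ, (∀ j ∈ J, O' j ⊆ O j ∧ (O' j).card = h) ∧
      ∀ i ∈ J, ∀ j ∈ J, i ≠ j → Disjoint (O' i) (O' j) := by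
  classical
  obtain ⟨φ, h1, h2⟩ := hallOn (J ×ˢ (univ : Finset (Fin h))) (fun x => O x.1) (by
    intro x hx
    rw [card_product, card_univ, Fintype.card_fin]
    exact hO x.1 (mem_product.mp hx).1)
  refine ⟨fun j => univ.image fun x : Fin h => φ (j, x), ?_, ?_⟩
  · intro j hj
    constructor
    · intro y hy
      obtain ⟨x, _, rfl⟩ := mem_image.mp hy
      exact h2 (j, x) (mem_product.mpr ⟨hj, mem_univ _⟩)
    · rw [card_image_of_injOn, card_univ, Fintype.card_fin]
      intro x _ y _ hxy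
      have := h1 (by simpa using hj : (j, x) ∈ (↑(J ×ˢ (univ : Finset (Fin h))) : Set _))
        (by simpa using hj : (j, y) ∈ (↑(J ×ˢ (univ : Finset (Fin h))) : Set _)) hxy
      exact (Prod.ext_iff.mp this).2
  · intro i hi j hj hij
    rw [disjoint_left]
    intro y hy1 hy2
    obtain ⟨x, _, hx⟩ := mem_image.mp hy1
    obtain ⟨x', _, hx'⟩ := mem_image.mp hy2
    have := h1 (by simpa using hi : (i, x) ∈ (↑(J ×ˢ (univ : Finset (Fin h))) : Set _))
        (by simpa using hj : (j, x') ∈ (↑(J ×ˢ (univ : Finset (Fin h))) : Set _))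
        (hx.trans hx'.symm)
    exact hij (Prod.ext_iff.mp this).1

/-- Few tuples cover a given set. -/
theorem coverCount [Fintype ι] [DecidableEq ι] (h : ℕ) (O : ι → Finset ℕ)
    (hO : ∀ j, (O j).card = h) (hdis : ∀ i j, i ≠ j → Disjoint (O i) (O j)) (E : Finset ℕ) :
    ((Fintype.piFinset O).filter fun τ => E ⊆ univ.image τ).card * h ^ E.card ≤
      h ^ Fintype.card ι := by
  classical
  rcases ((Fintype.piFinset O).filter fun τ => E ⊆ univ.image τ).eq_empty_or_nonempty with
    h0 | ⟨τ0, hτ0⟩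
  · rw [h0]; simp
  obtain ⟨h1, h2⟩ := mem_filter.mp hτ0
  rw [Fintype.mem_piFinset] at h1
  obtain ⟨JE, hJE⟩ : ∃ JE : Finset ι, JE = univ.filter fun j => τ0 j ∈ E := ⟨_, rfl⟩
  have hcardJE : E.card ≤ JE.card := by
    have h3 : E ⊆ JE.image τ0 := by
      intro x hx
      obtain ⟨j, _, hj⟩ := mem_image.mp (h2 hx)
      refine mem_image.mpr ⟨j, ?_, hj⟩
      rw [hJE]
      exact mem_filter.mpr ⟨mem_univ _, by rw [hj]; exact hx⟩
    exact (card_le_card h3).trans card_image_le
  have hsub : ((Fintype.piFinset O).filter fun τ => E ⊆ univ.image τ) ⊆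
      Fintype.piFinset fun j => if j ∈ JE then {τ0 j} else O j := by
    intro τ hτ
    obtain ⟨h3, h4⟩ := mem_filter.mp hτ
    rw [Fintype.mem_piFinset] at h3 ⊢
    intro j
    by_cases hj : j ∈ JE
    · rw [if_pos hj, mem_singleton]
      rw [hJE] at hj
      obtain ⟨j', _, hj'⟩ := mem_image.mp (h4 (mem_filter.mp hj).2)
      by_cases hjj : j' = j
      · rw [← hj', hjj]
      · exfalso
        have h5 := hdis j' j hjj
        rw [disjoint_left] at h5
        refine h5 (h3 j') ?_
        rw [hj']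
        exact h1 j
    · rw [if_neg hj]; exact h3 j
  have h3 := card_le_card hsub
  rw [Fintype.card_piFinset] at h3
  have h4 : ∀ j, (if j ∈ JE then {τ0 j} else O j : Finset ℕ).card =
      if j ∈ JE then 1 else h := by
    intro j
    split_ifs
    · simp
    · exact hO j
  rw [prod_congr rfl fun j _ => h4 j] at h3
  have hpos : 0 < h ∨ JE = ∅ := by
    by_cases h0 : 0 < h
    · exact Or.inl h0
    · right
      rw [eq_empty_iff_forall_notMem]
      intro j _
      have h5 := h1 j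
      have h6 := hO j
      have h7 : 0 < (O j).card := card_pos.mpr ⟨_, h5⟩
      omega
  have h5 : (∏ j, if j ∈ JE then 1 else h) * h ^ JE.card = h ^ Fintype.card ι := by
    have h6 : h ^ JE.card = ∏ j, if j ∈ JE then h else 1 := by
      rw [prod_ite_mem, univ_inter, prod_const]
    rw [h6, ← prod_mul_distrib]
    have h7 : ∀ j, (if j ∈ JE then 1 else h) * (if j ∈ JE then h else 1) = h := by
      intro j
      split_ifs <;> simp
    rw [prod_congr rfl fun j _ => h7 j, prod_const, card_univ]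
  rw [← h5]
  rcases hpos with hpos | hJE0
  · exact Nat.mul_le_mul h3 (Nat.pow_le_pow_right hpos hcardJE)
  · rw [hJE0] at hcardJE
    rw [card_empty, Nat.le_zero] at hcardJE
    rw [hcardJE, hJE0, card_empty, pow_zero, mul_one, mul_one]
    rw [hJE0] at h3
    exact h3

/-- Averaging over the product of the disjoint sublists. -/
theorem stageOneType [Fintype ι] [DecidableEq ι] (h m b : ℕ) (hh : 0 < h) (O : ι → Finset ℕ)
    (hO : ∀ j, (O j).card = h) (hdis : ∀ i j, i ≠ j → Disjoint (O i) (O j))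
    (E : Fin b → Finset ℕ) :
    ∃ τ : ι → ℕ, (∀ j, τ j ∈ O j) ∧
      (univ.filter fun w => m ≤ (E w).card ∧ E w ⊆ univ.image τ).card * h ^ m ≤ b := by
  classical
  by_contra hcon
  push Not at hcon
  have hT : (Fintype.piFinset O).card = h ^ Fintype.card ι := by
    rw [Fintype.card_piFinset, prod_congr rfl fun j _ => hO j, prod_const, card_univ]
  have hTpos : 0 < (Fintype.piFinset O).card := by rw [hT]; exact Nat.pow_pos hh
  have h1 : ∑ _τ ∈ Fintype.piFinset O, b <
      ∑ τ ∈ Fintype.piFinset O,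
        (univ.filter fun w => m ≤ (E w).card ∧ E w ⊆ univ.image τ).card * h ^ m :=
    sum_lt_sum_of_nonempty (card_pos.mp hTpos) fun τ hτ =>
      hcon τ fun j => (Fintype.mem_piFinset.mp hτ) j
  have h2 : ∑ τ ∈ Fintype.piFinset O,
        (univ.filter fun w => m ≤ (E w).card ∧ E w ⊆ univ.image τ).card * h ^ m =
      ∑ w, ((Fintype.piFinset O).filter
        fun τ => m ≤ (E w).card ∧ E w ⊆ univ.image τ).card * h ^ m := by
    rw [← sum_mul, ← sum_mul]
    congr 1
    simp only [card_filter]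
    exact sum_comm
  have h3 : ∀ w, ((Fintype.piFinset O).filter
        fun τ => m ≤ (E w).card ∧ E w ⊆ univ.image τ).card * h ^ m ≤ h ^ Fintype.card ι := by
    intro w
    by_cases hm : m ≤ (E w).card
    · refine le_trans ?_ (coverCount h O hO hdis (E w))
      refine Nat.mul_le_mul (card_le_card ?_) (Nat.pow_le_pow_right hh hm)
      intro τ hτ
      obtain ⟨h4, h5⟩ := mem_filter.mp hτ
      exact mem_filter.mpr ⟨h4, h5.2⟩
    · have h4 : ((Fintype.piFinset O).filter
        fun τ => m ≤ (E w).card ∧ E w ⊆ univ.image τ) = ∅ := by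
        rw [filter_eq_empty_iff]
        intro τ _ h5
        exact hm h5.1
      rw [h4]
      simp
  have h4 : ∑ w : Fin b, ((Fintype.piFinset O).filter
        fun τ => m ≤ (E w).card ∧ E w ⊆ univ.image τ).card * h ^ m ≤
      ∑ _w : Fin b, h ^ Fintype.card ι := sum_le_sum fun w _ => h3 w
  rw [sum_const, card_univ, Fintype.card_fin, smul_eq_mul] at h4
  rw [sum_const, hT, smul_eq_mul] at h1
  rw [h2] at h1
  have h5 := h1.trans_le h4
  rw [mul_comm] at h5
  exact lt_irrefl _ h5

theorem stageOne [DecidableEq ι] (J : Finset ι) (h m b : ℕ) (hh : 0 < h) (O : ι → Finset ℕ)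
    (hO : ∀ j ∈ J, J.card * h ≤ (O j).card) (E : Fin b → Finset ℕ) :
    ∃ τ : ι → ℕ, (∀ j ∈ J, τ j ∈ O j) ∧ Set.InjOn τ J ∧
      (univ.filter fun w => m ≤ (E w).card ∧ E w ⊆ J.image τ).card * h ^ m ≤ b := by
  classical
  obtain ⟨O', h1, h2⟩ := disjointSub J h O hO
  obtain ⟨τ, h3, h4⟩ := stageOneType h m b hh (fun j : {j // j ∈ J} => O' j)
    (fun j => (h1 j j.2).2) (fun i j hij => h2 i i.2 j j.2 fun h => hij (Subtype.ext h)) E
  refine ⟨fun i => if hi : i ∈ J then τ ⟨i, hi⟩ else 0, ?_, ?_, ?_⟩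
  · intro j hj
    simp only [dif_pos hj]
    exact (h1 j hj).1 (h3 ⟨j, hj⟩)
  · intro i hi j hj hij
    have hi' : i ∈ J := hi
    have hj' : j ∈ J := hj
    simp only [dif_pos hi', dif_pos hj'] at hij
    by_contra hne
    have h5 := h2 i hi' j hj' hne
    rw [disjoint_left] at h5
    refine h5 (h3 ⟨i, hi'⟩) ?_
    show τ ⟨i, hi'⟩ ∈ O' j
    rw [hij]
    exact h3 ⟨j, hj'⟩
  · refine le_trans (Nat.mul_le_mul_right _ (card_le_card ?_)) h4
    intro w hw
    obtain ⟨_, hw1, hw2⟩ := mem_filter.mp hw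
    refine mem_filter.mpr ⟨mem_univ _, hw1, fun x hx => ?_⟩
    obtain ⟨j, hj, hjx⟩ := mem_image.mp (hw2 hx)
    simp only [dif_pos hj] at hjx
    exact mem_image.mpr ⟨⟨j, hj⟩, mem_univ _, hjx⟩

/-- `avoid'` for lists indexed by a finite set. -/
theorem avoidOn [DecidableEq ι] (J : Finset ι) (r m : ℕ) (K : ι → Finset ℕ)
    (hsur : ∀ I : Finset ι, I ⊆ J → I.Nonempty → I.card + m ≤ (I.biUnion K).card)
    (F : Finset (Finset ℕ)) (hF : F.card * (m + r) ^ m < J.card ^ m) :
    ∃ ψ : ι → ℕ, Set.InjOn ψ J ∧ (∀ i ∈ J, ψ i ∈ K i) ∧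
      ∀ Y ∈ F, J.card ≤ Y.card + r → ¬ Y ⊆ J.image ψ := by
  classical
  obtain ⟨ψ, ⟨h1, h2⟩, h3⟩ := avoid' r m (fun i : {i // i ∈ J} => K i) (by
    intro I hI
    have h1 := hsur (I.map (Function.Embedding.subtype _)) (by
      intro x hx
      obtain ⟨y, _, rfl⟩ := mem_map.mp hx
      exact y.2) (by simpa using hI)
    rw [card_map] at h1
    convert h1 using 2
    ext x
    simp) F (by rw [Fintype.card_coe]; exact hF)
  refine ⟨fun i => if hi : i ∈ J then ψ ⟨i, hi⟩ else 0, ?_, ?_, ?_⟩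
  · intro i hi j hj hij
    have hi' : i ∈ J := hi
    have hj' : j ∈ J := hj
    simp only [dif_pos hi', dif_pos hj'] at hij
    exact congrArg Subtype.val (h1 hij)
  · intro i hi
    simp only [dif_pos hi]
    exact h2 ⟨i, hi⟩
  · intro Y hY hc hsub
    refine h3 Y hY (by rw [Fintype.card_coe]; exact hc) fun x hx => ?_
    obtain ⟨j, hj, hjx⟩ := mem_image.mp (hsub hx)
    simp only [dif_pos hj] at hjx
    exact mem_image.mpr ⟨⟨j, hj⟩, mem_univ _, hjx⟩

end Pool.Agent.R64.OhbaCore
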