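import Pool.Agent.R64.OhbaCore

/-!
# The core colouring theorem for `K_t ∨ K_{a,b}`, second part
-/

set_option autoImplicit false

namespace Pool.Agent.R64.OhbaCore

open Finset Pool.Agent.R64.Avoid

/-- The conclusion of the core theorem. -/
def Col {t a b : ℕ} (K : Fin t → Finset ℕ) (L : Fin a → Finset ℕ) (X : Fin b → Finset ℕ) : Prop :=
  ∃ (cK : Fin t → ℕ) (cA : Fin a → ℕ), Function.Injective cK ∧ (∀ i, cK i ∈ K i) ∧
    (∀ v, cA v ∈ L v) ∧ (∀ i v, cK i ≠ cA v) ∧
    ∀ w, ∃ x ∈ X w, (∀ i, cK i ≠ x) ∧ ∀ v, cA v ≠ x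

/-- Case II: the lists of the clique have a large surplus. -/
theorem caseTwo (s a N t b Q : ℕ) (hQ : Q = 2 * s + 2 + a)
    (ht : Q * N ≤ t) (hb : b < N ^ (2 * s + 2))
    (K : Fin t → Finset ℕ) (L : Fin a → Finset ℕ) (X : Fin b → Finset ℕ)
    (hL : ∀ v, (L v).card = t + s + 2) (hX : ∀ w, (X w).card = t + s + 2)
    (hsur : ∀ J : Finset (Fin t), J.Nonempty → J.card + Q ≤ (J.biUnion K).card) :
    Col K L X := by
  classical
  have hLne : ∀ v, ∃ x, x ∈ L v := fun v => by
    have : 0 < (L v).card := by rw [hL]; omega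
    exact card_pos.mp this
  choose cA hcA using hLne
  obtain ⟨CA, hCA⟩ : ∃ CA : Finset ℕ, CA = univ.image cA := ⟨_, rfl⟩
  have hCAc : CA.card ≤ a := by
    rw [hCA]; exact card_image_le.trans (by simp)
  have hmem : ∀ v, cA v ∈ CA := fun v => by rw [hCA]; exact mem_image_of_mem _ (mem_univ _)
  have h1 : ∀ J : Finset (Fin t), J.Nonempty →
      J.card + (2 * s + 2) ≤ (J.biUnion fun i => K i \ CA).card := by
    intro J hJ
    have h2 := hsur J hJ
    have h3 : J.biUnion K \ CA ⊆ J.biUnion fun i => K i \ CA := by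
      intro x hx
      obtain ⟨hx1, hx2⟩ := mem_sdiff.mp hx
      obtain ⟨i, hi, hxi⟩ := mem_biUnion.mp hx1
      exact mem_biUnion.mpr ⟨i, hi, mem_sdiff.mpr ⟨hxi, hx2⟩⟩
    have h4 := card_le_card h3
    have h5 := le_card_sdiff CA (J.biUnion K)
    omega
  obtain ⟨ψ, ⟨h2, h3⟩, h4⟩ := avoid' a (2 * s + 2) (fun i => K i \ CA) h1
    (univ.image fun w => X w \ CA) (by
      rw [Fintype.card_fin]
      have h5 : (univ.image fun w => X w \ CA).card ≤ b := card_image_le.trans (by simp)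
      calc (univ.image fun w => X w \ CA).card * (2 * s + 2 + a) ^ (2 * s + 2)
          ≤ b * (2 * s + 2 + a) ^ (2 * s + 2) := Nat.mul_le_mul_right _ h5
        _ < N ^ (2 * s + 2) * (2 * s + 2 + a) ^ (2 * s + 2) :=
            Nat.mul_lt_mul_of_pos_right hb (Nat.pow_pos (by omega))
        _ = (Q * N) ^ (2 * s + 2) := by rw [hQ, mul_pow, mul_comm]
        _ ≤ t ^ (2 * s + 2) := Nat.pow_le_pow_left ht _)
  refine ⟨ψ, cA, h2, fun i => (mem_sdiff.mp (h3 i)).1, hcA, ?_, ?_⟩
  · intro i v h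
    refine (mem_sdiff.mp (h3 i)).2 ?_
    rw [h]
    exact hmem v
  · intro w
    by_contra hcon
    push Not at hcon
    refine h4 (X w \ CA) (mem_image_of_mem _ (mem_univ _)) ?_ ?_
    · rw [Fintype.card_fin]
      have h5 := le_card_sdiff CA (X w)
      rw [hX] at h5
      omega
    · intro x hx
      obtain ⟨hx1, hx2⟩ := mem_sdiff.mp hx
      by_contra hx3
      obtain ⟨v, hv⟩ := hcon x hx1 (by
        intro i hi
        exact hx3 (mem_image.mpr ⟨i, mem_univ _, hi⟩))
      exact hx2 (by rw [← hv]; exact hmem v)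

/-- Case I: there is a set of clique vertices whose lists have a small union. -/
theorem caseOne (s a N t b Q M : ℕ) (hQ : Q = 2 * s + 2 + a) (hM : M = s + 1 + Q + a)
    (hN : 1 ≤ N) (ht : (1 + Q + a * Q + (a + 1) * ((Q + a) * M)) * N ≤ t)
    (hb : b < N ^ (2 * s + 2))
    (K : Fin t → Finset ℕ) (L : Fin a → Finset ℕ) (X : Fin b → Finset ℕ)
    (hK : ∀ i, (K i).card = t + s + 2)
    (hL : ∀ v, (L v).card = t + s + 2) (hX : ∀ w, (X w).card = t + s + 2)
    (J : Finset (Fin t)) (hJne : J.Nonempty) (hJ : (J.biUnion K).card < J.card + Q) :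
    Col K L X := by
  classical
  obtain ⟨Λ, hΛ⟩ : ∃ Λ, Λ = J.biUnion K := ⟨_, rfl⟩
  obtain ⟨h', hh'⟩ : ∃ h', h' = M * N := ⟨_, rfl⟩
  obtain ⟨h, hh⟩ : ∃ h, h = (Q + a) * h' := ⟨_, rfl⟩
  have hMpos : 0 < M := by omega
  have hh'pos : 0 < h' := by rw [hh']; exact Nat.mul_pos hMpos hN
  have ht2 : 1 + Q + a * Q + (a + 1) * h ≤ t := by
    refine le_trans ?_ ht
    rw [hh, hh']
    have h1 : 1 + Q + a * Q ≤ (1 + Q + a * Q) * N := Nat.le_mul_of_pos_right _ hN
    have h2 : (1 + Q + a * Q + (a + 1) * ((Q + a) * M)) * N =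
        (1 + Q + a * Q) * N + (a + 1) * ((Q + a) * (M * N)) := by ring
    rw [h2]
    omega
  have htN : Q + N ≤ t := by
    refine le_trans ?_ ht
    have h1 : Q ≤ Q * N := Nat.le_mul_of_pos_right _ hN
    have h2 : (1 + Q + a * Q + (a + 1) * ((Q + a) * M)) * N =
        N + Q * N + (a * Q + (a + 1) * ((Q + a) * M)) * N := by ring
    rw [h2]
    omega
  have hah : (a + 1) * h = a * h + h := by ring
  rw [← hΛ] at hJ
  have hKΛ : ∀ i ∈ J, K i ⊆ Λ := fun i hi => by rw [hΛ]; exact subset_biUnion_of_mem K hi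
  have hΛk : t + s + 2 ≤ Λ.card := by
    obtain ⟨i, hi⟩ := hJne
    rw [← hK i]
    exact card_le_card (hKΛ i hi)
  have hJt : J.card ≤ t := (card_le_univ J).trans (by simp)
  obtain ⟨few, hfew⟩ : ∃ few : Finset (Fin t),
    few = univ.filter fun i => i ∉ J ∧ (K i \ Λ).card < h := ⟨_, rfl⟩
  obtain ⟨outK, houtK⟩ : ∃ outK : Finset (Fin t),
    outK = univ.filter fun i => i ∉ J ∧ h ≤ (K i \ Λ).card := ⟨_, rfl⟩
  obtain ⟨outA, houtA⟩ : ∃ outA : Finset (Fin a),
    outA = univ.filter fun v => h ≤ (L v \ Λ).card := ⟨_, rfl⟩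
  have hfewm : ∀ i, i ∈ few ↔ i ∉ J ∧ (K i \ Λ).card < h := fun i => by
    rw [hfew]; simp
  have houtKm : ∀ i, i ∈ outK ↔ i ∉ J ∧ h ≤ (K i \ Λ).card := fun i => by
    rw [houtK]; simp
  have houtAm : ∀ v, v ∈ outA ↔ h ≤ (L v \ Λ).card := fun v => by
    rw [houtA]; simp
  have hsum : J.card + few.card + outK.card = t := by
    have h1 : (univ : Finset (Fin t)) = (J ∪ few) ∪ outK := by
      ext i
      simp only [mem_univ, mem_union, hfewm, houtKm, true_iff]
      by_cases hi : i ∈ J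
      · exact Or.inl (Or.inl hi)
      · rcases lt_or_ge (K i \ Λ).card h with h2 | h2
        · exact Or.inl (Or.inr ⟨hi, h2⟩)
        · exact Or.inr ⟨hi, h2⟩
    have h2 : Disjoint J few := by
      rw [disjoint_left]; intro i hi hi2
      exact ((hfewm i).mp hi2).1 hi
    have h3 : Disjoint (J ∪ few) outK := by
      rw [disjoint_left]; intro i hi hi2
      obtain ⟨h4, h5⟩ := (houtKm i).mp hi2
      rcases mem_union.mp hi with h6 | h6
      · exact h4 h6
      · have := ((hfewm i).mp h6).2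
        omega
    have h4 : (univ : Finset (Fin t)).card = t := by simp
    rw [← card_union_of_disjoint h2, ← card_union_of_disjoint h3, ← h1, h4]
  have houtAc : outA.card ≤ a := (card_le_univ outA).trans (by simp)
  -- the colours of `few`
  obtain ⟨φ0, hφ1, hφ2⟩ := hallOn few (fun i => K i ∩ Λ) (by
    intro i hi
    have h1 := card_sdiff_add_card_inter (K i) Λ
    rw [hK i] at h1
    have h2 := ((hfewm i).mp hi).2
    omega)
  obtain ⟨F0, hF0⟩ : ∃ F0, F0 = few.image φ0 := ⟨_, rfl⟩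
  have hF0c : F0.card ≤ few.card := by rw [hF0]; exact card_image_le
  have hF0m : ∀ i ∈ few, φ0 i ∈ F0 := fun i hi => by rw [hF0]; exact mem_image_of_mem _ hi
  -- the common colour
  obtain ⟨z, hzΛ, hzF0, hz⟩ : ∃ z ∈ Λ, z ∉ F0 ∧ ∀ v, v ∉ outA → z ∈ L v := by
    by_contra hcon
    push Not at hcon
    have h1 : Λ ⊆ F0 ∪ (univ.filter fun v => v ∉ outA).biUnion fun v => Λ \ L v := by
      intro x hx
      by_cases hx2 : x ∈ F0
      · exact mem_union_left _ hx2
      · obtain ⟨v, hv1, hv2⟩ := hcon x hx hx2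
        exact mem_union_right _ (mem_biUnion.mpr
          ⟨v, mem_filter.mpr ⟨mem_univ _, hv1⟩, mem_sdiff.mpr ⟨hx, hv2⟩⟩)
    have h2 : ((univ.filter fun v => v ∉ outA).biUnion fun v => Λ \ L v).card ≤
        (univ.filter fun v => v ∉ outA).card * (Q + h) := by
      refine card_biUnion_le_card_mul _ _ _ fun v hv => ?_
      have h3 := (mem_filter.mp hv).2
      rw [houtAm] at h3
      have h4 := card_sdiff_add_card_inter (L v) Λ
      have h5 := card_sdiff_add_card_inter Λ (L v)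
      rw [inter_comm] at h5
      rw [hL v] at h4
      omega
    have h3 : (univ.filter fun v => v ∉ outA).card ≤ a :=
      (card_le_univ _).trans (by simp)
    have h4 : (univ.filter fun v => v ∉ outA).card * (Q + h) ≤ a * (Q + h) :=
      Nat.mul_le_mul_right _ h3
    have h5 := (card_le_card h1).trans (card_union_le _ _)
    have h6 : a * (Q + h) = a * Q + a * h := by ring
    omega
  -- the outliers
  obtain ⟨O, hO⟩ : ∃ O : Fin t ⊕ Fin a → Finset ℕ,
    O = Sum.elim (fun i => K i \ Λ) (fun v => L v \ Λ) := ⟨_, rfl⟩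
  have hOl : ∀ i, O (Sum.inl i) = K i \ Λ := fun i => by rw [hO]; rfl
  have hOr : ∀ v, O (Sum.inr v) = L v \ Λ := fun v => by rw [hO]; rfl
  obtain ⟨m, hm⟩ : ∃ m, m = outK.card + s + 1 := ⟨_, rfl⟩
  obtain ⟨τ, hτ1, hτ2, hτ3⟩ := stageOne (outK.disjSum outA) h' m b hh'pos O (by
    intro j hj
    have h1 : (outK.disjSum outA).card * h' ≤ h := by
      rw [hh, card_disjSum]
      apply Nat.mul_le_mul_right
      omega
    refine h1.trans ?_
    rcases j with i | v
    · rw [hOl]
      rw [inl_mem_disjSum] at hj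
      exact ((houtKm i).mp hj).2
    · rw [hOr]
      rw [inr_mem_disjSum] at hj
      exact (houtAm v).mp hj) (fun w => X w \ Λ)
  obtain ⟨alive, halive⟩ : ∃ alive : Finset (Fin b), alive =
    univ.filter fun w => m ≤ (X w \ Λ).card ∧ X w \ Λ ⊆ (outK.disjSum outA).image τ := ⟨_, rfl⟩
  rw [← halive] at hτ3
  have hinsc : (insert z F0).card ≤ few.card + 1 :=
    (card_insert_le _ _).trans (by omega)
  obtain ⟨ψ, hψ1, hψ2, hψ3⟩ := avoidOn J a m (fun i => K i \ insert z F0) (by
    intro I hI hIne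
    have h1 := card_le_card hI
    obtain ⟨i, hi⟩ := hIne
    have h2 : K i \ insert z F0 ⊆ I.biUnion fun i => K i \ insert z F0 :=
      subset_biUnion_of_mem (fun i => K i \ insert z F0) hi
    have h3 := card_le_card h2
    have h4 := le_card_sdiff (insert z F0) (K i)
    rw [hK i] at h4
    omega) (alive.image fun w => (X w ∩ Λ) \ insert z F0) (by
    have h1 : (alive.image fun w => (X w ∩ Λ) \ insert z F0).card ≤ alive.card :=
      card_image_le
    refine lt_of_le_of_lt (Nat.mul_le_mul_right _ h1) ?_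
    have h2 : alive.card * (m + a) ^ m * h' ^ m < J.card ^ m * h' ^ m := by
      calc alive.card * (m + a) ^ m * h' ^ m
          = (alive.card * h' ^ m) * (m + a) ^ m := by ring
        _ ≤ b * (m + a) ^ m := Nat.mul_le_mul_right _ hτ3
        _ < N ^ (2 * s + 2) * (m + a) ^ m :=
            Nat.mul_lt_mul_of_pos_right hb (Nat.pow_pos (by omega))
        _ ≤ N ^ (2 * m) * (m + a) ^ m :=
            Nat.mul_le_mul_right _ (Nat.pow_le_pow_right hN (by omega))
        _ = N ^ m * (N * (m + a)) ^ m := by rw [two_mul, pow_add, mul_pow]; ring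
        _ ≤ J.card ^ m * h' ^ m := by
            refine Nat.mul_le_mul (Nat.pow_le_pow_left (by omega) _)
              (Nat.pow_le_pow_left ?_ _)
            rw [hh', mul_comm]
            exact Nat.mul_le_mul_right _ (by omega)
    exact Nat.lt_of_mul_lt_mul_right h2)
  -- the colouring
  have hψΛ : ∀ i ∈ J, ψ i ∈ Λ := fun i hi => hKΛ i hi (mem_sdiff.mp (hψ2 i hi)).1
  have hψn : ∀ i ∈ J, ψ i ∉ insert z F0 := fun i hi => (mem_sdiff.mp (hψ2 i hi)).2
  have hτl : ∀ i ∈ outK, τ (Sum.inl i) ∈ K i \ Λ := fun i hi => by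
    rw [← hOl]; exact hτ1 _ (inl_mem_disjSum.mpr hi)
  have hτr : ∀ v ∈ outA, τ (Sum.inr v) ∈ L v \ Λ := fun v hv => by
    rw [← hOr]; exact hτ1 _ (inr_mem_disjSum.mpr hv)
  have hout : ∀ i, i ∉ J → i ∉ few → i ∈ outK := by
    intro i hi hi2
    rw [houtKm]
    refine ⟨hi, ?_⟩
    by_contra h1
    exact hi2 ((hfewm i).mpr ⟨hi, not_le.mp h1⟩)
  have hfJ : ∀ i ∈ few, i ∉ J := fun i hi => ((hfewm i).mp hi).1
  obtain ⟨cK, hcK⟩ : ∃ cK : Fin t → ℕ, cK = fun i =>
    if i ∈ J then ψ i else if i ∈ few then φ0 i else τ (Sum.inl i) := ⟨_, rfl⟩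
  obtain ⟨cA, hcA⟩ : ∃ cA : Fin a → ℕ, cA = fun v =>
    if v ∈ outA then τ (Sum.inr v) else z := ⟨_, rfl⟩
  have hcK1 : ∀ i ∈ J, cK i = ψ i := fun i hi => by rw [hcK]; simp [hi]
  have hcK2 : ∀ i ∈ few, cK i = φ0 i := fun i hi => by rw [hcK]; simp [hi, hfJ i hi]
  have hcK3 : ∀ i, i ∉ J → i ∉ few → cK i = τ (Sum.inl i) := fun i hi hi2 => by
    rw [hcK]; simp [hi, hi2]
  have hcA1 : ∀ v ∈ outA, cA v = τ (Sum.inr v) := fun v hv => by rw [hcA]; simp [hv]
  have hcA2 : ∀ v, v ∉ outA → cA v = z := fun v hv => by rw [hcA]; simp [hv]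
  refine ⟨cK, cA, ?_, ?_, ?_, ?_, ?_⟩
  · intro i j hij
    by_cases hi : i ∈ J
    · rw [hcK1 i hi] at hij
      by_cases hj : j ∈ J
      · rw [hcK1 j hj] at hij
        exact hψ1 hi hj hij
      · by_cases hj2 : j ∈ few
        · rw [hcK2 j hj2] at hij
          exact absurd (mem_insert_of_mem (by rw [hij]; exact hF0m j hj2)) (hψn i hi)
        · rw [hcK3 j hj hj2] at hij
          exact absurd (by rw [← hij]; exact hψΛ i hi) (mem_sdiff.mp (hτl j (hout j hj hj2))).2
    · by_cases hi2 : i ∈ few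
      · rw [hcK2 i hi2] at hij
        by_cases hj : j ∈ J
        · rw [hcK1 j hj] at hij
          exact absurd (mem_insert_of_mem (by rw [← hij]; exact hF0m i hi2)) (hψn j hj)
        · by_cases hj2 : j ∈ few
          · rw [hcK2 j hj2] at hij
            exact hφ1 hi2 hj2 hij
          · rw [hcK3 j hj hj2] at hij
            exact absurd (by rw [← hij]; exact (mem_inter.mp (hφ2 i hi2)).2)
              (mem_sdiff.mp (hτl j (hout j hj hj2))).2
      · rw [hcK3 i hi hi2] at hij
        by_cases hj : j ∈ J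
        · rw [hcK1 j hj] at hij
          exact absurd (by rw [hij]; exact hψΛ j hj) (mem_sdiff.mp (hτl i (hout i hi hi2))).2
        · by_cases hj2 : j ∈ few
          · rw [hcK2 j hj2] at hij
            exact absurd (by rw [hij]; exact (mem_inter.mp (hφ2 j hj2)).2)
              (mem_sdiff.mp (hτl i (hout i hi hi2))).2
          · rw [hcK3 j hj hj2] at hij
            exact Sum.inl_injective (hτ2
              (mem_coe.mpr (inl_mem_disjSum.mpr (hout i hi hi2)))
              (mem_coe.mpr (inl_mem_disjSum.mpr (hout j hj hj2))) hij)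
  · intro i
    by_cases hi : i ∈ J
    · rw [hcK1 i hi]; exact (mem_sdiff.mp (hψ2 i hi)).1
    · by_cases hi2 : i ∈ few
      · rw [hcK2 i hi2]; exact (mem_inter.mp (hφ2 i hi2)).1
      · rw [hcK3 i hi hi2]; exact (mem_sdiff.mp (hτl i (hout i hi hi2))).1
  · intro v
    by_cases hv : v ∈ outA
    · rw [hcA1 v hv]; exact (mem_sdiff.mp (hτr v hv)).1
    · rw [hcA2 v hv]; exact hz v hv
  · intro i v hiv
    by_cases hv : v ∈ outA
    · rw [hcA1 v hv] at hiv
      have hτv := mem_sdiff.mp (hτr v hv)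
      rw [← hiv] at hτv
      by_cases hi : i ∈ J
      · rw [hcK1 i hi] at hτv; exact hτv.2 (hψΛ i hi)
      · by_cases hi2 : i ∈ few
        · rw [hcK2 i hi2] at hτv; exact hτv.2 (mem_inter.mp (hφ2 i hi2)).2
        · rw [hcK3 i hi hi2] at hiv
          have := hτ2 (mem_coe.mpr (inl_mem_disjSum.mpr (hout i hi hi2)))
            (mem_coe.mpr (inr_mem_disjSum.mpr hv)) hiv
          exact absurd this Sum.inl_ne_inr
    · rw [hcA2 v hv] at hiv
      by_cases hi : i ∈ J
      · rw [hcK1 i hi] at hiv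
        exact hψn i hi (by rw [hiv]; exact mem_insert_self _ _)
      · by_cases hi2 : i ∈ few
        · rw [hcK2 i hi2] at hiv
          exact hzF0 (by rw [← hiv]; exact hF0m i hi2)
        · rw [hcK3 i hi hi2] at hiv
          exact (mem_sdiff.mp (hτl i (hout i hi hi2))).2 (by rw [hiv]; exact hzΛ)
  · intro w
    by_contra hcon
    push Not at hcon
    have hcov : ∀ x ∈ X w, x ∈ J.image ψ ∨ x ∈ insert z F0 ∨
        (x ∈ (outK.disjSum outA).image τ ∧ x ∉ Λ) := by
      intro x hx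
      by_cases hxK : ∃ i, cK i = x
      · obtain ⟨i, rfl⟩ := hxK
        by_cases hi : i ∈ J
        · left; rw [hcK1 i hi]; exact mem_image_of_mem _ hi
        · by_cases hi2 : i ∈ few
          · right; left; rw [hcK2 i hi2]; exact mem_insert_of_mem (hF0m i hi2)
          · right; right
            rw [hcK3 i hi hi2]
            exact ⟨mem_image_of_mem _ (inl_mem_disjSum.mpr (hout i hi hi2)),
              (mem_sdiff.mp (hτl i (hout i hi hi2))).2⟩
      · obtain ⟨v, rfl⟩ := hcon x hx (fun i hi => hxK ⟨i, hi⟩)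
        by_cases hv : v ∈ outA
        · right; right
          rw [hcA1 v hv]
          exact ⟨mem_image_of_mem _ (inr_mem_disjSum.mpr hv), (mem_sdiff.mp (hτr v hv)).2⟩
        · right; left
          rw [hcA2 v hv]
          exact mem_insert_self _ _
    have hinsΛ : insert z F0 ⊆ Λ := by
      intro x hx
      rcases mem_insert.mp hx with rfl | hx
      · exact hzΛ
      · rw [hF0] at hx
        obtain ⟨i, hi, rfl⟩ := mem_image.mp hx
        exact (mem_inter.mp (hφ2 i hi)).2
    have hout2 : X w \ Λ ⊆ (outK.disjSum outA).image τ := by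
      intro x hx
      obtain ⟨hx1, hx2⟩ := mem_sdiff.mp hx
      rcases hcov x hx1 with h1 | h1 | h1
      · obtain ⟨i, hi, rfl⟩ := mem_image.mp h1
        exact absurd (hψΛ i hi) hx2
      · exact absurd (hinsΛ h1) hx2
      · exact h1.1
    have hin2 : (X w ∩ Λ) \ insert z F0 ⊆ J.image ψ := by
      intro x hx
      obtain ⟨hx1, hx2⟩ := mem_sdiff.mp hx
      obtain ⟨hx3, hx4⟩ := mem_inter.mp hx1
      rcases hcov x hx3 with h1 | h1 | h1
      · exact h1
      · exact absurd h1 hx2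
      · exact absurd hx4 h1.2
    have hc1 := card_sdiff_add_card_inter (X w) Λ
    rw [hX w] at hc1
    have hc2 := (card_le_card hin2).trans card_image_le
    have hc3 := le_card_sdiff (insert z F0) (X w ∩ Λ)
    have hc4 := (card_le_card hout2).trans card_image_le
    rw [card_disjSum] at hc4
    have hw : w ∈ alive := by
      rw [halive]
      refine mem_filter.mpr ⟨mem_univ _, ?_, hout2⟩
      omega
    exact hψ3 _ (mem_image_of_mem _ hw) (by omega) hin2

/-- **The core colouring theorem.** -/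
theorem core (s a N t b : ℕ) (hN : 1 ≤ N)
    (ht : (1 + (2 * s + 2 + a) + a * (2 * s + 2 + a) +
      (a + 1) * ((2 * s + 2 + a + a) * (s + 1 + (2 * s + 2 + a) + a))) * N ≤ t)
    (hb : b < N ^ (2 * s + 2))
    (K : Fin t → Finset ℕ) (L : Fin a → Finset ℕ) (X : Fin b → Finset ℕ)
    (hK : ∀ i, (K i).card = t + s + 2)
    (hL : ∀ v, (L v).card = t + s + 2) (hX : ∀ w, (X w).card = t + s + 2) :
    Col K L X := by
  by_cases hsur : ∀ J : Finset (Fin t), J.Nonempty →
      J.card + (2 * s + 2 + a) ≤ (J.biUnion K).card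
  · refine caseTwo s a N t b _ rfl (le_trans (Nat.mul_le_mul_right _ ?_) ht) hb K L X hL hX hsur
    omega
  · push Not at hsur
    obtain ⟨J, hJne, hJ⟩ := hsur
    exact caseOne s a N t b _ _ rfl rfl hN ht hb K L X hK hL hX J hJne hJ

end Pool.Agent.R64.OhbaCore
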