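import Mathlib

/-!
# A colouring lemma for separated lists

If all strongly independent sets of a hypergraph are small and all small vertex sets span few
edges, then separated lists of size three admit a proper colouring.
-/

set_option autoImplicit false

namespace Pool.Agent.R64.SepColor

open Finset

variable {V : Type*} [Fintype V] [DecidableEq V]

/-- The vertices of `U` whose list contains `z`. -/
def VU (L : V → Finset ℕ) (U : Finset V) (z : ℕ) : Finset V := U.filter fun v => z ∈ L v

/-- Every nonempty set contains a vertex with at most one big colour. -/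
theorem exists_few_big (L : V → Finset ℕ) (hL : ∀ v, (L v).card = 3) (A B : ℕ)
    (hAB : 9 * Fintype.card V * B < 2 * A ^ 2)
    (hB : ∀ z z', z ≠ z' → (univ.filter fun v => z ∈ L v ∧ z' ∈ L v).card ≤ B)
    (U : Finset V) (hU : U.Nonempty) :
    ∃ v ∈ U, ((L v).filter fun z => A ≤ (VU L U z).card).card ≤ 1 := by
  classical
  by_contra hcon
  push Not at hcon
  obtain ⟨P, hP⟩ : ∃ P : Finset ℕ, P = U.biUnion L := ⟨_, rfl⟩
  obtain ⟨Big, hBig⟩ : ∃ Big : Finset ℕ, Big = P.filter fun z => A ≤ (VU L U z).card := ⟨_, rfl⟩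
  have hLP : ∀ v ∈ U, L v ⊆ P := fun v hv => by rw [hP]; exact subset_biUnion_of_mem L hv
  have hbv : ∀ v ∈ U, ((L v).filter fun z => A ≤ (VU L U z).card) =
      Big.filter fun z => z ∈ L v := by
    intro v hv
    ext z
    rw [hBig]
    simp only [mem_filter]
    constructor
    · rintro ⟨h1, h2⟩; exact ⟨⟨hLP v hv h1, h2⟩, h1⟩
    · rintro ⟨⟨_, h2⟩, h3⟩; exact ⟨h3, h2⟩
  -- the number of big colours
  have h1 : Big.card * A ≤ 3 * U.card := by
    calc Big.card * A = ∑ z ∈ Big, A := by rw [sum_const, smul_eq_mul]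
      _ ≤ ∑ z ∈ Big, (VU L U z).card := by
          refine sum_le_sum fun z hz => ?_
          rw [hBig] at hz
          exact (mem_filter.mp hz).2
      _ = ∑ v ∈ U, (Big.filter fun z => z ∈ L v).card := by
          simp only [VU, card_filter]
          exact sum_comm
      _ ≤ ∑ v ∈ U, 3 := by
          refine sum_le_sum fun v _ => ?_
          rw [← hL v]
          apply card_le_card
          intro z hz
          exact (mem_filter.mp hz).2
      _ = 3 * U.card := by rw [sum_const, smul_eq_mul, mul_comm]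
  -- pairs of big colours
  have h2 : 2 * U.card ≤ Big.card ^ 2 * B := by
    calc 2 * U.card = ∑ v ∈ U, 2 := by rw [sum_const, smul_eq_mul, mul_comm]
      _ ≤ ∑ v ∈ U, ((Big.filter fun z => z ∈ L v).offDiag).card := by
          refine sum_le_sum fun v hv => ?_
          have h3 := hcon v hv
          rw [hbv v hv] at h3
          rw [offDiag_card]
          have h4 : 2 ≤ (Big.filter fun z => z ∈ L v).card := h3
          have h5 : (Big.filter fun z => z ∈ L v).card * (Big.filter fun z => z ∈ L v).card -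
              (Big.filter fun z => z ∈ L v).card =
              (Big.filter fun z => z ∈ L v).card * ((Big.filter fun z => z ∈ L v).card - 1) := by
            rw [Nat.mul_sub, mul_one]
          rw [h5]
          calc 2 = 2 * 1 := by ring
            _ ≤ _ := Nat.mul_le_mul h4 (by omega)
      _ = ∑ v ∈ U, ∑ q ∈ Big.offDiag, if q.1 ∈ L v ∧ q.2 ∈ L v then 1 else 0 := by
          refine sum_congr rfl fun v _ => ?_
          rw [← card_filter]
          congr 1
          ext ⟨z, z'⟩
          simp only [mem_offDiag, mem_filter]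
          tauto
      _ = ∑ q ∈ Big.offDiag, (U.filter fun v => q.1 ∈ L v ∧ q.2 ∈ L v).card := by
          rw [sum_comm]
          simp only [card_filter]
      _ ≤ ∑ q ∈ Big.offDiag, B := by
          refine sum_le_sum fun q hq => ?_
          refine le_trans (card_le_card ?_) (hB q.1 q.2 (mem_offDiag.mp hq).2.2)
          exact filter_subset_filter _ (subset_univ _)
      _ = Big.offDiag.card * B := by rw [sum_const, smul_eq_mul]
      _ ≤ Big.card ^ 2 * B := by
          apply Nat.mul_le_mul_right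
          rw [offDiag_card, sq]
          exact Nat.sub_le _ _
  have hUpos : 0 < U.card := hU.card_pos
  have hUV : U.card ≤ Fintype.card V := card_le_univ U
  have h3 : (Big.card * A) ^ 2 ≤ (3 * U.card) ^ 2 := Nat.pow_le_pow_left h1 2
  have h4 : 2 * A ^ 2 * U.card ≤ 9 * U.card * B * U.card := by
    calc 2 * A ^ 2 * U.card = (2 * U.card) * A ^ 2 := by ring
      _ ≤ (Big.card ^ 2 * B) * A ^ 2 := Nat.mul_le_mul_right _ h2
      _ = (Big.card * A) ^ 2 * B := by ring
      _ ≤ (3 * U.card) ^ 2 * B := Nat.mul_le_mul_right _ h3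
      _ = 9 * U.card * B * U.card := by ring
  have h5 := Nat.le_of_mul_le_mul_right h4 hUpos
  have h6 : 9 * U.card * B ≤ 9 * Fintype.card V * B :=
    Nat.mul_le_mul_right _ (Nat.mul_le_mul_left _ hUV)
  omega

/-- Peeling: sublists of size at least two in which every colour is used by few vertices. -/
theorem peel (L : V → Finset ℕ) (hL : ∀ v, (L v).card = 3) (A B : ℕ) (hA : 0 < A)
    (hAB : 9 * Fintype.card V * B < 2 * A ^ 2)
    (hB : ∀ z z', z ≠ z' → (univ.filter fun v => z ∈ L v ∧ z' ∈ L v).card ≤ B) :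
    ∀ (m : ℕ) (U : Finset V), U.card = m → ∃ L' : V → Finset ℕ,
      (∀ v ∈ U, L' v ⊆ L v ∧ 2 ≤ (L' v).card) ∧ ∀ z, (VU L' U z).card < A := by
  classical
  intro m
  induction m with
  | zero =>
    intro U hU
    rw [card_eq_zero] at hU
    subst hU
    exact ⟨L, by simp, fun z => by simpa [VU] using hA⟩
  | succ m ih =>
    intro U hU
    have hne : U.Nonempty := by rw [← card_pos]; omega
    obtain ⟨v, hv, hbig⟩ := exists_few_big L hL A B hAB hB U hne
    obtain ⟨L', h1, h2⟩ := ih (U.erase v) (by rw [card_erase_of_mem hv]; omega)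
    refine ⟨Function.update L' v ((L v).filter fun z => (VU L U z).card < A), ?_, ?_⟩
    · intro w hw
      by_cases hwv : w = v
      · subst hwv
        rw [Function.update_self]
        refine ⟨filter_subset _ _, ?_⟩
        have h3 := card_filter_add_card_filter_not (s := L w)
          (fun z => A ≤ (VU L U z).card)
        rw [hL w] at h3
        have h4 : ((L w).filter fun z => ¬ A ≤ (VU L U z).card) =
            (L w).filter fun z => (VU L U z).card < A := by
          refine filter_congr fun z _ => ?_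
          exact not_le
        rw [h4] at h3
        omega
      · rw [Function.update_of_ne hwv]
        exact h1 w (mem_erase.mpr ⟨hwv, hw⟩)
    · intro z
      by_cases hz : z ∈ (L v).filter fun z => (VU L U z).card < A
      · refine lt_of_le_of_lt (card_le_card ?_) (mem_filter.mp hz).2
        intro w hw
        obtain ⟨hwU, hwz⟩ := mem_filter.mp hw
        refine mem_filter.mpr ⟨hwU, ?_⟩
        by_cases hwv : w = v
        · rw [hwv]; exact (mem_filter.mp hz).1
        · rw [Function.update_of_ne hwv] at hwz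
          exact (h1 w (mem_erase.mpr ⟨hwv, hwU⟩)).1 hwz
      · refine lt_of_le_of_lt (card_le_card ?_) (h2 z)
        intro w hw
        obtain ⟨hwU, hwz⟩ := mem_filter.mp hw
        by_cases hwv : w = v
        · subst hwv
          rw [Function.update_self] at hwz
          exact absurd hwz hz
        · rw [Function.update_of_ne hwv] at hwz
          exact mem_filter.mpr ⟨mem_erase.mpr ⟨hwv, hwU⟩, hwz⟩

/-- **The colouring lemma.** -/
theorem colour (E : Finset (Finset V)) (L : V → Finset ℕ) (hL : ∀ v, (L v).card = 3) (A B : ℕ)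
    (hA : 0 < A) (hAB : 9 * Fintype.card V * B < 2 * A ^ 2)
    (hsep : ∀ u v, u ≠ v → (∃ e ∈ E, u ∈ e ∧ v ∈ e) → (L u ∩ L v).card ≤ 1)
    (hP1 : ∀ I : Finset V, B < I.card → ∃ e ∈ E, ∃ u ∈ I, ∃ v ∈ I, u ≠ v ∧ u ∈ e ∧ v ∈ e)
    (hP2 : ∀ S : Finset V, S.card < A → 2 * (E.filter fun e => e ⊆ S).card ≤ S.card) :
    ∃ φ : V → ℕ, (∀ v, φ v ∈ L v) ∧ ∀ e ∈ E, ¬ ∃ c, ∀ v ∈ e, φ v = c := by
  classical
  have hB : ∀ z z', z ≠ z' → (univ.filter fun v => z ∈ L v ∧ z' ∈ L v).card ≤ B := by
    intro z z' hzz
    by_contra hcon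
    push Not at hcon
    obtain ⟨e, he, u, hu, v, hv, huv, hue, hve⟩ := hP1 _ hcon
    have h1 := hsep u v huv ⟨e, he, hue, hve⟩
    have h2 : ({z, z'} : Finset ℕ) ⊆ L u ∩ L v := by
      intro x hx
      obtain ⟨_, hu1, hu2⟩ := mem_filter.mp hu
      obtain ⟨_, hv1, hv2⟩ := mem_filter.mp hv
      rcases mem_insert.mp hx with rfl | hx
      · exact mem_inter.mpr ⟨hu1, hv1⟩
      · rw [mem_singleton.mp hx]
        exact mem_inter.mpr ⟨hu2, hv2⟩
    have h3 := card_le_card h2
    rw [card_pair hzz] at h3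
    omega
  obtain ⟨L1, h1, h2⟩ := peel L hL A B hA hAB hB _ univ rfl
  have h3 : ∀ v, ∃ M ⊆ L1 v, M.card = 2 := fun v =>
    exists_subset_card_eq (h1 v (mem_univ v)).2
  choose M hM1 hM2 using h3
  have hMA : ∀ z, (univ.filter fun v => z ∈ M v).card < A := by
    intro z
    refine lt_of_le_of_lt (card_le_card ?_) (h2 z)
    intro v hv
    exact mem_filter.mpr ⟨mem_univ _, hM1 v (mem_filter.mp hv).2⟩
  -- Hall's theorem for the pairs (colour, edge)
  let J := {p : ℕ × Finset V // p.2 ∈ E ∧ ∀ v ∈ p.2, p.1 ∈ M v}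
  have hHall : ∀ F : Finset J, F.card ≤ (F.biUnion fun p => p.1.2).card := by
    intro F
    obtain ⟨S, hS⟩ : ∃ S : Finset V, S = F.biUnion fun p => p.1.2 := ⟨_, rfl⟩
    rw [← hS]
    obtain ⟨Z, hZ⟩ : ∃ Z : Finset ℕ, Z = F.image fun p => p.1.1 := ⟨_, rfl⟩
    -- the set covered in colour `z`
    obtain ⟨T, hT⟩ : ∃ T : ℕ → Finset V, ∀ z, T z =
      (F.filter fun p => p.1.1 = z).biUnion fun p => p.1.2 := ⟨_, fun _ => rfl⟩
    have hTM : ∀ z, T z ⊆ univ.filter fun v => z ∈ M v := by
      intro z v hv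
      rw [hT] at hv
      obtain ⟨p, hp, hvp⟩ := mem_biUnion.mp hv
      refine mem_filter.mpr ⟨mem_univ _, ?_⟩
      rw [← (mem_filter.mp hp).2]
      exact p.2.2 v hvp
    have hTS : ∀ z, T z ⊆ S := by
      intro z v hv
      rw [hT] at hv
      obtain ⟨p, hp, hvp⟩ := mem_biUnion.mp hv
      rw [hS]
      exact mem_biUnion.mpr ⟨p, (mem_filter.mp hp).1, hvp⟩
    have hfz : ∀ z, 2 * (F.filter fun p => p.1.1 = z).card ≤ (T z).card := by
      intro z
      refine le_trans (Nat.mul_le_mul_left 2 ?_)
        (hP2 (T z) (lt_of_le_of_lt (card_le_card (hTM z)) (hMA z)))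
      have hinj : Set.InjOn (fun p : J => p.1.2) (F.filter fun p => p.1.1 = z) := by
        intro p hp q hq hpq
        have hp1 := (mem_filter.mp (mem_coe.mp hp)).2
        have hq1 := (mem_filter.mp (mem_coe.mp hq)).2
        exact Subtype.ext (Prod.ext (hp1.trans hq1.symm) hpq)
      rw [← card_image_of_injOn hinj]
      apply card_le_card
      intro e he
      obtain ⟨p, hp, rfl⟩ := mem_image.mp he
      refine mem_filter.mpr ⟨p.2.1, ?_⟩
      intro v hv
      rw [hT]
      exact mem_biUnion.mpr ⟨p, hp, hv⟩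
    have hFsum : F.card = ∑ z ∈ Z, (F.filter fun p => p.1.1 = z).card := by
      apply card_eq_sum_card_fiberwise
      intro p hp
      rw [hZ]
      exact mem_coe.mpr (mem_image_of_mem _ hp)
    have hsum : 2 * F.card ≤ 2 * S.card := by
      calc 2 * F.card = ∑ z ∈ Z, 2 * (F.filter fun p => p.1.1 = z).card := by
            rw [hFsum, mul_sum]
        _ ≤ ∑ z ∈ Z, (T z).card := sum_le_sum fun z _ => hfz z
        _ ≤ ∑ z ∈ Z, (S.filter fun v => z ∈ M v).card := by
            refine sum_le_sum fun z _ => card_le_card fun v hv => ?_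
            exact mem_filter.mpr ⟨hTS z hv, (mem_filter.mp (hTM z hv)).2⟩
        _ = ∑ v ∈ S, (Z.filter fun z => z ∈ M v).card := by
            simp only [card_filter]
            exact sum_comm
        _ ≤ ∑ v ∈ S, 2 := by
            refine sum_le_sum fun v _ => ?_
            rw [← hM2 v]
            apply card_le_card
            intro z hz
            exact (mem_filter.mp hz).2
        _ = 2 * S.card := by rw [sum_const, smul_eq_mul, mul_comm]
    omega
  obtain ⟨ρ, hρ1, hρ2⟩ :=
    (Finset.all_card_le_biUnion_card_iff_exists_injective fun p : J => p.1.2).mp hHall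
  -- the colouring
  have hφ : ∀ v, ∃ c ∈ M v, ∀ p : J, ρ p = v → c ≠ p.1.1 := by
    intro v
    by_cases hv : ∃ p, ρ p = v
    · obtain ⟨p, hp⟩ := hv
      have h4 : ((M v).erase p.1.1).Nonempty := by
        rw [← card_pos]
        have := pred_card_le_card_erase (s := M v) (a := p.1.1)
        rw [hM2 v] at this
        omega
      obtain ⟨c, hc⟩ := h4
      refine ⟨c, (mem_erase.mp hc).2, fun q hq => ?_⟩
      have hpq : q = p := hρ1 (hq.trans hp.symm)
      rw [hpq]
      exact (mem_erase.mp hc).1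
    · have h4 : (M v).Nonempty := by rw [← card_pos, hM2 v]; omega
      obtain ⟨c, hc⟩ := h4
      exact ⟨c, hc, fun q hq => absurd ⟨q, hq⟩ hv⟩
  choose φ hφ1 hφ2 using hφ
  refine ⟨φ, fun v => (h1 v (mem_univ v)).1 (hM1 v (hφ1 v)), ?_⟩
  rintro e he ⟨c, hc⟩
  have hp : e ∈ E ∧ ∀ v ∈ e, c ∈ M v := ⟨he, fun v hv => by rw [← hc v hv]; exact hφ1 v⟩
  let p : J := ⟨(c, e), hp⟩
  exact hφ2 (ρ p) p rfl (hc (ρ p) (hρ2 p))

end Pool.Agent.R64.SepColor
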