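import Mathlib

/-!
# Random linear hypergraphs with sparse small sets: counting
-/

set_option autoImplicit false

namespace Pool.Agent.R64.SepRandom

open Finset

/-! ### Product counting -/

theorem card_forall {m : ℕ} {X : Type*} [Fintype X] [DecidableEq X] (J : Finset (Fin m))
    (Q : X → Prop) [DecidablePred Q] :
    (univ.filter fun ω : Fin m → X => ∀ i ∈ J, Q (ω i)).card =
      (univ.filter Q).card ^ J.card * Fintype.card X ^ (m - J.card) := by
  classical
  have h1 : (univ.filter fun ω : Fin m → X => ∀ i ∈ J, Q (ω i)) =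
      Fintype.piFinset fun i => if i ∈ J then univ.filter Q else univ := by
    ext ω
    rw [mem_filter, Fintype.mem_piFinset]
    constructor
    · rintro ⟨_, h⟩ i
      by_cases hi : i ∈ J
      · rw [if_pos hi]; exact mem_filter.mpr ⟨mem_univ _, h i hi⟩
      · rw [if_neg hi]; exact mem_univ _
    · intro h
      refine ⟨mem_univ _, fun i hi => ?_⟩
      have := h i
      rw [if_pos hi] at this
      exact (mem_filter.mp this).2
  rw [h1, Fintype.card_piFinset]
  have h2 : ∀ i, (if i ∈ J then univ.filter Q else univ : Finset X).card =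
      if i ∈ J then (univ.filter Q).card else Fintype.card X := by
    intro i
    split_ifs
    · rfl
    · exact card_univ
  rw [prod_congr rfl fun i _ => h2 i, prod_ite, prod_const, prod_const]
  have h3 : (univ.filter fun i => i ∈ J) = J := by ext; simp
  have h4 : (univ.filter fun i => i ∉ J).card = m - J.card := by
    have h5 : (univ.filter fun i => i ∉ J) = Jᶜ := by ext; simp
    rw [h5, card_compl, Fintype.card_fin]
  rw [h3, h4]

theorem pair_count {m : ℕ} {X : Type*} [Fintype X] [DecidableEq X] (R : X → X → Prop)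
    [∀ x y, Decidable (R x y)] (κ : ℕ)
    (h : ∀ x, (univ.filter fun y => R y x).card * κ ≤ Fintype.card X) (i j : Fin m)
    (hij : i ≠ j) :
    (univ.filter fun ω : Fin m → X => R (ω i) (ω j)).card * κ ≤ Fintype.card X ^ m := by
  classical
  have h1 : (univ.filter fun ω : Fin m → X => R (ω i) (ω j)).card =
      ∑ g : {k // k ≠ i} → X, (univ.filter fun y => R y (g ⟨j, hij.symm⟩)).card := by
    calc (univ.filter fun ω : Fin m → X => R (ω i) (ω j)).card
        = ∑ ω : Fin m → X, if R (ω i) (ω j) then 1 else 0 := by rw [card_filter]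
      _ = ∑ p : X × ({k // k ≠ i} → X), if R p.1 (p.2 ⟨j, hij.symm⟩) then 1 else 0 := by
          rw [← Equiv.sum_comp (Equiv.funSplitAt i X)]
          rfl
      _ = ∑ g : {k // k ≠ i} → X, ∑ y, if R y (g ⟨j, hij.symm⟩) then 1 else 0 := by
          rw [Fintype.sum_prod_type, sum_comm]
      _ = _ := by
          refine sum_congr rfl fun g _ => ?_
          rw [card_filter]
  have hm : 0 < m := lt_of_le_of_lt (Nat.zero_le _) i.isLt
  calc (univ.filter fun ω : Fin m → X => R (ω i) (ω j)).card * κ
      = ∑ g : {k // k ≠ i} → X, (univ.filter fun y => R y (g ⟨j, hij.symm⟩)).card * κ := by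
        rw [h1, sum_mul]
    _ ≤ ∑ _g : {k // k ≠ i} → X, Fintype.card X := sum_le_sum fun g _ => h _
    _ = Fintype.card X ^ m := by
        rw [sum_const, card_univ, smul_eq_mul, Fintype.card_fun, Fintype.card_subtype_compl,
          Fintype.card_fin, Fintype.card_subtype_eq, ← pow_succ]
        congr 1
        omega

theorem single_count {m : ℕ} {X : Type*} [Fintype X] [DecidableEq X] (Q : X → Prop)
    [DecidablePred Q] (κ : ℕ) (h : (univ.filter Q).card * κ ≤ Fintype.card X) (i : Fin m) :
    (univ.filter fun ω : Fin m → X => Q (ω i)).card * κ ≤ Fintype.card X ^ m := by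
  classical
  have h1 := card_forall {i} Q
  have h2 : (univ.filter fun ω : Fin m → X => ∀ j ∈ ({i} : Finset (Fin m)), Q (ω j)) =
      univ.filter fun ω : Fin m → X => Q (ω i) := by
    ext ω; simp
  have hm : 0 < m := lt_of_le_of_lt (Nat.zero_le _) i.isLt
  rw [h2, card_singleton, pow_one] at h1
  rw [h1]
  calc (univ.filter Q).card * Fintype.card X ^ (m - 1) * κ
      = ((univ.filter Q).card * κ) * Fintype.card X ^ (m - 1) := by ring
    _ ≤ Fintype.card X * Fintype.card X ^ (m - 1) := Nat.mul_le_mul_right _ h
    _ = Fintype.card X ^ m := by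
        rw [← pow_succ']
        congr 1
        omega

/-! ### Counting tuples -/

theorem count_two {r n : ℕ} (a b : Fin r) (hab : a ≠ b) (I I' : Finset (Fin n)) :
    (univ.filter fun e : Fin r → Fin n => e a ∈ I ∧ e b ∈ I').card * n ^ 2 =
      I.card * I'.card * n ^ r := by
  classical
  have h1 : (univ.filter fun e : Fin r → Fin n => e a ∈ I ∧ e b ∈ I') =
      Fintype.piFinset fun c => if c = a then I else if c = b then I' else univ := by
    ext e
    rw [mem_filter, Fintype.mem_piFinset]
    constructor
    · rintro ⟨_, h2, h3⟩ c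
      by_cases hca : c = a
      · rw [if_pos hca, hca]; exact h2
      · rw [if_neg hca]
        by_cases hcb : c = b
        · rw [if_pos hcb, hcb]; exact h3
        · rw [if_neg hcb]; exact mem_univ _
    · intro h
      refine ⟨mem_univ _, ?_, ?_⟩
      · have := h a
        rwa [if_pos rfl] at this
      · have := h b
        rwa [if_neg hab.symm, if_pos rfl] at this
  have hr : 2 ≤ r := by
    have := a.isLt
    have := b.isLt
    have : (a : ℕ) ≠ b := fun h => hab (Fin.ext h)
    omega
  rw [h1, Fintype.card_piFinset, ← mul_prod_erase univ _ (mem_univ a),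
    ← mul_prod_erase (univ.erase a) _ (mem_erase.mpr ⟨hab.symm, mem_univ b⟩)]
  rw [if_pos rfl, if_neg hab.symm, if_pos rfl]
  have h2 : ∏ c ∈ (univ.erase a).erase b,
      (if c = a then I else if c = b then I' else univ : Finset (Fin n)).card = n ^ (r - 2) := by
    have h3 : ∀ c ∈ (univ.erase a).erase b,
        (if c = a then I else if c = b then I' else univ : Finset (Fin n)).card = n := by
      intro c hc
      obtain ⟨h4, h5⟩ := mem_erase.mp hc
      rw [if_neg (mem_erase.mp h5).1, if_neg h4, card_univ, Fintype.card_fin]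
    rw [prod_congr rfl h3, prod_const]
    congr 1
    rw [card_erase_of_mem (mem_erase.mpr ⟨hab.symm, mem_univ b⟩), card_erase_of_mem (mem_univ a),
      card_univ, Fintype.card_fin]
    omega
  rw [h2]
  have h3 : n ^ r = n ^ (r - 2) * n ^ 2 := by
    rw [← pow_add]
    congr 1
    omega
  rw [h3]
  ring

theorem count_eq {r n : ℕ} (a b : Fin r) (hab : a ≠ b) (hn : 0 < n) :
    (univ.filter fun e : Fin r → Fin n => e a = e b).card * n ≤ n ^ r := by
  classical
  have h1 : (univ.filter fun e : Fin r → Fin n => e a = e b) ⊆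
      univ.biUnion fun x => univ.filter fun e : Fin r → Fin n => e a ∈ ({x} : Finset _) ∧
        e b ∈ ({x} : Finset _) := by
    intro e he
    have h2 := (mem_filter.mp he).2
    refine mem_biUnion.mpr ⟨e a, mem_univ _, mem_filter.mpr ⟨mem_univ _, ?_, ?_⟩⟩
    · simp
    · simp [h2]
  have h2 := (card_le_card h1).trans card_biUnion_le
  have h3 : (univ.filter fun e : Fin r → Fin n => e a = e b).card * n ^ 2 ≤ n * n ^ r := by
    calc (univ.filter fun e : Fin r → Fin n => e a = e b).card * n ^ 2
        ≤ (∑ x : Fin n, (univ.filter fun e : Fin r → Fin n => e a ∈ ({x} : Finset _) ∧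
          e b ∈ ({x} : Finset _)).card) * n ^ 2 := Nat.mul_le_mul_right _ h2
      _ = ∑ x : Fin n, (univ.filter fun e : Fin r → Fin n => e a ∈ ({x} : Finset _) ∧
          e b ∈ ({x} : Finset _)).card * n ^ 2 := by rw [sum_mul]
      _ = ∑ _x : Fin n, n ^ r := by
          refine sum_congr rfl fun x _ => ?_
          rw [count_two a b hab, card_singleton]
          ring
      _ = n * n ^ r := by rw [sum_const, card_univ, Fintype.card_fin, smul_eq_mul]
  have h4 : n * ((univ.filter fun e : Fin r → Fin n => e a = e b).card * n) ≤ n * n ^ r := by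
    calc n * ((univ.filter fun e : Fin r → Fin n => e a = e b).card * n)
        = (univ.filter fun e : Fin r → Fin n => e a = e b).card * n ^ 2 := by ring
      _ ≤ _ := h3
  exact Nat.le_of_mul_le_mul_left h4 hn

theorem count_in {r n : ℕ} (S : Finset (Fin n)) :
    (univ.filter fun e : Fin r → Fin n => ∀ c, e c ∈ S).card = S.card ^ r := by
  classical
  have h1 : (univ.filter fun e : Fin r → Fin n => ∀ c, e c ∈ S) =
      Fintype.piFinset fun _ => S := by
    ext e
    rw [mem_filter, Fintype.mem_piFinset]
    simp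
  rw [h1, Fintype.card_piFinset, prod_const, card_univ, Fintype.card_fin]

/-! ### Bad indices -/

/-- The set of the entries of a tuple. -/
def im {r n : ℕ} (e : Fin r → Fin n) : Finset (Fin n) := univ.image e

/-- `i` is bad if the `i`-th tuple has a repetition or shares two entries with another tuple. -/
def Bad {m r n : ℕ} (ω : Fin m → Fin r → Fin n) (i : Fin m) : Prop :=
  ¬ Function.Injective (ω i) ∨ ∃ j, j ≠ i ∧ 2 ≤ (im (ω i) ∩ im (ω j)).card

open Classical in
theorem bad_sum {m r n : ℕ} (hn : 0 < n) :
    (∑ ω : Fin m → Fin r → Fin n, (univ.filter fun i => Bad ω i).card) * n ^ 2 ≤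
      m * (r ^ 2 * n + m * r ^ 4) * (n ^ r) ^ m := by
  have hX : Fintype.card (Fin r → Fin n) = n ^ r := by simp
  -- split of the bad event
  have hsub : ∀ i : Fin m, (univ.filter fun ω : Fin m → Fin r → Fin n => Bad ω i) ⊆
      ((univ : Finset (Fin r × Fin r)).filter fun q => q.1 ≠ q.2).biUnion
        (fun q => univ.filter fun ω : Fin m → Fin r → Fin n => ω i q.1 = ω i q.2) ∪
      (((univ : Finset (Fin m)).erase i) ×ˢ
        ((univ : Finset ((Fin r × Fin r) × (Fin r × Fin r))).filter
          fun q => q.1.1 ≠ q.1.2)).biUnion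
        (fun q => univ.filter fun ω : Fin m → Fin r → Fin n =>
          ω i q.2.1.1 = ω q.1 q.2.2.1 ∧ ω i q.2.1.2 = ω q.1 q.2.2.2) := by
    intro i ω hω
    rcases (mem_filter.mp hω).2 with h1 | ⟨j, hj, h1⟩
    · apply mem_union_left
      rw [Function.Injective] at h1
      push Not at h1
      obtain ⟨a, b, h2, h3⟩ := h1
      exact mem_biUnion.mpr ⟨(a, b), mem_filter.mpr ⟨mem_univ _, h3⟩,
        mem_filter.mpr ⟨mem_univ _, h2⟩⟩
    · apply mem_union_right
      obtain ⟨x, hx, y, hy, hxy⟩ := one_lt_card.mp h1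
      obtain ⟨hx1, hx2⟩ := mem_inter.mp hx
      obtain ⟨hy1, hy2⟩ := mem_inter.mp hy
      obtain ⟨a, _, ha⟩ := mem_image.mp hx1
      obtain ⟨b, _, hb⟩ := mem_image.mp hy1
      obtain ⟨c, _, hc⟩ := mem_image.mp hx2
      obtain ⟨d, _, hd⟩ := mem_image.mp hy2
      refine mem_biUnion.mpr ⟨(j, ((a, b), (c, d))), mem_product.mpr
        ⟨mem_erase.mpr ⟨hj, mem_univ _⟩, mem_filter.mpr ⟨mem_univ _, ?_⟩⟩,
        mem_filter.mpr ⟨mem_univ _, ?_, ?_⟩⟩
      · intro hab
        have hab' : a = b := hab
        apply hxy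
        rw [← ha, ← hb, hab']
      · exact ha.trans hc.symm
      · exact hb.trans hd.symm
  have hi : ∀ i : Fin m, (univ.filter fun ω : Fin m → Fin r → Fin n => Bad ω i).card * n ^ 2 ≤
      (r ^ 2 * n + m * r ^ 4) * (n ^ r) ^ m := by
    intro i
    have h1 := (card_le_card (hsub i)).trans (card_union_le _ _)
    have h2 : (((univ : Finset (Fin r × Fin r)).filter fun q => q.1 ≠ q.2).biUnion
        (fun q => univ.filter fun ω : Fin m → Fin r → Fin n => ω i q.1 = ω i q.2)).card * n ^ 2 ≤
        r ^ 2 * n * (n ^ r) ^ m := by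
      calc _ ≤ (∑ q ∈ (univ : Finset (Fin r × Fin r)).filter fun q => q.1 ≠ q.2,
            (univ.filter fun ω : Fin m → Fin r → Fin n => ω i q.1 = ω i q.2).card) * n ^ 2 :=
            Nat.mul_le_mul_right _ card_biUnion_le
        _ = ∑ q ∈ (univ : Finset (Fin r × Fin r)).filter fun q => q.1 ≠ q.2,
            (univ.filter fun ω : Fin m → Fin r → Fin n => ω i q.1 = ω i q.2).card * n ^ 2 := by
            rw [sum_mul]
        _ ≤ ∑ q ∈ (univ : Finset (Fin r × Fin r)).filter fun q => q.1 ≠ q.2,
            n * (n ^ r) ^ m := by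
            refine sum_le_sum fun q hq => ?_
            have h3 := single_count (m := m) (fun e : Fin r → Fin n => e q.1 = e q.2) n (by
              rw [hX]; exact count_eq q.1 q.2 (mem_filter.mp hq).2 hn) i
            rw [hX] at h3
            calc _ = n * ((univ.filter fun ω : Fin m → Fin r → Fin n =>
                  ω i q.1 = ω i q.2).card * n) := by ring
              _ ≤ _ := Nat.mul_le_mul_left _ h3
        _ ≤ ∑ _q : Fin r × Fin r, n * (n ^ r) ^ m :=
            sum_le_sum_of_subset (filter_subset _ _)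
        _ = r ^ 2 * n * (n ^ r) ^ m := by
            rw [sum_const, card_univ, Fintype.card_prod, Fintype.card_fin, smul_eq_mul]
            ring
    have h3 : ((((univ : Finset (Fin m)).erase i) ×ˢ
        ((univ : Finset ((Fin r × Fin r) × (Fin r × Fin r))).filter
          fun q => q.1.1 ≠ q.1.2)).biUnion
        (fun q => univ.filter fun ω : Fin m → Fin r → Fin n =>
          ω i q.2.1.1 = ω q.1 q.2.2.1 ∧ ω i q.2.1.2 = ω q.1 q.2.2.2)).card * n ^ 2 ≤
        m * r ^ 4 * (n ^ r) ^ m := by
      calc _ ≤ (∑ q ∈ ((univ : Finset (Fin m)).erase i) ×ˢ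
            ((univ : Finset ((Fin r × Fin r) × (Fin r × Fin r))).filter
              fun q => q.1.1 ≠ q.1.2),
            (univ.filter fun ω : Fin m → Fin r → Fin n =>
              ω i q.2.1.1 = ω q.1 q.2.2.1 ∧ ω i q.2.1.2 = ω q.1 q.2.2.2).card) * n ^ 2 :=
            Nat.mul_le_mul_right _ card_biUnion_le
        _ = ∑ q ∈ ((univ : Finset (Fin m)).erase i) ×ˢ
            ((univ : Finset ((Fin r × Fin r) × (Fin r × Fin r))).filter
              fun q => q.1.1 ≠ q.1.2),
            (univ.filter fun ω : Fin m → Fin r → Fin n =>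
              ω i q.2.1.1 = ω q.1 q.2.2.1 ∧ ω i q.2.1.2 = ω q.1 q.2.2.2).card * n ^ 2 := by
            rw [sum_mul]
        _ ≤ ∑ q ∈ ((univ : Finset (Fin m)).erase i) ×ˢ
            ((univ : Finset ((Fin r × Fin r) × (Fin r × Fin r))).filter
              fun q => q.1.1 ≠ q.1.2), (n ^ r) ^ m := by
            refine sum_le_sum fun q hq => ?_
            obtain ⟨hq1, hq2⟩ := mem_product.mp hq
            have h4 := pair_count (m := m)
              (fun e e' : Fin r → Fin n => e q.2.1.1 = e' q.2.2.1 ∧ e q.2.1.2 = e' q.2.2.2)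
              (n ^ 2) (by
                intro e'
                have h5 := count_two q.2.1.1 q.2.1.2 (mem_filter.mp hq2).2
                  ({e' q.2.2.1} : Finset (Fin n)) {e' q.2.2.2}
                rw [card_singleton, card_singleton, one_mul, one_mul] at h5
                rw [hX, ← h5]
                apply Nat.mul_le_mul_right
                apply card_le_card
                intro e he
                obtain ⟨_, h6, h7⟩ := mem_filter.mp he
                exact mem_filter.mpr ⟨mem_univ _, mem_singleton.mpr h6, mem_singleton.mpr h7⟩)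
              i q.1 (mem_erase.mp hq1).1.symm
            rw [hX] at h4
            exact h4
        _ ≤ ∑ _q : Fin m × ((Fin r × Fin r) × (Fin r × Fin r)), (n ^ r) ^ m :=
            sum_le_sum_of_subset (subset_univ _)
        _ = m * r ^ 4 * (n ^ r) ^ m := by
            rw [sum_const, card_univ, Fintype.card_prod, Fintype.card_prod, Fintype.card_prod,
              Fintype.card_fin, Fintype.card_fin, smul_eq_mul]
            ring
    calc (univ.filter fun ω : Fin m → Fin r → Fin n => Bad ω i).card * n ^ 2
        ≤ _ := Nat.mul_le_mul_right _ h1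
      _ = _ := add_mul _ _ _
      _ ≤ r ^ 2 * n * (n ^ r) ^ m + m * r ^ 4 * (n ^ r) ^ m := Nat.add_le_add h2 h3
      _ = (r ^ 2 * n + m * r ^ 4) * (n ^ r) ^ m := by ring
  calc (∑ ω : Fin m → Fin r → Fin n, (univ.filter fun i => Bad ω i).card) * n ^ 2
      = (∑ i : Fin m, (univ.filter fun ω : Fin m → Fin r → Fin n => Bad ω i).card) * n ^ 2 := by
        congr 1
        simp only [card_filter]
        exact sum_comm
    _ = ∑ i : Fin m, (univ.filter fun ω : Fin m → Fin r → Fin n => Bad ω i).card * n ^ 2 := by
        rw [sum_mul]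
    _ ≤ ∑ _i : Fin m, (r ^ 2 * n + m * r ^ 4) * (n ^ r) ^ m := sum_le_sum fun i _ => hi i
    _ = m * (r ^ 2 * n + m * r ^ 4) * (n ^ r) ^ m := by
        rw [sum_const, card_univ, Fintype.card_fin, smul_eq_mul]
        ring

end Pool.Agent.R64.SepRandom
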