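import Pool.Agent.R64.SepRandom

/-!
# Random linear hypergraphs with sparse small sets: the union bound
-/

set_option autoImplicit false

namespace Pool.Agent.R64.SepRandom

open Finset
open scoped Classical

/-- The union bound. -/
theorem exists_good (r n m t A B : ℕ) (a0 a1 : Fin r) (ha : a0 ≠ a1) (hn : 0 < n) (htm : t ≤ m)
    (h1 : 4 * (m * (r ^ 2 * n + m * r ^ 4)) ≤ (t + 1) * n ^ 2)
    (h2 : (n.choose (B + 1) : ℝ) * (m.choose t) *
      (1 - (((B : ℝ) + 1) / n) ^ 2) ^ (m - t) ≤ 1 / 4)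
    (h3 : ∑ s ∈ range A, (n.choose s : ℝ) * (m.choose (s / 2 + 1)) *
      ((s : ℝ) / n) ^ (r * (s / 2 + 1)) ≤ 1 / 4) :
    ∃ ω : Fin m → Fin r → Fin n, (univ.filter fun i => Bad ω i).card ≤ t ∧
      (∀ I : Finset (Fin n), I.card = B + 1 →
        t < (univ.filter fun i => ω i a0 ∈ I ∧ ω i a1 ∈ I).card) ∧
      ∀ S : Finset (Fin n), S.card < A →
        2 * (univ.filter fun i => ∀ c, ω i c ∈ S).card ≤ S.card := by
  have hnR : (0 : ℝ) < n := by exact_mod_cast hn
  have hX : Fintype.card (Fin r → Fin n) = n ^ r := by simp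
  have hXpos : 0 < n ^ r := Nat.pow_pos hn
  obtain ⟨W, hW⟩ : ∃ W : ℝ, W = ((n : ℝ) ^ r) ^ m := ⟨_, rfl⟩
  have hWpos : 0 < W := by rw [hW]; positivity
  have hΩ : (Fintype.card (Fin m → Fin r → Fin n) : ℝ) = W := by
    rw [Fintype.card_fun, hX, Fintype.card_fin, hW]; push_cast; rfl
  -- the three bad events
  obtain ⟨B1, hB1⟩ : ∃ B1 : Finset (Fin m → Fin r → Fin n),
    B1 = univ.filter fun ω => t < (univ.filter fun i => Bad ω i).card := ⟨_, rfl⟩
  obtain ⟨B2, hB2⟩ : ∃ B2 : Finset (Fin m → Fin r → Fin n),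
    B2 = (powersetCard (B + 1) univ ×ˢ powersetCard t univ).biUnion fun q =>
      univ.filter fun ω => ∀ i ∈ q.2ᶜ, ¬ (ω i a0 ∈ q.1 ∧ ω i a1 ∈ q.1) := ⟨_, rfl⟩
  obtain ⟨B3, hB3⟩ : ∃ B3 : Finset (Fin m → Fin r → Fin n),
    B3 = (range A).biUnion fun s =>
      (powersetCard s univ ×ˢ powersetCard (s / 2 + 1) univ).biUnion fun q =>
        univ.filter fun ω => ∀ i ∈ q.2, ∀ c, ω i c ∈ q.1 := ⟨_, rfl⟩
  have hc1 : (B1.card : ℝ) ≤ W / 4 := by
    have h4 : B1.card * (t + 1) ≤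
        ∑ ω : Fin m → Fin r → Fin n, (univ.filter fun i => Bad ω i).card := by
      calc B1.card * (t + 1) = ∑ ω ∈ B1, (t + 1) := by rw [sum_const, smul_eq_mul]
        _ ≤ ∑ ω ∈ B1, (univ.filter fun i => Bad ω i).card := by
            refine sum_le_sum fun ω hω => ?_
            rw [hB1] at hω
            exact (mem_filter.mp hω).2
        _ ≤ _ := sum_le_sum_of_subset (subset_univ _)
    have h5 := bad_sum (m := m) (r := r) hn
    have h6 : 4 * B1.card * ((t + 1) * n ^ 2) ≤ ((t + 1) * n ^ 2) * (n ^ r) ^ m := by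
      calc 4 * B1.card * ((t + 1) * n ^ 2) = 4 * ((B1.card * (t + 1)) * n ^ 2) := by ring
        _ ≤ 4 * ((∑ ω : Fin m → Fin r → Fin n, (univ.filter fun i => Bad ω i).card) * n ^ 2) :=
            Nat.mul_le_mul_left _ (Nat.mul_le_mul_right _ h4)
        _ ≤ 4 * (m * (r ^ 2 * n + m * r ^ 4) * (n ^ r) ^ m) := Nat.mul_le_mul_left _ h5
        _ = 4 * (m * (r ^ 2 * n + m * r ^ 4)) * (n ^ r) ^ m := by ring
        _ ≤ ((t + 1) * n ^ 2) * (n ^ r) ^ m := Nat.mul_le_mul_right _ h1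
    have h7 : 4 * B1.card ≤ (n ^ r) ^ m := by
      have h8 : 0 < (t + 1) * n ^ 2 := by positivity
      rw [mul_comm] at h6
      exact Nat.le_of_mul_le_mul_left h6 h8
    have h8 : (4 : ℝ) * B1.card ≤ W := by rw [hW]; exact_mod_cast h7
    linarith
  have hc2 : (B2.card : ℝ) ≤ W / 4 := by
    have h4 : ∀ q ∈ powersetCard (B + 1) (univ : Finset (Fin n)) ×ˢ
        powersetCard t (univ : Finset (Fin m)),
        ((univ.filter fun ω : Fin m → Fin r → Fin n =>
          ∀ i ∈ q.2ᶜ, ¬ (ω i a0 ∈ q.1 ∧ ω i a1 ∈ q.1)).card : ℝ) =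
        W * (1 - (((B : ℝ) + 1) / n) ^ 2) ^ (m - t) := by
      intro q hq
      obtain ⟨hq1, hq2⟩ := mem_product.mp hq
      have hq1' := (mem_powersetCard.mp hq1).2
      have hq2' := (mem_powersetCard.mp hq2).2
      have h5 := card_forall (m := m) q.2ᶜ
        (fun e : Fin r → Fin n => ¬ (e a0 ∈ q.1 ∧ e a1 ∈ q.1))
      rw [card_compl, Fintype.card_fin, hq2', hX] at h5
      have h6 := count_two a0 a1 ha q.1 q.1
      rw [hq1'] at h6
      have h7 := card_filter_add_card_filter_not (s := (univ : Finset (Fin r → Fin n)))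
        (fun e => e a0 ∈ q.1 ∧ e a1 ∈ q.1)
      rw [card_univ, hX] at h7
      have h8 : ((univ.filter fun e : Fin r → Fin n => ¬ (e a0 ∈ q.1 ∧ e a1 ∈ q.1)).card : ℝ) =
          (n : ℝ) ^ r * (1 - (((B : ℝ) + 1) / n) ^ 2) := by
        have h9 : ((univ.filter fun e : Fin r → Fin n => (e a0 ∈ q.1 ∧ e a1 ∈ q.1)).card : ℝ) *
            (n : ℝ) ^ 2 = ((B : ℝ) + 1) * (B + 1) * (n : ℝ) ^ r := by exact_mod_cast h6
        have h10 : ((univ.filter fun e : Fin r → Fin n => (e a0 ∈ q.1 ∧ e a1 ∈ q.1)).card : ℝ) =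
            (n : ℝ) ^ r * (((B : ℝ) + 1) / n) ^ 2 := by
          field_simp
          rw [h9]; ring
        have h11 : ((univ.filter fun e : Fin r → Fin n => (e a0 ∈ q.1 ∧ e a1 ∈ q.1)).card : ℝ) +
            ((univ.filter fun e : Fin r → Fin n => ¬ (e a0 ∈ q.1 ∧ e a1 ∈ q.1)).card : ℝ) =
            (n : ℝ) ^ r := by exact_mod_cast h7
        rw [h10] at h11
        linarith
      rw [h5]
      push_cast
      rw [h8, mul_pow, hW]
      have h9 : m - (m - t) = t := by omega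
      rw [h9]
      have h10 : ((n : ℝ) ^ r) ^ m = ((n : ℝ) ^ r) ^ (m - t) * ((n : ℝ) ^ r) ^ t := by
        rw [← pow_add]; congr 1; omega
      rw [h10]; ring
    have h5 : (B2.card : ℝ) ≤ ∑ q ∈ powersetCard (B + 1) (univ : Finset (Fin n)) ×ˢ
        powersetCard t (univ : Finset (Fin m)),
        W * (1 - (((B : ℝ) + 1) / n) ^ 2) ^ (m - t) := by
      rw [← sum_congr rfl h4, hB2]
      exact_mod_cast card_biUnion_le
    rw [sum_const, card_product, card_powersetCard, card_powersetCard, card_univ, card_univ,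
      Fintype.card_fin, Fintype.card_fin, nsmul_eq_mul] at h5
    push_cast at h5
    calc (B2.card : ℝ) ≤ _ := h5
      _ = W * ((n.choose (B + 1) : ℝ) * (m.choose t) *
          (1 - (((B : ℝ) + 1) / n) ^ 2) ^ (m - t)) := by ring
      _ ≤ W * (1 / 4) := mul_le_mul_of_nonneg_left h2 hWpos.le
      _ = W / 4 := by ring
  have hc3 : (B3.card : ℝ) ≤ W / 4 := by
    have h4 : ∀ s, ∀ q ∈ powersetCard s (univ : Finset (Fin n)) ×ˢ
        powersetCard (s / 2 + 1) (univ : Finset (Fin m)),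
        ((univ.filter fun ω : Fin m → Fin r → Fin n =>
          ∀ i ∈ q.2, ∀ c, ω i c ∈ q.1).card : ℝ) =
        W * ((s : ℝ) / n) ^ (r * (s / 2 + 1)) := by
      intro s q hq
      obtain ⟨hq1, hq2⟩ := mem_product.mp hq
      have hq1' := (mem_powersetCard.mp hq1).2
      have hq2' := (mem_powersetCard.mp hq2).2
      have hjm : s / 2 + 1 ≤ m := by
        rw [← hq2']
        exact (card_le_univ _).trans (by simp)
      have h5 := card_forall (m := m) q.2 (fun e : Fin r → Fin n => ∀ c, e c ∈ q.1)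
      rw [hq2', hX, count_in, hq1'] at h5
      rw [h5, hW]
      push_cast
      rw [div_pow, pow_mul, pow_mul]
      have h10 : ((n : ℝ) ^ r) ^ m =
          ((n : ℝ) ^ r) ^ (s / 2 + 1) * ((n : ℝ) ^ r) ^ (m - (s / 2 + 1)) := by
        rw [← pow_add]; congr 1; omega
      rw [h10]
      field_simp
    have h5 : (B3.card : ℝ) ≤ ∑ s ∈ range A, ∑ q ∈ powersetCard s (univ : Finset (Fin n)) ×ˢ
        powersetCard (s / 2 + 1) (univ : Finset (Fin m)),
        W * ((s : ℝ) / n) ^ (r * (s / 2 + 1)) := by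
      rw [← sum_congr rfl fun s _ => sum_congr rfl (h4 s), hB3]
      have h6 : ((range A).biUnion fun s =>
          (powersetCard s (univ : Finset (Fin n)) ×ˢ
            powersetCard (s / 2 + 1) (univ : Finset (Fin m))).biUnion fun q =>
          univ.filter fun ω : Fin m → Fin r → Fin n => ∀ i ∈ q.2, ∀ c, ω i c ∈ q.1).card ≤
          ∑ s ∈ range A, ∑ q ∈ powersetCard s (univ : Finset (Fin n)) ×ˢ
            powersetCard (s / 2 + 1) (univ : Finset (Fin m)),
            (univ.filter fun ω : Fin m → Fin r → Fin n => ∀ i ∈ q.2, ∀ c, ω i c ∈ q.1).card :=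
        card_biUnion_le.trans (sum_le_sum fun s _ => card_biUnion_le)
      exact_mod_cast h6
    calc (B3.card : ℝ) ≤ _ := h5
      _ = W * ∑ s ∈ range A, (n.choose s : ℝ) * (m.choose (s / 2 + 1)) *
          ((s : ℝ) / n) ^ (r * (s / 2 + 1)) := by
          rw [mul_sum]
          refine sum_congr rfl fun s _ => ?_
          rw [sum_const, card_product, card_powersetCard, card_powersetCard, card_univ,
            card_univ, Fintype.card_fin, Fintype.card_fin, nsmul_eq_mul]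
          push_cast
          ring
      _ ≤ W * (1 / 4) := mul_le_mul_of_nonneg_left h3 hWpos.le
      _ = W / 4 := by ring
  -- a good outcome
  have hex : ∃ ω, ω ∉ B1 ∪ B2 ∪ B3 := by
    by_contra hcon
    push Not at hcon
    have h4 : (univ : Finset (Fin m → Fin r → Fin n)) ⊆ B1 ∪ B2 ∪ B3 := fun ω _ => hcon ω
    have h5 := (card_le_card h4).trans ((card_union_le _ _).trans
      (Nat.add_le_add_right (card_union_le _ _) _))
    have h6 : (Fintype.card (Fin m → Fin r → Fin n) : ℝ) ≤ B1.card + B2.card + B3.card := by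
      rw [card_univ] at h5
      exact_mod_cast h5
    rw [hΩ] at h6
    linarith
  obtain ⟨ω, hω⟩ := hex
  have hω1 : ω ∉ B1 := fun h => hω (mem_union_left _ (mem_union_left _ h))
  have hω2 : ω ∉ B2 := fun h => hω (mem_union_left _ (mem_union_right _ h))
  have hω3 : ω ∉ B3 := fun h => hω (mem_union_right _ h)
  refine ⟨ω, ?_, ?_, ?_⟩
  · by_contra hcon
    apply hω1
    rw [hB1]
    exact mem_filter.mpr ⟨mem_univ _, not_le.mp hcon⟩
  · intro I hI
    by_contra hcon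
    push Not at hcon
    apply hω2
    obtain ⟨T, hT1, hT2⟩ : ∃ T : Finset (Fin m),
        (univ.filter fun i => ω i a0 ∈ I ∧ ω i a1 ∈ I) ⊆ T ∧ T.card = t := by
      obtain ⟨T, h4, _, h5⟩ := exists_subsuperset_card_eq
        (subset_univ (univ.filter fun i => ω i a0 ∈ I ∧ ω i a1 ∈ I)) hcon
        (by rw [card_univ, Fintype.card_fin]; exact htm)
      exact ⟨T, h4, h5⟩
    rw [hB2]
    refine mem_biUnion.mpr ⟨(I, T), mem_product.mpr
      ⟨mem_powersetCard.mpr ⟨subset_univ _, hI⟩, mem_powersetCard.mpr ⟨subset_univ _, hT2⟩⟩,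
      mem_filter.mpr ⟨mem_univ _, fun i hi h => ?_⟩⟩
    exact (mem_compl.mp hi) (hT1 (mem_filter.mpr ⟨mem_univ _, h⟩))
  · intro S hS
    by_contra hcon
    push Not at hcon
    apply hω3
    have h4 : S.card / 2 + 1 ≤ (univ.filter fun i => ∀ c, ω i c ∈ S).card := by omega
    obtain ⟨J, hJ1, hJ2⟩ := exists_subset_card_eq h4
    rw [hB3]
    refine mem_biUnion.mpr ⟨S.card, mem_range.mpr hS, mem_biUnion.mpr ⟨(S, J),
      mem_product.mpr ⟨mem_powersetCard.mpr ⟨subset_univ _, rfl⟩,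
        mem_powersetCard.mpr ⟨subset_univ _, hJ2⟩⟩,
      mem_filter.mpr ⟨mem_univ _, fun i hi => (mem_filter.mp (hJ1 hi)).2⟩⟩⟩

/-- The hypergraph of a good outcome. -/
theorem exists_hyp (r n m t A B : ℕ) (hr : 2 ≤ r) (hn : 0 < n) (htm : t ≤ m)
    (h1 : 4 * (m * (r ^ 2 * n + m * r ^ 4)) ≤ (t + 1) * n ^ 2)
    (h2 : (n.choose (B + 1) : ℝ) * (m.choose t) *
      (1 - (((B : ℝ) + 1) / n) ^ 2) ^ (m - t) ≤ 1 / 4)
    (h3 : ∑ s ∈ range A, (n.choose s : ℝ) * (m.choose (s / 2 + 1)) *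
      ((s : ℝ) / n) ^ (r * (s / 2 + 1)) ≤ 1 / 4) :
    ∃ E : Finset (Finset (Fin n)), (∀ e ∈ E, e.card = r) ∧
      (∀ e ∈ E, ∀ e' ∈ E, e ≠ e' → (e ∩ e').card ≤ 1) ∧ m ≤ E.card + t ∧
      (∀ I : Finset (Fin n), B < I.card → ∃ e ∈ E, ∃ u ∈ I, ∃ v ∈ I, u ≠ v ∧ u ∈ e ∧ v ∈ e) ∧
      ∀ S : Finset (Fin n), S.card < A → 2 * (E.filter fun e => e ⊆ S).card ≤ S.card := by
  obtain ⟨a0, ha0⟩ : ∃ a0 : Fin r, a0 = ⟨0, by omega⟩ := ⟨_, rfl⟩
  obtain ⟨a1, ha1⟩ : ∃ a1 : Fin r, a1 = ⟨1, by omega⟩ := ⟨_, rfl⟩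
  have ha : a0 ≠ a1 := by rw [ha0, ha1]; intro h; simp at h
  obtain ⟨ω, g1, g2, g3⟩ := exists_good r n m t A B a0 a1 ha hn htm h1 h2 h3
  obtain ⟨G, hG⟩ : ∃ G : Finset (Fin m), G = univ.filter fun i => ¬ Bad ω i := ⟨_, rfl⟩
  have hgood : ∀ i ∈ G, Function.Injective (ω i) ∧
      ∀ j, j ≠ i → (im (ω i) ∩ im (ω j)).card ≤ 1 := by
    intro i hi
    rw [hG] at hi
    have h4 := (mem_filter.mp hi).2
    rw [Bad] at h4
    push Not at h4
    exact ⟨h4.1, fun j hj => by have := h4.2 j hj; omega⟩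
  have hcard : ∀ i ∈ G, (im (ω i)).card = r := by
    intro i hi
    rw [im, card_image_of_injective _ (hgood i hi).1, card_univ, Fintype.card_fin]
  have hinj : Set.InjOn (fun i => im (ω i)) G := by
    intro i hi j hj hij
    by_contra hne
    have h4 := (hgood i hi).2 j (Ne.symm hne)
    have hij' : im (ω i) = im (ω j) := hij
    rw [← hij', inter_self, hcard i hi] at h4
    omega
  have hGc : m ≤ G.card + t := by
    have h4 := card_filter_add_card_filter_not (s := (univ : Finset (Fin m))) (fun i => Bad ω i)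
    rw [card_univ, Fintype.card_fin, ← hG] at h4
    omega
  refine ⟨G.image fun i => im (ω i), ?_, ?_, ?_, ?_, ?_⟩
  · intro e he
    obtain ⟨i, hi, rfl⟩ := mem_image.mp he
    exact hcard i hi
  · intro e he e' he' hne
    obtain ⟨i, hi, rfl⟩ := mem_image.mp he
    obtain ⟨j, hj, rfl⟩ := mem_image.mp he'
    exact (hgood i hi).2 j fun h => hne (by rw [h])
  · rw [card_image_of_injOn hinj]
    exact hGc
  · intro I hI
    obtain ⟨I', hI'1, hI'2⟩ := exists_subset_card_eq (show B + 1 ≤ I.card from hI)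
    have h4 := g2 I' hI'2
    have h5 : ∃ i, i ∈ (univ.filter fun i => ω i a0 ∈ I' ∧ ω i a1 ∈ I') ∧ ¬ Bad ω i := by
      by_contra hcon
      push Not at hcon
      have h6 : (univ.filter fun i => ω i a0 ∈ I' ∧ ω i a1 ∈ I') ⊆
          univ.filter fun i => Bad ω i := fun i hi => mem_filter.mpr ⟨mem_univ _, hcon i hi⟩
      have h7 := card_le_card h6
      omega
    obtain ⟨i, hi1, hi2⟩ := h5
    obtain ⟨_, hi3, hi4⟩ := mem_filter.mp hi1
    have hiG : i ∈ G := by rw [hG]; exact mem_filter.mpr ⟨mem_univ _, hi2⟩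
    refine ⟨im (ω i), mem_image_of_mem _ hiG, ω i a0, hI'1 hi3, ω i a1, hI'1 hi4, ?_,
      mem_image_of_mem _ (mem_univ _), mem_image_of_mem _ (mem_univ _)⟩
    exact fun h => ha ((hgood i hiG).1 h)
  · intro S hS
    refine le_trans (Nat.mul_le_mul_left 2 ?_) (g3 S hS)
    have h4 : ((G.image fun i => im (ω i)).filter fun e => e ⊆ S) ⊆
        (univ.filter fun i => ∀ c, ω i c ∈ S).image fun i => im (ω i) := by
      intro e he
      obtain ⟨he1, he2⟩ := mem_filter.mp he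
      obtain ⟨i, hi, rfl⟩ := mem_image.mp he1
      exact mem_image_of_mem _ (mem_filter.mpr ⟨mem_univ _, fun c =>
        he2 (mem_image_of_mem _ (mem_univ c))⟩)
    exact (card_le_card h4).trans card_image_le

end Pool.Agent.R64.SepRandom
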