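import Pool.Agent.R64.SepRandom2

/-!
# Random linear hypergraphs with sparse small sets: parameters
-/

set_option autoImplicit false

namespace Pool.Agent.R64.SepRandom

open Finset Filter Topology

theorem choose_le (n k : ℕ) : (n.choose k : ℝ) * (k : ℝ) ^ k ≤ (3 * n) ^ k := by
  have h1 : (n.choose k : ℝ) ≤ (n : ℝ) ^ k / (k.factorial : ℝ) := Nat.choose_le_pow_div k n
  have h2 : (k : ℝ) ^ k / (k.factorial : ℝ) ≤ Real.exp k :=
    Real.pow_div_factorial_le_exp (k : ℝ) (Nat.cast_nonneg k) k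
  have h3 : Real.exp (k : ℝ) ≤ 3 ^ k := by
    have h4 : Real.exp (k : ℝ) = Real.exp 1 ^ k := by
      rw [← Real.exp_nat_mul, mul_one]
    rw [h4]
    exact pow_le_pow_left₀ (Real.exp_pos _).le
      (by have := Real.exp_one_lt_d9; linarith) _
  have hf : (0 : ℝ) < k.factorial := by exact_mod_cast Nat.factorial_pos k
  calc (n.choose k : ℝ) * (k : ℝ) ^ k ≤ (n : ℝ) ^ k / (k.factorial : ℝ) * (k : ℝ) ^ k :=
        mul_le_mul_of_nonneg_right h1 (by positivity)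
    _ = (n : ℝ) ^ k * ((k : ℝ) ^ k / (k.factorial : ℝ)) := by ring
    _ ≤ (n : ℝ) ^ k * 3 ^ k := mul_le_mul_of_nonneg_left (h2.trans h3) (by positivity)
    _ = (3 * n) ^ k := by rw [mul_pow]; ring

/-- One term of the sum of the sparse small sets. -/
theorem term_le (r n m A s : ℕ) (g : ℝ) (hr : 6 ≤ r) (hs : 1 ≤ s) (hsA : s < A) (hg : 24000 ≤ g)
    (hn : 0 < n) (hm : (m : ℝ) = g ^ 5 * n) (hA : (A : ℝ) ≤ 3 / g ^ 2 * n) :
    (n.choose s : ℝ) * (m.choose (s / 2 + 1)) * ((s : ℝ) / n) ^ (r * (s / 2 + 1)) ≤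
      (1944 * g / n) * (1 / 2) ^ s := by
  have hnR : (0 : ℝ) < n := by exact_mod_cast hn
  have hg0 : (0 : ℝ) < g := by linarith
  have hsR : (0 : ℝ) < s := by exact_mod_cast hs
  have hsA' : (s : ℝ) < A := by exact_mod_cast hsA
  have hsn : (s : ℝ) / n ≤ 3 / g ^ 2 := by
    rw [div_le_iff₀ hnR]; linarith
  have hg2 : (1 : ℝ) ≤ g ^ 2 := by nlinarith
  have hsn1 : (s : ℝ) / n ≤ 1 := by
    refine hsn.trans ?_
    rw [div_le_one (by positivity)]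
    nlinarith
  have hsn0 : 0 < (s : ℝ) / n := by positivity
  have hsn' : (s : ℝ) ≤ n := by rwa [div_le_one hnR] at hsn1
  obtain ⟨j, hj⟩ : ∃ j, j = s / 2 + 1 := ⟨_, rfl⟩
  rw [← hj]
  have hj1 : s ≤ 2 * j := by omega
  have hjR : (s : ℝ) ≤ 2 * j := by exact_mod_cast hj1
  have hj0 : (0 : ℝ) < j := by linarith
  -- first binomial
  have h1 : (n.choose s : ℝ) ≤ (3 * n / s) ^ (2 * j) := by
    have h2 := choose_le n s
    have h3 : (n.choose s : ℝ) ≤ (3 * n / s) ^ s := by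
      rw [div_pow, le_div_iff₀ (by positivity)]
      exact h2
    refine h3.trans (pow_le_pow_right₀ ?_ hj1)
    rw [le_div_iff₀ hsR]; linarith
  have h2 : (m.choose j : ℝ) ≤ (6 * m / s) ^ j := by
    have h3 := choose_le m j
    have h4 : (m.choose j : ℝ) ≤ (3 * m / j) ^ j := by
      rw [div_pow, le_div_iff₀ (by positivity)]
      exact h3
    refine h4.trans (pow_le_pow_left₀ (by positivity) ?_ _)
    rw [div_le_div_iff₀ hj0 hsR]
    have hm0 : (0 : ℝ) ≤ m := Nat.cast_nonneg m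
    nlinarith
  have h3 : ((s : ℝ) / n) ^ (r * j) ≤ ((s : ℝ) / n) ^ (6 * j) :=
    pow_le_pow_of_le_one hsn0.le hsn1 (Nat.mul_le_mul_right _ hr)
  have h4 : (n.choose s : ℝ) * (m.choose j) * ((s : ℝ) / n) ^ (r * j) ≤
      (3 * n / s) ^ (2 * j) * (6 * m / s) ^ j * ((s : ℝ) / n) ^ (6 * j) := by
    apply mul_le_mul _ h3 (by positivity) (by positivity)
    exact mul_le_mul h1 h2 (by positivity) (by positivity)
  have h5 : (3 * (n : ℝ) / s) ^ (2 * j) * (6 * m / s) ^ j * ((s : ℝ) / n) ^ (6 * j) =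
      (54 * g ^ 5 * ((s : ℝ) / n) ^ 3) ^ j := by
    rw [pow_mul, pow_mul, ← mul_pow, ← mul_pow]
    congr 1
    rw [hm]
    field_simp
    ring
  rw [h5] at h4
  obtain ⟨x, hx⟩ : ∃ x : ℝ, x = 486 * g * ((s : ℝ) / n) := ⟨_, rfl⟩
  have hx0 : 0 < x := by rw [hx]; positivity
  have h6 : 54 * g ^ 5 * ((s : ℝ) / n) ^ 3 ≤ x := by
    have h7 : ((s : ℝ) / n) ^ 2 ≤ (3 / g ^ 2) ^ 2 := pow_le_pow_left₀ hsn0.le hsn 2
    calc 54 * g ^ 5 * ((s : ℝ) / n) ^ 3 = 54 * g ^ 5 * ((s : ℝ) / n) * ((s : ℝ) / n) ^ 2 := by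
          ring
      _ ≤ 54 * g ^ 5 * ((s : ℝ) / n) * (3 / g ^ 2) ^ 2 :=
          mul_le_mul_of_nonneg_left h7 (by positivity)
      _ = x := by rw [hx]; field_simp; ring
  have hx16 : x ≤ 1 / 16 := by
    rw [hx]
    calc 486 * g * ((s : ℝ) / n) ≤ 486 * g * (3 / g ^ 2) :=
          mul_le_mul_of_nonneg_left hsn (by positivity)
      _ = 1458 / g := by field_simp; ring
      _ ≤ 1 / 16 := by
          rw [div_le_div_iff₀ hg0 (by norm_num)]; linarith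
  have h7 : (54 * g ^ 5 * ((s : ℝ) / n) ^ 3) ^ j ≤ x ^ j :=
    pow_le_pow_left₀ (by positivity) h6 _
  have h8 : x ^ j ≤ x * (1 / 16) ^ (s / 2) := by
    rw [hj, pow_succ, mul_comm]
    exact mul_le_mul_of_nonneg_left (pow_le_pow_left₀ hx0.le hx16 _) hx0.le
  have h9 : ((1 : ℝ) / 16) ^ (s / 2) ≤ 4 * (1 / 4) ^ s := by
    have h10 : ((1 : ℝ) / 4) ^ (2 * (s / 2) + 1) ≤ (1 / 4) ^ s :=
      pow_le_pow_of_le_one (by norm_num) (by norm_num) (by omega)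
    have h11 : ((1 : ℝ) / 4) ^ (2 * (s / 2) + 1) = (1 / 16) ^ (s / 2) * (1 / 4) := by
      rw [pow_succ, pow_mul]; norm_num
    rw [h11] at h10
    linarith
  have h10 : (s : ℝ) * (1 / 4) ^ s ≤ (1 / 2) ^ s := by
    have h11 : (s : ℝ) ≤ 2 ^ s := by exact_mod_cast (Nat.lt_two_pow_self (n := s)).le
    calc (s : ℝ) * (1 / 4) ^ s ≤ 2 ^ s * (1 / 4) ^ s :=
          mul_le_mul_of_nonneg_right h11 (by positivity)
      _ = (1 / 2) ^ s := by rw [← mul_pow]; norm_num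
  calc (n.choose s : ℝ) * (m.choose j) * ((s : ℝ) / n) ^ (r * j) ≤ _ := h4
    _ ≤ x ^ j := h7
    _ ≤ x * (1 / 16) ^ (s / 2) := h8
    _ ≤ x * (4 * (1 / 4) ^ s) := mul_le_mul_of_nonneg_left h9 hx0.le
    _ = (1944 * g / n) * ((s : ℝ) * (1 / 4) ^ s) := by rw [hx]; ring
    _ ≤ (1944 * g / n) * (1 / 2) ^ s := mul_le_mul_of_nonneg_left h10 (by positivity)

theorem sum_le (r n m A : ℕ) (g : ℝ) (hr : 6 ≤ r) (hg : 24000 ≤ g)
    (hn : 0 < n) (hm : (m : ℝ) = g ^ 5 * n) (hA : (A : ℝ) ≤ 3 / g ^ 2 * n)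
    (hng : 15552 * g ≤ n) :
    ∑ s ∈ range A, (n.choose s : ℝ) * (m.choose (s / 2 + 1)) *
      ((s : ℝ) / n) ^ (r * (s / 2 + 1)) ≤ 1 / 4 := by
  have hnR : (0 : ℝ) < n := by exact_mod_cast hn
  have hg0 : (0 : ℝ) < g := by linarith
  calc ∑ s ∈ range A, (n.choose s : ℝ) * (m.choose (s / 2 + 1)) *
      ((s : ℝ) / n) ^ (r * (s / 2 + 1)) ≤ ∑ s ∈ range A, (1944 * g / n) * (1 / 2) ^ s := by
        refine sum_le_sum fun s hs => ?_
        rcases Nat.eq_zero_or_pos s with rfl | hs0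
        · have h1 : r * (0 / 2 + 1) ≠ 0 := by simp; omega
          rw [Nat.cast_zero, zero_div, zero_pow h1, mul_zero]
          positivity
        · exact term_le r n m A s g hr hs0 (mem_range.mp hs) hg hn hm hA
    _ = (1944 * g / n) * ∑ s ∈ range A, (1 / 2) ^ s := by rw [mul_sum]
    _ ≤ (1944 * g / n) * 2 := by
        apply mul_le_mul_of_nonneg_left _ (by positivity)
        exact sum_geometric_two_le A
    _ = 3888 * g / n := by ring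
    _ ≤ 1 / 4 := by
        rw [div_le_div_iff₀ hnR (by norm_num)]; linarith

theorem exp_big (g : ℝ) (hg : 24000 ≤ g) : 3 * g ^ 4 * Real.exp (-g) < 1 := by
  have h1 := Real.pow_div_factorial_le_exp g (by linarith) 5
  have h2 : ((Nat.factorial 5 : ℕ) : ℝ) = 120 := by norm_num [Nat.factorial]
  rw [h2] at h1
  rw [Real.exp_neg, ← div_eq_mul_inv, div_lt_one (Real.exp_pos _)]
  refine lt_of_lt_of_le ?_ h1
  rw [lt_div_iff₀ (by norm_num)]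
  have h3 : (0 : ℝ) < g ^ 4 := by positivity
  nlinarith

/-- The bound for the strongly independent sets. -/
theorem second_le (G t : ℕ) (hG : 24000 ≤ G) : ∃ ν0 : ℕ, ∀ ν : ℕ, ν0 ≤ ν → 1 ≤ ν → t ≤ ν →
    ((G ^ 4 * ν).choose (ν + 1) : ℝ) * ((G ^ 9 * ν).choose t) *
      (1 - (((ν : ℝ) + 1) / ((G ^ 4 * ν : ℕ) : ℝ)) ^ 2) ^ (G ^ 9 * ν - t) ≤ 1 / 4 := by
  obtain ⟨g, hg⟩ : ∃ g : ℝ, g = G := ⟨_, rfl⟩
  have hg24 : 24000 ≤ g := by rw [hg]; exact_mod_cast hG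
  have hg0 : 0 < g := by linarith
  obtain ⟨K, hK⟩ : ∃ K : ℝ, K = 3 * g ^ 4 * (g ^ 9) ^ t * Real.exp (t / g ^ 8) := ⟨_, rfl⟩
  have hK0 : 0 < K := by rw [hK]; positivity
  have hρ := exp_big g hg24
  have hlim : Tendsto (fun ν : ℕ => (ν : ℝ) ^ t * (3 * g ^ 4 * Real.exp (-g)) ^ ν) atTop (𝓝 0) :=
    tendsto_pow_const_mul_const_pow_of_abs_lt_one t (by
      rw [abs_of_pos (by positivity)]; exact hρ)
  have hev := hlim.eventually (gt_mem_nhds (show (0 : ℝ) < 1 / (4 * K) by positivity))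
  obtain ⟨ν0, hν0⟩ := eventually_atTop.mp hev
  refine ⟨ν0, fun ν hν hν1 htν => ?_⟩
  have hlt := hν0 ν hν
  have hνR : (1 : ℝ) ≤ ν := by exact_mod_cast hν1
  have hνR0 : (0 : ℝ) < ν := by linarith
  have hncast : ((G ^ 4 * ν : ℕ) : ℝ) = g ^ 4 * ν := by rw [hg]; push_cast; ring
  have hmcast : ((G ^ 9 * ν : ℕ) : ℝ) = g ^ 9 * ν := by rw [hg]; push_cast; ring
  have h1 : ((G ^ 4 * ν).choose (ν + 1) : ℝ) ≤ (3 * g ^ 4) ^ (ν + 1) := by
    have h2 := choose_le (G ^ 4 * ν) (ν + 1)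
    rw [hncast] at h2
    have h3 : (0 : ℝ) < ((ν + 1 : ℕ) : ℝ) ^ (ν + 1) := by positivity
    have h4 : (3 * (g ^ 4 * ν)) ^ (ν + 1) ≤ (3 * g ^ 4) ^ (ν + 1) * ((ν + 1 : ℕ) : ℝ) ^ (ν + 1) := by
      rw [← mul_pow]
      refine pow_le_pow_left₀ (by positivity) ?_ _
      push_cast
      have : 0 < g ^ 4 := by positivity
      nlinarith
    exact le_of_mul_le_mul_right (h2.trans h4) h3
  have h2 : ((G ^ 9 * ν).choose t : ℝ) ≤ (g ^ 9 * ν) ^ t := by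
    rw [← hmcast]
    exact_mod_cast Nat.choose_le_pow (G ^ 9 * ν) t
  have hx1 : ((ν : ℝ) + 1) / (g ^ 4 * ν) ≤ 1 := by
    rw [div_le_one (by positivity)]
    have : (2 : ℝ) ≤ g ^ 4 := by nlinarith [pow_pos hg0 2, pow_pos hg0 3]
    nlinarith
  have hx2 : 1 / g ^ 8 ≤ (((ν : ℝ) + 1) / (g ^ 4 * ν)) ^ 2 := by
    have h3 : 1 / g ^ 4 ≤ ((ν : ℝ) + 1) / (g ^ 4 * ν) := by
      rw [div_le_div_iff₀ (by positivity) (by positivity)]
      have : 0 < g ^ 4 := by positivity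
      nlinarith
    calc 1 / g ^ 8 = (1 / g ^ 4) ^ 2 := by rw [div_pow, one_pow]; ring
      _ ≤ _ := pow_le_pow_left₀ (by positivity) h3 2
  have hx3 : 0 ≤ ((ν : ℝ) + 1) / (g ^ 4 * ν) := by positivity
  have hx4 : 0 ≤ 1 - (((ν : ℝ) + 1) / (g ^ 4 * ν)) ^ 2 := by
    have : (((ν : ℝ) + 1) / (g ^ 4 * ν)) ^ 2 ≤ 1 := pow_le_one₀ hx3 hx1
    linarith
  have htm : t ≤ G ^ 9 * ν := htν.trans (Nat.le_mul_of_pos_left _ (by positivity))
  have h3 : (1 - (((ν : ℝ) + 1) / (g ^ 4 * ν)) ^ 2) ^ (G ^ 9 * ν - t) ≤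
      Real.exp (-g) ^ ν * Real.exp (t / g ^ 8) := by
    have h4 : 1 - (((ν : ℝ) + 1) / (g ^ 4 * ν)) ^ 2 ≤ Real.exp (-(1 / g ^ 8)) := by
      have := Real.add_one_le_exp (-(1 / g ^ 8))
      linarith
    calc (1 - (((ν : ℝ) + 1) / (g ^ 4 * ν)) ^ 2) ^ (G ^ 9 * ν - t)
        ≤ Real.exp (-(1 / g ^ 8)) ^ (G ^ 9 * ν - t) := pow_le_pow_left₀ hx4 h4 _
      _ = Real.exp (((G ^ 9 * ν - t : ℕ) : ℝ) * (-(1 / g ^ 8))) := by rw [Real.exp_nat_mul]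
      _ = Real.exp ((ν : ℝ) * (-g) + t / g ^ 8) := by
          congr 1
          rw [Nat.cast_sub htm, hmcast]
          field_simp
          ring
      _ = Real.exp (-g) ^ ν * Real.exp (t / g ^ 8) := by
          rw [Real.exp_add, Real.exp_nat_mul]
  rw [hncast]
  calc ((G ^ 4 * ν).choose (ν + 1) : ℝ) * ((G ^ 9 * ν).choose t) *
      (1 - (((ν : ℝ) + 1) / (g ^ 4 * ν)) ^ 2) ^ (G ^ 9 * ν - t)
      ≤ (3 * g ^ 4) ^ (ν + 1) * (g ^ 9 * ν) ^ t *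
        (Real.exp (-g) ^ ν * Real.exp (t / g ^ 8)) := by
        apply mul_le_mul _ h3 (pow_nonneg hx4 _) (by positivity)
        exact mul_le_mul h1 h2 (by positivity) (by positivity)
    _ = K * ((ν : ℝ) ^ t * (3 * g ^ 4 * Real.exp (-g)) ^ ν) := by
        rw [hK, mul_pow (g ^ 9), pow_succ, mul_pow (3 * g ^ 4)]
        ring
    _ ≤ K * (1 / (4 * K)) := mul_le_mul_of_nonneg_left hlt.le hK0.le
    _ = 1 / 4 := by field_simp

/-- **Existence of the hypergraphs.** -/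
theorem exists_final (r d : ℕ) (hr : 6 ≤ r) : ∃ (n A B : ℕ) (E : Finset (Finset (Fin n))),
    0 < n ∧ 0 < A ∧ 9 * n * B < 2 * A ^ 2 ∧ (∀ e ∈ E, e.card = r) ∧
      (∀ e ∈ E, ∀ e' ∈ E, e ≠ e' → (e ∩ e').card ≤ 1) ∧ d * n ≤ r * E.card ∧
      (∀ I : Finset (Fin n), B < I.card → ∃ e ∈ E, ∃ u ∈ I, ∃ v ∈ I, u ≠ v ∧ u ∈ e ∧ v ∈ e) ∧
      ∀ S : Finset (Fin n), S.card < A → 2 * (E.filter fun e => e ⊆ S).card ≤ S.card := by
  obtain ⟨G, hG⟩ : ∃ G, G = 24000 + d := ⟨_, rfl⟩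
  obtain ⟨t, ht⟩ : ∃ t, t = 4 * (G ^ 5 * r ^ 2 + G ^ 10 * r ^ 4) := ⟨_, rfl⟩
  obtain ⟨ν0, hν0⟩ := second_le G t (by omega)
  obtain ⟨ν, hν⟩ : ∃ ν, ν = ν0 + t + 1 := ⟨_, rfl⟩
  have hG24 : 24000 ≤ G := by omega
  have hG0 : 0 < G := by omega
  have hν1 : 1 ≤ ν := by omega
  have hgR : (24000 : ℝ) ≤ G := by exact_mod_cast hG24
  have hgR0 : (0 : ℝ) < G := by linarith
  have hνR : (1 : ℝ) ≤ ν := by exact_mod_cast hν1
  have hn : 0 < G ^ 4 * ν := by positivity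
  have htm : t ≤ G ^ 9 * ν := (by omega : t ≤ ν).trans (Nat.le_mul_of_pos_left _ (by positivity))
  have h2 := hν0 ν (by omega) hν1 (by omega)
  have h3 := sum_le r (G ^ 4 * ν) (G ^ 9 * ν) (3 * G ^ 2 * ν) G hr hgR hn
    (by push_cast; ring) (by push_cast; field_simp; exact le_of_eq (by ring)) (by
      push_cast
      have h4 : (24000 : ℝ) ^ 3 ≤ (G : ℝ) ^ 3 := pow_le_pow_left₀ (by norm_num) hgR 3
      calc (15552 : ℝ) * G ≤ (24000 : ℝ) ^ 3 * G := by nlinarith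
        _ ≤ (G : ℝ) ^ 3 * G := mul_le_mul_of_nonneg_right h4 hgR0.le
        _ = (G : ℝ) ^ 4 * 1 := by ring
        _ ≤ (G : ℝ) ^ 4 * ν := mul_le_mul_of_nonneg_left hνR (by positivity))
  obtain ⟨E, e1, e2, e3, e4, e5⟩ := exists_hyp r (G ^ 4 * ν) (G ^ 9 * ν) t (3 * G ^ 2 * ν) ν
    (by omega) hn htm (by
      rw [ht]
      have h4 : 4 * (G ^ 9 * ν * (r ^ 2 * (G ^ 4 * ν) + G ^ 9 * ν * r ^ 4)) =
        (4 * (G ^ 5 * r ^ 2 + G ^ 10 * r ^ 4)) * (G ^ 4 * ν) ^ 2 := by ring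
      rw [h4]
      exact Nat.mul_le_mul_right _ (Nat.le_succ _)) h2 h3
  refine ⟨G ^ 4 * ν, 3 * G ^ 2 * ν, ν, E, hn, by positivity, ?_, e1, e2, ?_, e4, e5⟩
  · have h4 : 2 * (3 * G ^ 2 * ν) ^ 2 = 9 * (G ^ 4 * ν) * ν + 9 * (G ^ 4 * ν) * ν := by ring
    rw [h4]
    have h5 : 0 < 9 * (G ^ 4 * ν) * ν := by positivity
    omega
  · have h4 : d * (G ^ 4 * ν) + t ≤ G ^ 9 * ν := by
      have h5 : t ≤ G ^ 4 * ν := (by omega : t ≤ ν).trans (Nat.le_mul_of_pos_left _ (by positivity))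
      have h6 : d + 1 ≤ G ^ 5 := by
        calc d + 1 ≤ G := by omega
          _ = G ^ 1 := (pow_one G).symm
          _ ≤ G ^ 5 := Nat.pow_le_pow_right hG0 (by norm_num)
      calc d * (G ^ 4 * ν) + t ≤ d * (G ^ 4 * ν) + G ^ 4 * ν := Nat.add_le_add_left h5 _
        _ = (d + 1) * (G ^ 4 * ν) := by ring
        _ ≤ G ^ 5 * (G ^ 4 * ν) := Nat.mul_le_mul_right _ h6
        _ = G ^ 9 * ν := by ring
    calc d * (G ^ 4 * ν) ≤ E.card := by omega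
      _ ≤ r * E.card := Nat.le_mul_of_pos_left _ (by omega)

end Pool.Agent.R64.SepRandom
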